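import Pool.Agent.NekF.Free

/-!
# NF-Ab: homeomorphisms of bounded displacement fixing a point commute near this point
-/

open Topology

namespace Pool.Agent.NekF

variable {X : Type} [TopologicalSpace X] {a b : X ≃ₜ X}

/-- Near a fixed point only the elements `d k` fixing this point are used. -/
private theorem near [T2Space X] {M : ℕ} {f : X ≃ₜ X} (hf : Disp a b M f) {x : X}
    (hfx : f x = x) : ∀ᶠ y in 𝓝 x, ∃ k : ℤ, f y = d a b k y ∧ d a b k x = x := by
  have h1 : ∀ᶠ y in 𝓝 x, ∀ k ∈ Finset.Icc (-(M : ℤ)) M, d a b k x ≠ x → f y ≠ d a b k y := by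
    rw [Filter.eventually_all_finset]
    intro k _
    by_cases hk : d a b k x = x
    · exact Filter.Eventually.of_forall fun y h => absurd hk h
    · have h2 : IsOpen {y : X | f y ≠ d a b k y} :=
        isOpen_ne_fun f.continuous (d a b k).continuous
      have h3 : x ∈ {y : X | f y ≠ d a b k y} := by
        change f x ≠ d a b k x
        rw [hfx]
        exact fun h => hk h.symm
      filter_upwards [h2.mem_nhds h3] with y hy _
      exact hy
  filter_upwards [h1] with y hy
  obtain ⟨k, hk, hfk⟩ := hf y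
  refine ⟨k, hfk, ?_⟩
  by_contra h
  exact hy k (Finset.mem_Icc.2 (abs_le.1 hk)) h hfk

private theorem comm_case {f g : X ≃ₜ X} {y z : X} (hf : f y = y ∨ f y = z)
    (hf' : f z = z ∨ f z = y) (hg : g y = y ∨ g y = z) (hg' : g z = z ∨ g z = y) :
    f (g y) = g (f y) := by
  rcases hf with hf | hf <;> rcases hg with hg | hg
  · rw [hg, hf, hg]
  · rw [hg, hf, hg]
    rcases hf' with h | h
    · exact h
    · have : z = y := f.injective (h.trans hf.symm)
      rw [h, this]
  · rw [hg, hf]
    rcases hg' with h | h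
    · exact h.symm
    · have : z = y := g.injective (h.trans hg.symm)
      rw [h, this]
  · rw [hg, hf]
    rcases hf' with h | h
    · have : z = y := f.injective (h.trans hf.symm)
      rw [this] at hf hg ⊢
      rw [hf, hg]
    · rcases hg' with h' | h'
      · have : z = y := g.injective (h'.trans hg.symm)
        rw [this] at hf hg ⊢
        rw [hf, hg]
      · rw [h, h']

theorem eventually_comm [T2Space X] [Infinite X] (ha : a * a = 1) (hb : b * b = 1)
    (hmin : Minimal a b) {M : ℕ} {f g : X ≃ₜ X} (hf : Disp a b M f) (hg : Disp a b M g) {x : X}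
    (hfx : f x = x) (hgx : g x = x) : ∀ᶠ y in 𝓝 x, f (g y) = g (f y) := by
  have h0 : ∀ y : X, d a b 0 y = y := fun y => by rw [d_zero]; rfl
  by_cases hex : ∃ k₀ : ℤ, k₀ ≠ 0 ∧ d a b k₀ x = x
  · obtain ⟨k₀, hk₀, hfix⟩ := hex
    have hodd : ¬ Even k₀ := fix_odd ha hb hmin hk₀ hfix
    have hee : ∀ y, d a b k₀ (d a b k₀ y) = y := by
      intro y
      have h1 : d a b k₀ * d a b k₀ = 1 := by
        have h2 := d_inv_odd ha hb hodd
        calc d a b k₀ * d a b k₀ = (d a b k₀)⁻¹ * d a b k₀ := by rw [h2]
          _ = 1 := inv_mul_cancel _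
      calc d a b k₀ (d a b k₀ y) = (d a b k₀ * d a b k₀) y := rfl
        _ = y := by rw [h1]; rfl
    have hpair : ∀ {u : X ≃ₜ X}, Disp a b M u → u x = x →
        ∀ᶠ y in 𝓝 x, u y = y ∨ u y = d a b k₀ y := by
      intro u hu hux
      filter_upwards [near hu hux] with y hy
      obtain ⟨k, h1, h2⟩ := hy
      by_cases hk : k = 0
      · left
        rw [h1, hk, h0]
      · right
        rw [h1, fix_unique ha hb hmin hk hk₀ h2 hfix]
    have hpair' : ∀ {u : X ≃ₜ X}, Disp a b M u → u x = x →
        ∀ᶠ y in 𝓝 x, u (d a b k₀ y) = d a b k₀ y ∨ u (d a b k₀ y) = y := by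
      intro u hu hux
      have h1 := hpair hu hux
      have h2 : Filter.Tendsto (fun y : X => d a b k₀ y) (𝓝 x) (𝓝 x) := by
        have h3 := (d a b k₀).continuous.tendsto x
        rwa [hfix] at h3
      filter_upwards [h2.eventually h1] with y hy
      rw [hee] at hy
      exact hy
    filter_upwards [hpair hf hfx, hpair' hf hfx, hpair hg hgx, hpair' hg hgx] with y h1 h2 h3 h4
    exact comm_case h1 h2 h3 h4
  · have hid : ∀ {u : X ≃ₜ X}, Disp a b M u → u x = x → ∀ᶠ y in 𝓝 x, u y = y := by
      intro u hu hux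
      filter_upwards [near hu hux] with y hy
      obtain ⟨k, h1, h2⟩ := hy
      have hk : k = 0 := by
        by_contra hk
        exact hex ⟨k, hk, h2⟩
      rw [h1, hk, h0]
    filter_upwards [hid hf hfx, hid hg hgx] with y h1 h2
    rw [h2, h1, h2]

end Pool.Agent.NekF
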