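import Pool.Agent.NekF.Defs

/-! Basic facts on full groups, gluing of homeomorphisms, 3-cycles and word lengths. -/

open Topology

namespace Pool.Agent.NekF

open Pool.Agent.VW (Len)

section

variable {X : Type} [TopologicalSpace X]

@[simp] theorem one_app (x : X) : (1 : X ≃ₜ X) x = x := rfl
@[simp] theorem mul_app (f g : X ≃ₜ X) (x : X) : (f * g) x = f (g x) := rfl
theorem inv_app_self (f : X ≃ₜ X) (x : X) : f⁻¹ (f x) = x := f.symm_apply_apply x
theorem app_inv_self (f : X ≃ₜ X) (x : X) : f (f⁻¹ x) = x := f.apply_symm_apply x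

theorem inv_app_eq {f : X ≃ₜ X} {x y : X} : f⁻¹ x = y ↔ x = f y :=
  ⟨fun h => by rw [← h, app_inv_self], fun h => by rw [h, inv_app_self]⟩

theorem mem_full {G : Subgroup (X ≃ₜ X)} {f : X ≃ₜ X} :
    f ∈ full G ↔ ∀ x, ∃ g ∈ G, ∀ᶠ y in 𝓝 x, f y = g y := Iff.rfl

theorem le_full (G : Subgroup (X ≃ₜ X)) : G ≤ full G :=
  fun g hg _ => ⟨g, hg, Filter.Eventually.of_forall fun _ => rfl⟩

/-- a homeomorphism which is locally in the full group is in the full group -/
theorem mem_full_of_local {G : Subgroup (X ≃ₜ X)} {f : X ≃ₜ X}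
    (hf : ∀ x, ∃ g ∈ full G, ∀ᶠ y in 𝓝 x, f y = g y) : f ∈ full G := by
  intro x
  obtain ⟨g, hg, h⟩ := hf x
  obtain ⟨u, hu, h'⟩ := hg x
  refine ⟨u, hu, ?_⟩
  filter_upwards [h, h'] with y h1 h2
  rw [h1, h2]

/-- a bijection which is locally in the full group is a homeomorphism of the full group -/
theorem exists_homeo [CompactSpace X] [T2Space X] (G : Subgroup (X ≃ₜ X)) (f : X → X)
    (hf : Function.Bijective f) (hloc : ∀ x, ∃ g ∈ full G, ∀ᶠ y in 𝓝 x, f y = g y) :
    ∃ F ∈ full G, ∀ x, F x = f x := by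
  have hc : Continuous f := by
    rw [continuous_iff_continuousAt]
    intro x
    obtain ⟨g, -, h⟩ := hloc x
    exact (g.continuous.continuousAt).congr (Filter.EventuallyEq.symm h)
  let F : X ≃ₜ X := Continuous.homeoOfEquivCompactToT2 (f := Equiv.ofBijective f hf) hc
  have hF : ∀ x, F x = f x := fun x => rfl
  exact ⟨F, mem_full_of_local fun x => hloc x, hF⟩

/-- gluing two homeomorphisms along a common invariant clopen set -/
theorem exists_glue [CompactSpace X] [T2Space X] {G : Subgroup (X ≃ₜ X)} {f g : X ≃ₜ X}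
    (hf : f ∈ full G) (hg : g ∈ full G) {Y : Set X} (hY : IsClopen Y)
    (hfY : ∀ x, f x ∈ Y ↔ x ∈ Y) (hgY : ∀ x, g x ∈ Y ↔ x ∈ Y) :
    ∃ F ∈ full G, (∀ x ∈ Y, F x = f x) ∧ ∀ x, x ∉ Y → F x = g x := by
  classical
  have hinj : Function.Injective (fun x => if x ∈ Y then f x else g x) := by
    intro x y h
    by_cases hx : x ∈ Y <;> by_cases hy : y ∈ Y
    · simp only [if_pos hx, if_pos hy] at h
      exact f.injective h
    · simp only [if_pos hx, if_neg hy] at h
      exact absurd ((hgY y).1 (h ▸ (hfY x).2 hx)) hy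
    · simp only [if_neg hx, if_pos hy] at h
      exact absurd ((hgY x).1 (h ▸ (hfY y).2 hy)) hx
    · simp only [if_neg hx, if_neg hy] at h
      exact g.injective h
  have hsurj : Function.Surjective (fun x => if x ∈ Y then f x else g x) := by
    intro y
    by_cases hy : y ∈ Y
    · have h : f⁻¹ y ∈ Y := (hfY _).1 (by rwa [app_inv_self])
      exact ⟨f⁻¹ y, by
        change (if f⁻¹ y ∈ Y then f (f⁻¹ y) else g (f⁻¹ y)) = y
        rw [if_pos h, app_inv_self]⟩
    · have h : g⁻¹ y ∉ Y := fun h => hy (by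
        have h' := (hgY _).2 h
        rwa [app_inv_self] at h')
      exact ⟨g⁻¹ y, by
        change (if g⁻¹ y ∈ Y then f (g⁻¹ y) else g (g⁻¹ y)) = y
        rw [if_neg h, app_inv_self]⟩
  have hloc : ∀ x, ∃ u ∈ full G, ∀ᶠ y in 𝓝 x, (if y ∈ Y then f y else g y) = u y := by
    intro x
    by_cases hx : x ∈ Y
    · refine ⟨f, hf, ?_⟩
      filter_upwards [hY.isOpen.mem_nhds hx] with y hy
      simp [hy]
    · refine ⟨g, hg, ?_⟩
      filter_upwards [hY.compl.isOpen.mem_nhds hx] with y hy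
      rw [if_neg hy]
  obtain ⟨F, h1, h2⟩ := exists_homeo G _ ⟨hinj, hsurj⟩ hloc
  exact ⟨F, h1, fun x hx => by simp [h2, hx], fun x hx => by simp [h2, hx]⟩

/-! ### 3-cycles -/

variable {G : Subgroup (X ≃ₜ X)}

theorem cube_app {t : X ≃ₜ X} (h : t ^ 3 = 1) (x : X) : t (t (t x)) = x := by
  have h1 : (t ^ 3) x = x := by rw [h]; rfl
  simpa [pow_succ] using h1

theorem cube_of_app {t : X ≃ₜ X} (h : ∀ x, t (t (t x)) = x) : t ^ 3 = 1 := by
  ext x
  simpa [pow_succ] using h x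

theorem Tri.one : Tri G 1 := ⟨(full G).one_mem, one_pow 3, by
  have : {x : X | (1 : X ≃ₜ X) x ≠ x} = ∅ := by ext x; simp
  rw [this]; exact isClopen_empty⟩

theorem Tri.inv {t : X ≃ₜ X} (h : Tri G t) : Tri G t⁻¹ := by
  refine ⟨(full G).inv_mem h.1, by rw [inv_pow, h.2.1, inv_one], ?_⟩
  have : {x : X | t⁻¹ x ≠ x} = {x | t x ≠ x} := by
    ext x
    simp only [Set.mem_ofPred_eq, ne_eq, not_iff_not, inv_app_eq]
    exact ⟨fun h => h.symm, fun h => h.symm⟩
  rw [this]; exact h.2.2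

theorem Tri.conj {t g : X ≃ₜ X} (h : Tri G t) (hg : g ∈ full G) : Tri G (g * t * g⁻¹) := by
  refine ⟨(full G).mul_mem ((full G).mul_mem hg h.1) ((full G).inv_mem hg), ?_, ?_⟩
  · rw [conj_pow, h.2.1]; group
  · have : {x : X | (g * t * g⁻¹) x ≠ x} = (fun x => g⁻¹ x) ⁻¹' {x | t x ≠ x} := by
      ext x
      simp only [Set.mem_ofPred_eq, ne_eq, Set.mem_preimage, mul_app, not_iff_not]
      constructor
      · intro h1
        have h2 := congrArg (fun z => g⁻¹ z) h1
        simpa only [inv_app_self] using h2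
      · intro h1
        rw [h1, app_inv_self]
    rw [this]
    exact h.2.2.preimage (g⁻¹ : X ≃ₜ X).continuous

/-- gluing two 3-cycles along a common invariant clopen set -/
theorem Tri.glue [CompactSpace X] [T2Space X] {f g : X ≃ₜ X} (hf : Tri G f) (hg : Tri G g)
    {Y : Set X} (hY : IsClopen Y) (hfY : ∀ x, f x ∈ Y ↔ x ∈ Y) (hgY : ∀ x, g x ∈ Y ↔ x ∈ Y) :
    ∃ F, Tri G F ∧ (∀ x ∈ Y, F x = f x) ∧ ∀ x, x ∉ Y → F x = g x := by
  obtain ⟨F, h1, h2, h3⟩ := exists_glue hf.1 hg.1 hY hfY hgY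
  refine ⟨F, ⟨h1, cube_of_app fun x => ?_, ?_⟩, h2, h3⟩
  · by_cases hx : x ∈ Y
    · have h4 : f x ∈ Y := (hfY x).2 hx
      have h5 : f (f x) ∈ Y := (hfY _).2 h4
      rw [h2 x hx, h2 _ h4, h2 _ h5, cube_app hf.2.1]
    · have h4 : g x ∉ Y := fun h => hx ((hgY x).1 h)
      have h5 : g (g x) ∉ Y := fun h => h4 ((hgY _).1 h)
      rw [h3 x hx, h3 _ h4, h3 _ h5, cube_app hg.2.1]
  · have : {x : X | F x ≠ x} = ({x | f x ≠ x} ∩ Y) ∪ ({x | g x ≠ x} ∩ Yᶜ) := by
      ext x
      by_cases hx : x ∈ Y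
      · simp [hx, h2 x hx]
      · simp [hx, h3 x hx]
    rw [this]
    exact (hf.2.2.inter hY).union (hg.2.2.inter hY.compl)

/-- restriction of a 3-cycle to an invariant clopen set -/
theorem Tri.res [CompactSpace X] [T2Space X] {f : X ≃ₜ X} (hf : Tri G f)
    {Y : Set X} (hY : IsClopen Y) (hfY : ∀ x, f x ∈ Y ↔ x ∈ Y) :
    ∃ F, Tri G F ∧ (∀ x ∈ Y, F x = f x) ∧ ∀ x, x ∉ Y → F x = x :=
  Tri.glue hf Tri.one hY hfY fun _ => Iff.rfl

end

/-! ### word lengths -/

section len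

variable {Γ : Type} [Group Γ] {W : Set Γ}

theorem len_one (m : ℕ) : Len W m 1 := ⟨[], by simp, by simp, by simp⟩

theorem len_mono {m n : ℕ} (h : m ≤ n) {g : Γ} (hg : Len W m g) : Len W n g := by
  obtain ⟨l, h1, h2, h3⟩ := hg
  exact ⟨l, h1.trans h, h2, h3⟩

theorem len_sub {W' : Set Γ} (hW : ∀ x ∈ W, x ∈ W') {m : ℕ} {g : Γ} (hg : Len W m g) :
    Len W' m g := by
  obtain ⟨l, h1, h2, h3⟩ := hg
  exact ⟨l, h1, fun x hx => hW x (h2 x hx), h3⟩

theorem len_of_mem {g : Γ} (hg : g ∈ W) : Len W 1 g := ⟨[g], by simp, by simpa using hg, by simp⟩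

theorem len_mul {m n : ℕ} {g h : Γ} (hg : Len W m g) (hh : Len W n h) : Len W (m + n) (g * h) := by
  obtain ⟨l, h1, h2, h3⟩ := hg
  obtain ⟨l', h1', h2', h3'⟩ := hh
  refine ⟨l ++ l', by simp; omega, ?_, by simp [h3, h3']⟩
  intro x hx
  rcases List.mem_append.1 hx with h | h
  · exact h2 x h
  · exact h2' x h

/-- the image of a product under a homomorphism -/
theorem len_map {Δ : Type} [Group Δ] {W' : Set Δ} (φ : Γ →* Δ) (hφ : ∀ x ∈ W, φ x ∈ W') {m : ℕ}
    {g : Γ} (hg : Len W m g) : Len W' m (φ g) := by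
  obtain ⟨l, h1, h2, h3⟩ := hg
  refine ⟨l.map φ, by simpa using h1, ?_, by rw [← map_list_prod, h3]⟩
  intro x hx
  obtain ⟨y, hy, rfl⟩ := List.mem_map.1 hx
  exact hφ y (h2 y hy)

/-- conjugation of a product -/
theorem len_conj (u : Γ) (hu : ∀ x ∈ W, u * x * u⁻¹ ∈ W) {m : ℕ} {g : Γ} (hg : Len W m g) :
    Len W m (u * g * u⁻¹) := by
  have h := len_map (MulAut.conj u).toMonoidHom (W := W) (W' := W) (by simpa using hu) hg
  simpa using h

/-- a product of at most `m` elements each of which is a product of at most `n` elements -/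
theorem len_len {W' : Set Γ} {n : ℕ} (hW : ∀ x ∈ W, Len W' n x) {m : ℕ} {g : Γ}
    (hg : Len W m g) : Len W' (m * n) g := by
  obtain ⟨l, h1, h2, rfl⟩ := hg
  refine len_mono (Nat.mul_le_mul_right n h1) ?_
  clear h1
  induction l with
  | nil => exact len_one _
  | cons x l ih =>
    rw [List.prod_cons, List.length_cons, Nat.succ_mul, Nat.add_comm]
    exact len_mul (hW x (h2 x (by simp))) (ih fun y hy => h2 y (by simp [hy]))

/-- lists of length exactly `m` -/
theorem len_iff_fn (h1 : (1 : Γ) ∈ W) {m : ℕ} {g : Γ} :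
    Len W m g ↔ ∃ f : Fin m → Γ, (∀ i, f i ∈ W) ∧ (List.ofFn f).prod = g := by
  constructor
  · rintro ⟨l, h2, h3, rfl⟩
    refine ⟨fun i => l.getD i 1, fun i => ?_, ?_⟩
    · by_cases hi : (i : ℕ) < l.length
      · simp only [List.getD_eq_getElem?_getD, List.getElem?_eq_getElem hi, Option.getD_some]
        exact h3 _ (List.getElem_mem hi)
      · simp only [List.getD_eq_getElem?_getD]
        rw [List.getElem?_eq_none (by omega)]
        exact h1
    · obtain ⟨k, rfl⟩ := Nat.exists_eq_add_of_le h2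
      have e1 : (List.ofFn fun i : Fin (l.length + k) => l.getD i 1) = l ++ List.replicate k 1 := by
        apply List.ext_getElem
        · simp
        · intro n h4 h5
          by_cases h6 : n < l.length
          · simp [h6]
          · simp [List.getElem_append_right (Nat.not_lt.1 h6), List.getElem?_eq_none
              (Nat.not_lt.1 h6)]
      rw [e1]
      simp
  · rintro ⟨f, h2, h3⟩
    refine ⟨List.ofFn f, by simp, fun x hx => ?_, h3⟩
    obtain ⟨i, rfl⟩ := List.mem_ofFn.1 hx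
    exact h2 i

end len

end Pool.Agent.NekF
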