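import Pool.Agent.NekF.Levels

/-!
# NF-Chart: the level system of a finite group generated by 3-cycles at a point

PLAN. `P = Subgroup.closure S` is finite, `S ⊆ P ≤ full G`. Let `I = {c : X // ∃ u ∈ P, u x = c}`, a
finite type; for `c : I` choose `r c ∈ P` with `r c x = c`, and let `Q = {v ∈ P | v x = x}` (finite).
The following conditions on `y` hold in a neighbourhood `U₁` of `x` which we may take clopen
(`eventually` for finitely many conditions, then a clopen neighbourhood contained in it: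
`compact_exists_isClopen_in_isOpen` or `(isTopologicalBasis_isClopen).mem_nhds_iff`):
 (i) `r c y ∈ D c`, where the `D c` are pairwise disjoint open sets with `c ∈ D c` (T2, finitely many
points: `Set.Finite.t2_separation` or `Finite.exists_...`; or for each pair `c ≠ c'` choose disjoint
open sets);
 (ii) for every `p ∈ S` and every `c`: `p (r c y) ≠ r c y ↔ p (c : X) ≠ c`
(`{z | p z ≠ z}` is clopen);
 (iii) for `v, v' ∈ Q`: `v (v' y) = v' (v y)` (hypothesis `hab`).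
`U = ⋂ v ∈ Q, v ⁻¹' U₁` is clopen, contains `x`, and is invariant under `Q` (`Q` is a group), and
`U ⊆ U₁`. So: `v u ∈ U ↔ u ∈ U` for `v ∈ Q`; the sets `r c '' U` are disjoint.
`K = {k | ∃ v ∈ Q, (∀ u ∈ U, k u = v u) ∧ ∀ u ∉ U, k u = u}`: a subgroup of `full G`
(`mem_full_of_local`), commutative by (iii), and every `v ∈ Q` gives such a `k` (`exists_glue` with
`f = v`, `g = 1`, `Y = U`).
For `p ∈ S` let `σ` be the permutation `c ↦ p c` of `I` (`p⁻¹` gives the inverse) and for `c : I` let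
`w.left c` be the element of `K` given by `v = (r c)⁻¹ * p * r (σ⁻¹ c) ∈ Q`; `w.right = σ`. Then for
`u ∈ U`: `p (r c u) = r (σ c) (w.left (σ c) u)`. If `σ c = c` then `p (c : X) = c`, so by (ii) `p` is
the identity on `r c '' U`, so `w.left c = 1`. `w ^ 3 = 1`: `σ ^ 3 = 1` and
`(w ^ 3).left c = w.left c * w.left (σ⁻¹ c) * w.left (σ⁻¹ (σ⁻¹ c))` is the element of `K` given by
`(r c)⁻¹ * p * p * p * r c = 1`. (Alternatively: compare both sides on the points of `U` using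
`p (r c u) = r (σ c) (w.left (σ c) u)` three times.)
-/

open Topology

namespace Pool.Agent.NekF

variable {X : Type} [TopologicalSpace X]

private theorem exists_base [CompactSpace X] [T2Space X] [TotallyDisconnectedSpace X]
    (P : Subgroup (X ≃ₜ X)) (hP : (P : Set (X ≃ₜ X)).Finite) (x : X) {N : Set X} (hN : N ∈ 𝓝 x) :
    ∃ U : Set X, IsClopen U ∧ x ∈ U ∧ U ⊆ N ∧ ∀ v ∈ P, v x = x → ∀ u, v u ∈ U ↔ u ∈ U := by
  obtain ⟨N', hN', hN'o, hxN'⟩ := mem_nhds_iff.1 hN
  obtain ⟨U₁, hU₁, hx, hU₁N⟩ := compact_exists_isClopen_in_isOpen hN'o hxN'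
  have key : ∀ v ∈ P, v x = x → ∀ u, u ∈ (⋂ v ∈ {v | v ∈ P ∧ v x = x}, (fun y => v y) ⁻¹' U₁) →
      v u ∈ (⋂ v ∈ {v | v ∈ P ∧ v x = x}, (fun y => v y) ⁻¹' U₁) := by
    intro v hv hvx u hu
    simp only [Set.mem_iInter, Set.mem_preimage] at hu ⊢
    rintro v' ⟨hv', hv'x⟩
    have h := hu (v' * v) ⟨P.mul_mem hv' hv, by rw [mul_app, hvx, hv'x]⟩
    rwa [mul_app] at h
  refine ⟨⋂ v ∈ {v | v ∈ P ∧ v x = x}, (fun y => v y) ⁻¹' U₁, ?_, ?_, ?_, ?_⟩
  · exact (hP.subset fun v hv => hv.1).isClopen_biInter fun v _ => hU₁.preimage v.continuous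
  · simp only [Set.mem_iInter, Set.mem_preimage]
    rintro v ⟨-, hvx⟩
    rwa [hvx]
  · intro u hu
    simp only [Set.mem_iInter, Set.mem_preimage] at hu
    exact hN' (hU₁N (by simpa only [one_app] using hu 1 ⟨P.one_mem, one_app x⟩))
  · intro v hv hvx u
    refine ⟨fun h => ?_, key v hv hvx u⟩
    have h1 := key v⁻¹ (P.inv_mem hv) (by rw [inv_app_eq, hvx]) (v u) h
    rwa [inv_app_self] at h1

/-- the group of the chart -/
private def chK (P : Subgroup (X ≃ₜ X)) (x : X) (U : Set X)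
    (hU : ∀ v ∈ P, v x = x → ∀ u, v u ∈ U ↔ u ∈ U) : Subgroup (X ≃ₜ X) where
  carrier := {k | ∃ v ∈ P, v x = x ∧ (∀ u ∈ U, k u = v u) ∧ ∀ u, u ∉ U → k u = u}
  one_mem' := ⟨1, P.one_mem, rfl, fun _ _ => rfl, fun _ _ => rfl⟩
  mul_mem' := by
    rintro k k' ⟨v, hv, hvx, h1, h2⟩ ⟨v', hv', hvx', h1', h2'⟩
    refine ⟨v * v', P.mul_mem hv hv', by rw [mul_app, hvx', hvx], fun u hu => ?_, fun u hu => ?_⟩
    · rw [mul_app, mul_app, h1' u hu, h1 _ ((hU v' hv' hvx' u).2 hu)]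
    · rw [mul_app, h2' u hu, h2 u hu]
  inv_mem' := by
    rintro k ⟨v, hv, hvx, h1, h2⟩
    have hvi : v⁻¹ x = x := by rw [inv_app_eq, hvx]
    refine ⟨v⁻¹, P.inv_mem hv, hvi, fun u hu => ?_, fun u hu => ?_⟩
    · rw [inv_app_eq, h1 _ ((hU v⁻¹ (P.inv_mem hv) hvi u).2 hu), app_inv_self]
    · rw [inv_app_eq, h2 u hu]

private theorem mem_chK {P : Subgroup (X ≃ₜ X)} {x : X} {U : Set X}
    {hU : ∀ v ∈ P, v x = x → ∀ u, v u ∈ U ↔ u ∈ U} {k : X ≃ₜ X} :
    k ∈ chK P x U hU ↔ ∃ v ∈ P, v x = x ∧ (∀ u ∈ U, k u = v u) ∧ ∀ u, u ∉ U → k u = u := Iff.rfl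

private theorem ev_clopen {A : Set X} (hA : IsClopen A) {f : X → X} (hf : Continuous f) (x : X) :
    ∀ᶠ y in 𝓝 x, (f y ∈ A ↔ f x ∈ A) := by
  by_cases h : f x ∈ A
  · filter_upwards [hf.continuousAt.preimage_mem_nhds (hA.isOpen.mem_nhds h)] with y hy
    exact ⟨fun _ => h, fun _ => hy⟩
  · filter_upwards [hf.continuousAt.preimage_mem_nhds (hA.compl.isOpen.mem_nhds h)] with y hy
    exact ⟨fun h' => absurd h' hy, fun h' => absurd h' h⟩

theorem exists_chart [CompactSpace X] [T2Space X] [TotallyDisconnectedSpace X]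
    {G : Subgroup (X ≃ₜ X)} {S : Set (X ≃ₜ X)} (hS : ∀ t ∈ S, Tri G t)
    [Finite (Subgroup.closure S)]
    (hab : ∀ f ∈ Subgroup.closure S, ∀ g ∈ Subgroup.closure S, ∀ x, f x = x → g x = x →
      ∀ᶠ y in 𝓝 x, f (g y) = g (f y)) (x : X) :
    ∃ (I : Type) (_ : Finite I) (L : LevelSys G I),
      (∃ c, ∃ u ∈ L.U, x = L.r c u) ∧
      (∀ c, L.r c ∈ Subgroup.closure S) ∧
      (∀ k ∈ L.K, ∃ v ∈ Subgroup.closure S, ∀ u ∈ L.U, k u = v u) ∧
      (∀ k k' : L.K, k * k' = k' * k) ∧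
      ∀ p ∈ S, ∃ w : Wr I L.K, Good w ∧
        ∀ c, ∀ u ∈ L.U, p (L.r c u) = L.r (w.right c) ((w.left (w.right c) : X ≃ₜ X) u) := by
  have hPfin : ((Subgroup.closure S : Subgroup (X ≃ₜ X)) : Set (X ≃ₜ X)).Finite :=
    Set.toFinite _
  have hPfull : Subgroup.closure S ≤ full G := (Subgroup.closure_le _).2 fun t ht => (hS t ht).1
  have hSP : ∀ p ∈ S, p ∈ Subgroup.closure S := fun p hp => Subgroup.subset_closure hp
  set P : Subgroup (X ≃ₜ X) := Subgroup.closure S with hPdef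
  clear_value P
  have hSfin : S.Finite := hPfin.subset hSP
  -- the orbit
  have horb : {c : X | ∃ u ∈ P, u x = c}.Finite := by
    refine (hPfin.image (fun u => u x)).subset ?_
    rintro c ⟨u, hu, rfl⟩
    exact ⟨u, hu, rfl⟩
  let I : Type := {c : X // ∃ u ∈ P, u x = c}
  have hI : Finite I := horb.to_subtype
  have hr : ∀ c : I, ∃ u ∈ P, u x = c := fun c => c.2
  choose r hrP hrx using hr
  -- the neighbourhood
  obtain ⟨D, hD, hDd⟩ := horb.t2_separation
  have e1 : ∀ᶠ y in 𝓝 x, ∀ c : I, r c y ∈ D c := by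
    rw [Filter.eventually_all]
    intro c
    have h1 : r c x ∈ D c := by rw [hrx]; exact (hD c).1
    exact (r c).continuous.continuousAt.preimage_mem_nhds ((hD c).2.mem_nhds h1)
  have e2 : ∀ᶠ y in 𝓝 x, ∀ p ∈ S, ∀ c : I, (p (r c y) ≠ r c y ↔ p (c : X) ≠ c) := by
    rw [Filter.eventually_all_finite hSfin]
    intro p hp
    rw [Filter.eventually_all]
    intro c
    filter_upwards [ev_clopen (hS p hp).2.2 (r c).continuous x] with y hy
    rw [hrx] at hy
    exact hy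
  have e3 : ∀ᶠ y in 𝓝 x, ∀ v ∈ (P : Set (X ≃ₜ X)), ∀ v' ∈ (P : Set (X ≃ₜ X)),
      v x = x → v' x = x → v (v' y) = v' (v y) := by
    rw [Filter.eventually_all_finite hPfin]
    intro v hv
    rw [Filter.eventually_all_finite hPfin]
    intro v' hv'
    by_cases h1 : v x = x
    · by_cases h2 : v' x = x
      · filter_upwards [hab v hv v' hv' x h1 h2] with y hy _ _
        exact hy
      · exact Filter.Eventually.of_forall fun y _ h => absurd h h2
    · exact Filter.Eventually.of_forall fun y h => absurd h h1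
  obtain ⟨U, hUc, hxU, hUN, hUinv⟩ := exists_base P hPfin x (Filter.inter_mem e1
    (Filter.inter_mem e2 e3))
  have c1 : ∀ y ∈ U, ∀ c : I, r c y ∈ D c := fun y hy => (hUN hy).1
  have c2 : ∀ y ∈ U, ∀ p ∈ S, ∀ c : I, (p (r c y) ≠ r c y ↔ p (c : X) ≠ c) :=
    fun y hy => (hUN hy).2.1
  have c3 : ∀ y ∈ U, ∀ v ∈ P, ∀ v' ∈ P, v x = x → v' x = x → v (v' y) = v' (v y) :=
    fun y hy => (hUN hy).2.2
  clear hUN e1 e2 e3
  have hKfull : chK P x U hUinv ≤ full G := by
    rintro k ⟨v, hv, hvx, h1, h2⟩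
    refine mem_full_of_local fun y => ?_
    by_cases hy : y ∈ U
    · refine ⟨v, hPfull hv, ?_⟩
      filter_upwards [hUc.isOpen.mem_nhds hy] with z hz
      exact h1 z hz
    · refine ⟨1, (full G).one_mem, ?_⟩
      filter_upwards [hUc.compl.isOpen.mem_nhds hy] with z hz
      exact h2 z hz
  have hexK : ∀ v ∈ P, v x = x → ∃ k ∈ chK P x U hUinv, (∀ u ∈ U, k u = v u) ∧
      ∀ u, u ∉ U → k u = u := by
    intro v hv hvx
    obtain ⟨F, -, h1, h2⟩ := exists_glue (hPfull hv) (full G).one_mem hUc (hUinv v hv hvx)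
      (fun _ => Iff.rfl)
    exact ⟨F, ⟨v, hv, hvx, h1, fun u hu => by rw [h2 u hu, one_app]⟩, h1,
      fun u hu => by rw [h2 u hu, one_app]⟩
  have hdisj : ∀ c c' : I, c ≠ c' → ∀ u ∈ U, ∀ u' ∈ U, r c u ≠ r c' u' := by
    intro c c' hcc u hu u' hu' h
    have h1 := hDd c.2 c'.2 (fun h => hcc (Subtype.ext h))
    exact Set.disjoint_left.1 h1 (c1 u hu c) (h ▸ c1 u' hu' c')
  let L : LevelSys G I :=
    { U := U
      r := r
      K := chK P x U hUinv
      clopen := hUc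
      r_mem := fun c => hPfull (hrP c)
      disj := hdisj
      K_le := hKfull
      K_supp := fun k hk y hy => by
        obtain ⟨v, -, -, -, h2⟩ := hk
        exact h2 y hy }
  refine ⟨I, hI, L, ⟨⟨x, 1, P.one_mem, rfl⟩, x, hxU,
    (hrx ⟨x, 1, P.one_mem, rfl⟩).symm⟩, hrP, ?_, ?_, ?_⟩
  · rintro k ⟨v, hv, -, h1, -⟩
    exact ⟨v, hv, h1⟩
  · rintro ⟨k, v, hv, hvx, h1, h2⟩ ⟨k', v', hv', hvx', h1', h2'⟩
    refine Subtype.ext (Homeomorph.ext fun y => ?_)
    change k (k' y) = k' (k y)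
    by_cases hy : y ∈ U
    · rw [h1' y hy, h1 y hy, h1 _ ((hUinv v' hv' hvx' y).2 hy), h1' _ ((hUinv v hv hvx y).2 hy)]
      exact c3 y hy v hv v' hv' hvx hvx'
    · rw [h2' y hy, h2 y hy, h2' y hy]
  · intro p hp
    have hpP : p ∈ P := hSP p hp
    have p3 : ∀ z, p (p (p z)) = z := cube_app (hS p hp).2.1
    -- the permutation
    let σ : Equiv.Perm I :=
      { toFun := fun c => ⟨p c, p * r c, P.mul_mem hpP (hrP c), by rw [mul_app, hrx]⟩
        invFun := fun c => ⟨p⁻¹ c, p⁻¹ * r c, P.mul_mem (P.inv_mem hpP) (hrP c), by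
          rw [mul_app, hrx]⟩
        left_inv := fun c => Subtype.ext (inv_app_self p c)
        right_inv := fun c => Subtype.ext (app_inv_self p c) }
    have hσ : ∀ c : I, ((σ c : I) : X) = p c := fun c => rfl
    have hσi : ∀ c : I, ((σ⁻¹ c : I) : X) = p⁻¹ c := fun c => rfl
    have sl : ∀ c : I, σ⁻¹ (σ c) = c := fun c => σ.symm_apply_apply c
    have sr : ∀ c : I, σ (σ⁻¹ c) = c := fun c => σ.apply_symm_apply c
    -- the elements of the stabiliser
    have hv : ∀ c : I, (r c)⁻¹ * p * r (σ⁻¹ c) ∈ P := fun c =>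
      P.mul_mem (P.mul_mem (P.inv_mem (hrP c)) hpP) (hrP _)
    have hvx : ∀ c : I, ((r c)⁻¹ * p * r (σ⁻¹ c)) x = x := fun c => by
      rw [mul_app, mul_app, hrx, hσi, app_inv_self, inv_app_eq, hrx]
    have hk : ∀ c : I, ∃ k ∈ chK P x U hUinv, (∀ u ∈ U, k u = ((r c)⁻¹ * p * r (σ⁻¹ c)) u) ∧
        ∀ u, u ∉ U → k u = u := fun c => hexK _ (hv c) (hvx c)
    choose k hkK hkU hkO using hk
    have hkUU : ∀ c : I, ∀ u ∈ U, k c u ∈ U := fun c u hu => by
      rw [hkU c u hu]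
      exact (hUinv _ (hv c) (hvx c) u).2 hu
    let w : Wr I L.K := ⟨fun c => ⟨k c, hkK c⟩, σ⟩
    have hwr : w.right = σ := rfl
    have hwl : ∀ c, ((w.left c : L.K) : X ≃ₜ X) = k c := fun c => rfl
    have main : ∀ c, ∀ u ∈ U, p (r c u) = r (σ c) (k (σ c) u) := by
      intro c u hu
      rw [hkU _ u hu, mul_app, mul_app, app_inv_self, sl]
    have ext1 : ∀ q : X ≃ₜ X, (∀ u ∈ U, q u = u) → (∀ u, u ∉ U → q u = u) → q = 1 := by
      intro q h1 h2
      refine Homeomorph.ext fun y => ?_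
      by_cases hy : y ∈ U
      · exact h1 y hy
      · exact h2 y hy
    refine ⟨w, ⟨?_, ?_⟩, fun c u hu => main c u hu⟩
    · refine SemidirectProduct.ext ?_ ?_
      · funext c
        rw [pow_succ, pow_two]
        refine Subtype.ext ?_
        change k c * k (σ⁻¹ c) * k ((σ * σ)⁻¹ c) = 1
        refine ext1 _ (fun u hu => ?_) (fun u hu => ?_)
        · rw [mul_app, mul_app]
          have h3 : (σ * σ)⁻¹ c = σ⁻¹ (σ⁻¹ c) := by rw [mul_inv_rev, Equiv.Perm.mul_apply]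
          rw [h3]
          have g1 := main (σ⁻¹ (σ⁻¹ (σ⁻¹ c))) u hu
          have g2 := main (σ⁻¹ (σ⁻¹ c)) _ (hkUU (σ⁻¹ (σ⁻¹ c)) u hu)
          have g3 := main (σ⁻¹ c) _ (hkUU (σ⁻¹ c) _ (hkUU (σ⁻¹ (σ⁻¹ c)) u hu))
          rw [sr] at g1 g2 g3
          have h4 : σ⁻¹ (σ⁻¹ (σ⁻¹ c)) = c := by
            refine Subtype.ext ?_
            rw [hσi, hσi, hσi, inv_app_eq, inv_app_eq, inv_app_eq, p3]
          rw [h4] at g1
          rw [← g1] at g2
          rw [← g2] at g3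
          rw [p3] at g3
          exact ((r c).injective g3).symm
        · rw [mul_app, mul_app, hkO _ u hu, hkO _ u hu, hkO _ u hu]
      · rw [pow_succ, pow_two]
        change σ * σ * σ = 1
        refine Equiv.ext fun c => Subtype.ext ?_
        change p (p (p c)) = c
        exact p3 _
    · intro c hc
      have hc' : σ c = c := hc
      have hpc : p (c : X) = c := by rw [← hσ, hc']
      refine Subtype.ext ?_
      change k c = 1
      refine ext1 _ (fun u hu => ?_) (hkO c)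
      have g1 := main c u hu
      rw [hc'] at g1
      have g2 : p (r c u) = r c u := by
        by_contra hne
        exact (c2 u hu p hp c).1 hne hpc
      rw [g2] at g1
      exact ((r c).injective g1).symm

end Pool.Agent.NekF
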