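import Pool.Agent.NekF.Basic

/-!
# NF-Cjl: an algebraic identity

PLAN. `prod_cjl` by induction on `L`: with `Q = (L.map Prod.fst).prod`,
`p.1 * p.2 * (Q * R) = (p.1 * Q) * ((Q⁻¹ * p.2 * Q) * R)` (`group`/`simp [mul_assoc]`).
`mem_cjl` by induction.
-/

namespace Pool.Agent.NekF

/-- the conjugates which occur when the second components are moved to the right -/
def cjl {Γ : Type} [Group Γ] : List (Γ × Γ) → List Γ
  | [] => []
  | p :: L => ((L.map Prod.fst).prod⁻¹ * p.2 * (L.map Prod.fst).prod) :: cjl L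

theorem prod_cjl {Γ : Type} [Group Γ] (L : List (Γ × Γ)) :
    (L.map fun p => p.1 * p.2).prod = (L.map Prod.fst).prod * (cjl L).prod := by
  induction L with
  | nil => simp [cjl]
  | cons p L ih =>
    rw [List.map_cons, List.prod_cons, ih, List.map_cons, List.prod_cons, cjl, List.prod_cons]
    generalize (L.map Prod.fst).prod = Q
    generalize (cjl L).prod = R
    group

theorem mem_cjl {Γ : Type} [Group Γ] {L : List (Γ × Γ)} {y : Γ} (hy : y ∈ cjl L) :
    ∃ p ∈ L, ∃ L' : List (Γ × Γ), L'.length ≤ L.length ∧ (∀ q ∈ L', q ∈ L) ∧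
      y = (L'.map Prod.fst).prod⁻¹ * p.2 * (L'.map Prod.fst).prod := by
  induction L with
  | nil => simp [cjl] at hy
  | cons p L ih =>
    rw [cjl, List.mem_cons] at hy
    rcases hy with rfl | hy
    · exact ⟨p, List.mem_cons_self, L, by simp, fun q hq => List.mem_cons_of_mem _ hq, rfl⟩
    · obtain ⟨p', hp', L', hL', hq', he⟩ := ih hy
      exact ⟨p', List.mem_cons_of_mem _ hp', L', hL'.trans (by simp),
        fun q hq => List.mem_cons_of_mem _ (hq' q hq), he⟩

end Pool.Agent.NekF
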