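import Pool.Agent.NekF.Levels

/-!
# NF-Comm: the commutator trick

PLAN for `comm_len`. Let `q = h * p * h⁻¹ * p⁻¹`. `p` maps `U` onto `U` and is the identity off `U`
(`p u ∈ U` for `u ∈ U`: else `p (p u) = p u`). For `x ∈ U`: `p⁻¹ x ∈ U`, `h⁻¹ (p⁻¹ x) ∉ U` (else
`h (h⁻¹ (p⁻¹ x)) = p⁻¹ x ∉ U`), so `p` fixes `h⁻¹ (p⁻¹ x)` and `q x = p⁻¹ x`. So `q` maps `U` onto `U`
and equals `p⁻¹` there. Hence `q * r * q⁻¹ = p⁻¹ * r * p` (check pointwise on `U` and off `U`; off `U`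
both are the identity since `r` is supported in `U`). So
`p⁻¹ * r * p * r⁻¹ = q * r * q⁻¹ * r⁻¹ = h * (p * h⁻¹ * p⁻¹) * ((r * p) * h * (r * p)⁻¹) *
(r * h⁻¹ * r⁻¹)` (`group`): a product of 4 elements of `cj H h` (with `u = 1, p, r * p, r`).
`len_cj_conj`: `cj H h` is invariant under conjugation by elements of `H`; use `len_conj`.
-/

open Topology

namespace Pool.Agent.NekF

open Pool.Agent.VW (Len)

variable {X : Type} [TopologicalSpace X]

theorem comm_len {H : Subgroup (X ≃ₜ X)} {h p r : X ≃ₜ X} {U : Set X} (hU : ∀ x ∈ U, h x ∉ U)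
    (hp : p ∈ H) (hr : r ∈ H) (hps : ∀ x, x ∉ U → p x = x) (hrs : ∀ x, x ∉ U → r x = x) :
    Len (cj H h) 4 (p⁻¹ * r * p * r⁻¹) := by
  have mapsU : ∀ k : X ≃ₜ X, (∀ x, x ∉ U → k x = x) → ∀ u ∈ U, k u ∈ U := by
    intro k hk u hu
    by_contra h1
    have h2 : k u = u := k.injective (hk _ h1)
    rw [h2] at h1
    exact h1 hu
  have hpiU : ∀ u ∈ U, p⁻¹ u ∈ U := by
    intro u hu
    by_contra h1
    have h2 := hps _ h1
    rw [app_inv_self] at h2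
    rw [← h2] at h1
    exact h1 hu
  set q : X ≃ₜ X := h * p * h⁻¹ * p⁻¹ with hq
  have q_in : ∀ x ∈ U, q x = p⁻¹ x := by
    intro x hx
    have h1 : h⁻¹ (p⁻¹ x) ∉ U := by
      intro h2
      have h3 := hU _ h2
      rw [app_inv_self] at h3
      exact h3 (hpiU x hx)
    show h (p (h⁻¹ (p⁻¹ x))) = p⁻¹ x
    rw [hps _ h1, app_inv_self]
  have key : q * r * q⁻¹ = p⁻¹ * r * p := by
    ext x
    show q (r (q⁻¹ x)) = p⁻¹ (r (p x))
    obtain ⟨z, rfl⟩ : ∃ z, x = q z := ⟨q⁻¹ x, (app_inv_self q x).symm⟩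
    rw [inv_app_self]
    by_cases hz : z ∈ U
    · rw [q_in z hz, app_inv_self, q_in _ (mapsU r hrs z hz)]
    · have h1 : p (q z) ∉ U := by
        intro h2
        have h3 := hpiU _ h2
        rw [inv_app_self] at h3
        have h4 : q (p (q z)) = q z := by rw [q_in _ h2, inv_app_self]
        have h5 : p (q z) = z := q.injective h4
        rw [h5] at h2
        exact hz h2
      rw [hrs z hz, hrs _ h1, inv_app_self]
  have e : p⁻¹ * r * p * r⁻¹ = (1 * h * 1⁻¹) * (p * h⁻¹ * p⁻¹) * ((r * p) * h * (r * p)⁻¹) *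
      (r * h⁻¹ * r⁻¹) := by
    rw [← key, hq]
    group
  rw [e]
  refine len_mul (m := 1 + 1 + 1) (n := 1) (len_mul (m := 1 + 1) (n := 1)
    (len_mul (m := 1) (n := 1) (len_of_mem ?_) (len_of_mem ?_)) (len_of_mem ?_)) (len_of_mem ?_)
  · exact ⟨1, H.one_mem, Or.inl rfl⟩
  · exact ⟨p, hp, Or.inr rfl⟩
  · exact ⟨r * p, H.mul_mem hr hp, Or.inl rfl⟩
  · exact ⟨r, hr, Or.inr rfl⟩

theorem len_cj_conj {H : Subgroup (X ≃ₜ X)} {h u : X ≃ₜ X} (hu : u ∈ H) {m : ℕ} {g : X ≃ₜ X}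
    (hg : Len (cj H h) m g) : Len (cj H h) m (u * g * u⁻¹) := by
  refine len_conj u ?_ hg
  rintro x ⟨v, hv, rfl | rfl⟩
  · exact ⟨u * v, H.mul_mem hu hv, Or.inl (by group)⟩
  · exact ⟨u * v, H.mul_mem hu hv, Or.inr (by group)⟩

end Pool.Agent.NekF
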