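import Mathlib
import Pool.Agent.VW.Defs

/-!
Definitions for the verbal width of Nekrashevych's simple groups of intermediate growth
(MP_bcef47_al): alternating full groups of fragmentations of minimal dihedral actions.
-/

open Topology

namespace Pool.Agent.NekF

section defs

variable {X : Type} [TopologicalSpace X]

/-- The group `H` of homeomorphisms is a fragmentation of the homeomorphism `a`: every element of
`H` maps every point `x` to `x` or to `a x`, and for every `x` some element of `H` maps `x` to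
`a x`. -/
def Fragmentation (H : Subgroup (X ≃ₜ X)) (a : X ≃ₜ X) : Prop :=
  (∀ h ∈ H, ∀ x, h x = x ∨ h x = a x) ∧ ∀ x, ∃ h ∈ H, h x = a x

/-- The group generated by the involutions `a`, `b` acts minimally: a nonempty closed set which is
mapped into itself by `a` and by `b` is the whole space. -/
def Minimal (a b : X ≃ₜ X) : Prop :=
  ∀ S : Set X, IsClosed S → S.Nonempty → (∀ x ∈ S, a x ∈ S ∧ b x ∈ S) → S = Set.univ

/-- The full group of `G`: the homeomorphisms which coincide, near every point, with an element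
of `G`. -/
def full (G : Subgroup (X ≃ₜ X)) : Subgroup (X ≃ₜ X) where
  carrier := {f | ∀ x, ∃ g ∈ G, ∀ᶠ y in 𝓝 x, f y = g y}
  one_mem' := fun _ => ⟨1, G.one_mem, Filter.Eventually.of_forall fun _ => rfl⟩
  mul_mem' := by
    intro f g hf hg x
    obtain ⟨u, hu, hu'⟩ := hg x
    obtain ⟨v, hv, hv'⟩ := hf (g x)
    refine ⟨v * u, G.mul_mem hv hu, ?_⟩
    have h := g.continuous.continuousAt.eventually hv'
    filter_upwards [hu', h] with y h1 h2
    change f (g y) = v (u y)
    rw [h2, h1]
  inv_mem' := by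
    intro f hf x
    obtain ⟨u, hu, hu'⟩ := hf (f⁻¹ x)
    refine ⟨u⁻¹, G.inv_mem hu, ?_⟩
    have h := (f⁻¹).continuous.continuousAt.eventually hu'
    filter_upwards [h] with y h1
    have h2 : f (f⁻¹ y) = y := f.apply_symm_apply y
    have h3 : u (f⁻¹ y) = y := by rw [← h1, h2]
    calc f⁻¹ y = u⁻¹ (u (f⁻¹ y)) := (u.symm_apply_apply _).symm
      _ = u⁻¹ y := by rw [h3]

/-- `t` is a 3-cycle: `t ^ 3 = 1` and there is a clopen set `U` such that `U`, `t U`, `t ^ 2 U` are
pairwise disjoint and `t` is the identity outside of their union. -/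
def IsThreeCycle (t : X ≃ₜ X) : Prop :=
  t ^ 3 = 1 ∧ ∃ U : Set X, IsClopen U ∧ Disjoint U (t '' U) ∧ Disjoint U (t '' (t '' U)) ∧
    Disjoint (t '' U) (t '' (t '' U)) ∧ ∀ x, x ∉ U ∪ t '' U ∪ t '' (t '' U) → t x = x

/-- The alternating full group of `G`: the group generated by the 3-cycles of the full group. -/
def alt (G : Subgroup (X ≃ₜ X)) : Subgroup (X ≃ₜ X) :=
  Subgroup.closure {t | t ∈ full G ∧ IsThreeCycle t}

/-- elements of the full group of cube 1 with clopen support (these are the 3-cycles) -/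
def Tri (G : Subgroup (X ≃ₜ X)) (t : X ≃ₜ X) : Prop :=
  t ∈ full G ∧ t ^ 3 = 1 ∧ IsClopen {x | t x ≠ x}

/-- the conjugates of `h` and of its inverse by the elements of `H` -/
def cj (H : Subgroup (X ≃ₜ X)) (h : X ≃ₜ X) : Set (X ≃ₜ X) :=
  {x | ∃ u ∈ H, x = u * h * u⁻¹ ∨ x = u * h⁻¹ * u⁻¹}

end defs

/-- the elements of the dihedral group generated by the involutions `a`, `b`:
`d 0 = 1`, `d 1 = a`, `d 2 = b a`, `d 3 = a b a`, ..., `d (-1) = b`, `d (-2) = a b`, ... -/
def d {Γ : Type} [Group Γ] (a b : Γ) (k : ℤ) : Γ :=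
  if Even k then (b * a) ^ (k / 2) else a * (b * a) ^ (k / 2)

/-- `f` has displacement at most `M` along the orbits of the dihedral group -/
def Disp {X : Type} [TopologicalSpace X] (a b : X ≃ₜ X) (M : ℕ) (f : X ≃ₜ X) : Prop :=
  ∀ x, ∃ k : ℤ, |k| ≤ M ∧ f x = d a b k x

/-- the wreath product of `K` with the symmetric group of `I`: the product is
`(v, σ) (v', σ') = (c ↦ v c * v' (σ⁻¹ c), σ σ')` -/
abbrev Wr (I K : Type) [Group K] : Type := (I → K) ⋊[mulAutArrow] Equiv.Perm I

/-- good elements of the wreath product -/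
def Good {I K : Type} [Group K] (w : Wr I K) : Prop :=
  w ^ 3 = 1 ∧ ∀ c, w.right c = c → w.left c = 1

end Pool.Agent.NekF
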