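import Pool.Agent.NekF.Line

/-!
# NF-Disp: bounded displacement

PLAN. `disp_mul`: `g x = d k x`, `f (g x) = d j (g x) = d j (d k x) = d (k + s j) x` by `d_move`.
`disp_inv`: put `x = f⁻¹ y`, `y = f x = d k x`, hence `f⁻¹ y = x = (d k)⁻¹ y = d l y` with
`|l| = |k|` (`d_inv`). `disp_conj` follows from `disp_mul` and `disp_inv`.
`exists_disp`: first for `g ∈ A ⊔ B` by `Subgroup.closure_induction` (write
`A ⊔ B = closure (A ∪ B)`, `Subgroup.closure_union`/`Subgroup.sup_eq_closure`): elements of `A` and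
`B` have displacement at most 1 (`d 0 = 1`, `d 1 = a`, `d (-1) = b`), products and inverses by the
previous lemmas. For `f ∈ full (A ⊔ B)`: for every `x` there is `M` such that for all `y` near `x`
there is `k`, `|k| ≤ M`, `f y = d k y`; use compactness of `X`
(`isCompact_univ.induction_on` with the property of a set `s` that there is `M` working for all
`y ∈ s`).
`exists_mem_eq`: `x ↦ d k x` for `k` of the form: by induction on `k` in both directions
(`Int.induction_on`): `d (k + 1)` and `d (k - 1)` are `a * d k` and `b * d k` in some order (this is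
`d_mul_even`/`d_mul_odd` with `j = 1` and `j = -1`), and `a z = h z` for some `h ∈ A`, `b z = h z`
for some `h ∈ B`.
-/

open Topology

namespace Pool.Agent.NekF

variable {X : Type} [TopologicalSpace X] {a b : X ≃ₜ X}

theorem disp_one (M : ℕ) : Disp a b M 1 := by
  intro x
  refine ⟨0, by simp, ?_⟩
  rw [d_zero]

theorem disp_mono {M N : ℕ} (h : M ≤ N) {f : X ≃ₜ X} (hf : Disp a b M f) : Disp a b N f := by
  intro x
  obtain ⟨k, hk, hx⟩ := hf x
  exact ⟨k, hk.trans (by exact_mod_cast h), hx⟩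

theorem disp_mul (ha : a * a = 1) (hb : b * b = 1) {M N : ℕ} {f g : X ≃ₜ X}
    (hf : Disp a b M f) (hg : Disp a b N g) : Disp a b (M + N) (f * g) := by
  intro x
  obtain ⟨k, hk, hx⟩ := hg x
  obtain ⟨j, hj, hy⟩ := hf (g x)
  obtain ⟨s, hs, h1, -⟩ := d_move (X := X) ha hb k
  refine ⟨k + s * j, ?_, ?_⟩
  · have h2 : |s * j| = |j| := by
      rcases hs with rfl | rfl
      · rw [one_mul]
      · rw [neg_one_mul, abs_neg]
    have h3 := abs_add_le k (s * j)
    push_cast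
    omega
  · rw [mul_app, hy, hx, h1]

theorem disp_inv (ha : a * a = 1) (hb : b * b = 1) {M : ℕ} {f : X ≃ₜ X}
    (hf : Disp a b M f) : Disp a b M f⁻¹ := by
  intro y
  obtain ⟨k, hk, hx⟩ := hf (f⁻¹ y)
  obtain ⟨l, hl, h⟩ := d_inv ha hb k
  refine ⟨l, by rw [hl]; exact hk, ?_⟩
  rw [app_inv_self] at hx
  rw [← h]
  symm
  rw [inv_app_eq]
  exact hx

theorem disp_list (ha : a * a = 1) (hb : b * b = 1) {M : ℕ} (l : List (X ≃ₜ X))
    (h : ∀ f ∈ l, Disp a b M f) : Disp a b (l.length * M) l.prod := by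
  induction l with
  | nil => exact disp_one _
  | cons f l ih =>
    have h1 : Disp a b M f := h f (List.mem_cons_self ..)
    have h2 : Disp a b (l.length * M) l.prod := ih fun g hg => h g (List.mem_cons_of_mem _ hg)
    rw [List.prod_cons, List.length_cons]
    exact disp_mono (le_of_eq (by ring)) (disp_mul ha hb h1 h2)

private theorem disp_one_of {h : X ≃ₜ X} {c : X ≃ₜ X} {k : ℤ} (hk : |k| ≤ 1) (hc : d a b k = c)
    (hh : ∀ x, h x = x ∨ h x = c x) : Disp a b 1 h := by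
  intro x
  rcases hh x with h1 | h1
  · refine ⟨0, by simp, ?_⟩
    rw [d_zero, h1, one_app]
  · exact ⟨k, by exact_mod_cast hk, by rw [hc, h1]⟩

private theorem exists_disp_sup (ha : a * a = 1) (hb : b * b = 1)
    {A B : Subgroup (X ≃ₜ X)} (hA : Fragmentation A a) (hB : Fragmentation B b) {g : X ≃ₜ X}
    (hg : g ∈ A ⊔ B) : ∃ M, Disp a b M g := by
  rw [Subgroup.sup_eq_closure] at hg
  induction hg using Subgroup.closure_induction with
  | mem x hx =>
    rcases hx with hx | hx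
    · exact ⟨1, disp_one_of (k := 1) (by simp) d_one (hA.1 x hx)⟩
    · exact ⟨1, disp_one_of (k := -1) (by simp) (d_neg_one ha hb) (hB.1 x hx)⟩
  | one => exact ⟨0, disp_one 0⟩
  | mul x y _ _ hx hy =>
    obtain ⟨M, hM⟩ := hx
    obtain ⟨N, hN⟩ := hy
    exact ⟨M + N, disp_mul ha hb hM hN⟩
  | inv x _ hx =>
    obtain ⟨M, hM⟩ := hx
    exact ⟨M, disp_inv ha hb hM⟩

theorem exists_disp [CompactSpace X] (ha : a * a = 1) (hb : b * b = 1)
    {A B : Subgroup (X ≃ₜ X)} (hA : Fragmentation A a) (hB : Fragmentation B b) {f : X ≃ₜ X}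
    (hf : f ∈ full (A ⊔ B)) : ∃ M, Disp a b M f := by
  have key : ∃ M : ℕ, ∀ y ∈ (Set.univ : Set X), ∃ k : ℤ, |k| ≤ M ∧ f y = d a b k y := by
    refine isCompact_univ.induction_on
      (p := fun s => ∃ M : ℕ, ∀ y ∈ s, ∃ k : ℤ, |k| ≤ M ∧ f y = d a b k y) ?_ ?_ ?_ ?_
    · exact ⟨0, fun y hy => absurd hy (Set.notMem_empty y)⟩
    · intro s t hst ht
      obtain ⟨M, hM⟩ := ht
      exact ⟨M, fun y hy => hM y (hst hy)⟩
    · intro s t hs ht
      obtain ⟨M, hM⟩ := hs
      obtain ⟨N, hN⟩ := ht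
      refine ⟨max M N, fun y hy => ?_⟩
      rcases hy with hy | hy
      · obtain ⟨k, hk, h⟩ := hM y hy
        exact ⟨k, hk.trans (by exact_mod_cast le_max_left M N), h⟩
      · obtain ⟨k, hk, h⟩ := hN y hy
        exact ⟨k, hk.trans (by exact_mod_cast le_max_right M N), h⟩
    · intro x _
      obtain ⟨g, hg, h⟩ := hf x
      obtain ⟨M, hM⟩ := exists_disp_sup ha hb hA hB hg
      refine ⟨{y | f y = g y}, mem_nhdsWithin_of_mem_nhds h, M, fun y hy => ?_⟩
      obtain ⟨k, hk, h'⟩ := hM y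
      have hy' : f y = g y := hy
      exact ⟨k, hk, by rw [hy', h']⟩
  obtain ⟨M, hM⟩ := key
  exact ⟨M, fun x => hM x (Set.mem_univ x)⟩

theorem exists_mem_eq (ha : a * a = 1) (hb : b * b = 1)
    {A B : Subgroup (X ≃ₜ X)} (hA : Fragmentation A a) (hB : Fragmentation B b) (k : ℤ) (x : X) :
    ∃ g ∈ A ⊔ B, g x = d a b k x := by
  have stepA : ∀ g ∈ A ⊔ B, ∃ g' ∈ A ⊔ B, g' x = a (g x) := by
    intro g hg
    obtain ⟨h, hh, hx⟩ := hA.2 (g x)
    exact ⟨h * g, (A ⊔ B).mul_mem (Subgroup.mem_sup_left hh) hg, by rw [mul_app, hx]⟩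
  have stepB : ∀ g ∈ A ⊔ B, ∃ g' ∈ A ⊔ B, g' x = b (g x) := by
    intro g hg
    obtain ⟨h, hh, hx⟩ := hB.2 (g x)
    exact ⟨h * g, (A ⊔ B).mul_mem (Subgroup.mem_sup_right hh) hg, by rw [mul_app, hx]⟩
  induction k using Int.induction_on with
  | zero => exact ⟨1, (A ⊔ B).one_mem, by rw [d_zero]⟩
  | succ i ih =>
    obtain ⟨g, hg, hx⟩ := ih
    by_cases hi : Even (i : ℤ)
    · obtain ⟨g', hg', h⟩ := stepA g hg
      refine ⟨g', hg', ?_⟩
      rw [h, hx, ← d_mul_even ha hb hi 1, mul_app, d_one]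
    · obtain ⟨g', hg', h⟩ := stepB g hg
      refine ⟨g', hg', ?_⟩
      have e : (i : ℤ) + 1 = i - (-1) := by ring
      rw [h, hx, e, ← d_mul_odd ha hb hi (-1), mul_app, d_neg_one ha hb]
  | pred i ih =>
    obtain ⟨g, hg, hx⟩ := ih
    by_cases hi : Even (-(i : ℤ))
    · obtain ⟨g', hg', h⟩ := stepB g hg
      refine ⟨g', hg', ?_⟩
      have e : -(i : ℤ) - 1 = -(i : ℤ) + (-1) := by ring
      rw [h, hx, e, ← d_mul_even ha hb hi (-1), mul_app, d_neg_one ha hb]
    · obtain ⟨g', hg', h⟩ := stepA g hg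
      refine ⟨g', hg', ?_⟩
      rw [h, hx, ← d_mul_odd ha hb hi 1, mul_app, d_one]

end Pool.Agent.NekF
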