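import Pool.Agent.NekF.Basic

/-!
# NF-FD: fundamental domains of 3-cycles

PLAN for `exists_fd`. If `t x ≠ x` then `x`, `t x`, `t (t x)` are pairwise distinct (use
`cube_app`), and then the point `x` has a clopen neighbourhood `O x` contained in
`{x | t x ≠ x}` such that `y ∈ O x → t y ∉ O x` and `y ∈ O x → t (t y) ∉ O x`: separate `x` from
`t x` and from `t (t x)` by clopen sets `P` (`x ∈ P`, `t x ∉ P`, `t (t x) ∉ P`; clopen sets are a
basis: `compact_exists_isClopen_in_isOpen` or `isTopologicalBasis_isClopen`) and take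
`O = P ∩ {y | t y ∉ P} ∩ {y | t (t y) ∉ P} ∩ {x | t x ≠ x}`.
The support `{x | t x ≠ x}` is compact, so it is covered by finitely many `O`'s (or use
`IsCompact.induction_on` / `IsCompact.elim_nhds_subcover`). Let us say that a clopen set `V` is
a partial domain if `x ∈ V → t x ∉ V`, `x ∈ V → t (t x) ∉ V`, `V ⊆ supp`. Given a partial domain
`V` and `O` as above put `V' = V ∪ {y ∈ O | y ∉ V ∧ t y ∉ V ∧ t (t y) ∉ V}`: it is again a partial
domain, it is clopen, and its saturation (`x ∈ V' ∨ t x ∈ V' ∨ t (t x) ∈ V'`) contains the one of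
`V` and contains `O`. Induct over the finite cover (e.g. `Finset.induction_on` with the statement:
for every finset `s` of points there is a partial domain whose saturation contains
`⋃ x ∈ s, O x`). At the end the saturation is the whole support.

`tri_iff`: from the left to the right the support is `U ∪ t '' U ∪ t '' (t '' U)` (points of `U` are
moved because `U` and `t '' U` are disjoint, etc.), which is clopen since `t` is a homeomorphism
(`Homeomorph.isClopen_image`-type lemmas or `t.isOpenMap`/`t.isClosedMap`). From the right to the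
left use `exists_fd` (`x ∈ t '' V ↔ t (t x) ∈ V` and `x ∈ t '' (t '' V) ↔ t x ∈ V` by `cube_app`).
-/

open Topology

namespace Pool.Agent.NekF

variable {X : Type} [TopologicalSpace X]

private theorem exists_small [CompactSpace X] [T2Space X] [TotallyDisconnectedSpace X] {t : X ≃ₜ X}
    (h3 : t ^ 3 = 1) (x : X) (hx : t x ≠ x) :
    ∃ O : Set X, IsClopen O ∧ x ∈ O ∧ (∀ y ∈ O, t y ∉ O) ∧ ∀ y ∈ O, t (t y) ∉ O := by
  have hx2 : t (t x) ≠ x := by
    intro h
    have h1 := cube_app h3 x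
    rw [h] at h1
    exact hx h1
  have hopen : IsOpen ({t x, t (t x)}ᶜ : Set X) :=
    (Set.Finite.isClosed (Set.toFinite _)).isOpen_compl
  have hmem : x ∈ ({t x, t (t x)}ᶜ : Set X) := by
    intro h
    rcases h with h | h
    · exact hx h.symm
    · exact hx2 h.symm
  obtain ⟨P, hP, hxP, hPs⟩ := compact_exists_isClopen_in_isOpen hopen hmem
  have h1 : t x ∉ P := fun h => hPs h (Or.inl rfl)
  have h2 : t (t x) ∉ P := fun h => hPs h (Or.inr rfl)
  refine ⟨P ∩ (t ⁻¹' P)ᶜ ∩ ((fun y => t (t y)) ⁻¹' P)ᶜ, ?_, ⟨⟨hxP, h1⟩, h2⟩, ?_, ?_⟩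
  · exact (hP.inter (hP.preimage t.continuous).compl).inter
      (hP.preimage (t.continuous.comp t.continuous)).compl
  · rintro y ⟨⟨_, hy1⟩, _⟩ ⟨⟨hy3, _⟩, _⟩
    exact hy1 hy3
  · rintro y ⟨⟨_, _⟩, hy2⟩ ⟨⟨hy3, _⟩, _⟩
    exact hy2 hy3

theorem exists_fd [CompactSpace X] [T2Space X] [TotallyDisconnectedSpace X] {t : X ≃ₜ X}
    (h3 : t ^ 3 = 1) (hc : IsClopen {x | t x ≠ x}) :
    ∃ V : Set X, IsClopen V ∧ (∀ x ∈ V, t x ∉ V) ∧ (∀ x ∈ V, t (t x) ∉ V) ∧
      ∀ x, t x ≠ x ↔ (x ∈ V ∨ t x ∈ V ∨ t (t x) ∈ V) := by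
  have hO : ∀ x : X, ∃ O : Set X, t x ≠ x → IsClopen O ∧ x ∈ O ∧ (∀ y ∈ O, t y ∉ O) ∧
      ∀ y ∈ O, t (t y) ∉ O := by
    intro x
    by_cases hx : t x ≠ x
    · obtain ⟨O, h⟩ := exists_small h3 x hx
      exact ⟨O, fun _ => h⟩
    · exact ⟨Set.univ, fun h => absurd h hx⟩
  choose O hO using hO
  have hK : IsCompact {x | t x ≠ x} := hc.1.isCompact
  obtain ⟨s, hs, hcov⟩ := hK.elim_nhds_subcover O
    (fun x hx => (hO x hx).1.2.mem_nhds (hO x hx).2.1)
  have key : ∀ s : Finset X, (∀ x ∈ s, t x ≠ x) → ∃ V : Set X, IsClopen V ∧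
      (∀ x ∈ V, t x ∉ V) ∧ (∀ x ∈ V, t (t x) ∉ V) ∧
      ∀ x ∈ s, ∀ y ∈ O x, y ∈ V ∨ t y ∈ V ∨ t (t y) ∈ V := by
    classical
    intro s
    induction s using Finset.induction_on with
    | empty =>
      intro _
      refine ⟨∅, isClopen_empty, fun x hx => absurd hx (Set.notMem_empty x),
        fun x hx => absurd hx (Set.notMem_empty x), ?_⟩
      intro x hx
      exact absurd hx (Finset.notMem_empty x)
    | insert a s _ ih =>
      intro hs
      obtain ⟨V, h1, h2, h4, h5⟩ := ih (fun x hx => hs x (Finset.mem_insert_of_mem hx))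
      obtain ⟨a1, a2, a4, a5⟩ := hO a (hs a (Finset.mem_insert_self a s))
      refine ⟨V ∪ (O a ∩ (Vᶜ ∩ (t ⁻¹' V)ᶜ ∩ ((fun y => t (t y)) ⁻¹' V)ᶜ)), ?_, ?_, ?_, ?_⟩
      · exact h1.union (a1.inter ((h1.compl.inter (h1.preimage t.continuous).compl).inter
          (h1.preimage (t.continuous.comp t.continuous)).compl))
      · rintro x (hx | ⟨hx, ⟨hx1, hx2⟩, hx3⟩) (hy | ⟨hy, ⟨hy1, hy2⟩, hy3⟩)
        · exact h2 x hx hy
        · apply hy3
          change t (t (t x)) ∈ V
          rw [cube_app h3]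
          exact hx
        · exact hx2 hy
        · exact a4 x hx hy
      · rintro x (hx | ⟨hx, ⟨hx1, hx2⟩, hx3⟩) (hy | ⟨hy, ⟨hy1, hy2⟩, hy3⟩)
        · exact h4 x hx hy
        · apply hy2
          change t (t (t x)) ∈ V
          rw [cube_app h3]
          exact hx
        · exact hx3 hy
        · exact a5 x hx hy
      · intro x hx y hy
        rcases Finset.mem_insert.1 hx with rfl | hx
        · by_cases e1 : y ∈ V
          · exact Or.inl (Or.inl e1)
          by_cases e2 : t y ∈ V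
          · exact Or.inr (Or.inl (Or.inl e2))
          by_cases e3 : t (t y) ∈ V
          · exact Or.inr (Or.inr (Or.inl e3))
          exact Or.inl (Or.inr ⟨hy, ⟨e1, e2⟩, e3⟩)
        · rcases h5 x hx y hy with h | h | h
          · exact Or.inl (Or.inl h)
          · exact Or.inr (Or.inl (Or.inl h))
          · exact Or.inr (Or.inr (Or.inl h))
  obtain ⟨V, h1, h2, h4, h5⟩ := key s hs
  refine ⟨V, h1, h2, h4, ?_⟩
  intro x
  constructor
  · intro hx
    obtain ⟨z, hz, hxz⟩ := Set.mem_iUnion₂.1 (hcov hx)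
    exact h5 z hz x hxz
  · rintro (h | h | h) e
    · exact h2 x h (by rw [e]; exact h)
    · rw [e] at h
      exact h2 x h (by rw [e]; exact h)
    · rw [e, e] at h
      exact h2 x h (by rw [e]; exact h)

theorem tri_iff [CompactSpace X] [T2Space X] [TotallyDisconnectedSpace X]
    (G : Subgroup (X ≃ₜ X)) (t : X ≃ₜ X) : (t ∈ full G ∧ IsThreeCycle t) ↔ Tri G t := by
  constructor
  · rintro ⟨hf, h3, U, hU, d1, d2, d3, hfix⟩
    refine ⟨hf, h3, ?_⟩
    have hsub : {x | t x ≠ x} = U ∪ t '' U ∪ t '' (t '' U) := by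
      ext x
      constructor
      · intro hx
        by_contra h
        exact hx (hfix x h)
      · rintro ((h | h) | h) e
        · exact Set.disjoint_left.1 d1 h ⟨x, h, e⟩
        · obtain ⟨u, hu, rfl⟩ := h
          have e1 : t u = u := t.injective e
          exact Set.disjoint_left.1 d1 hu ⟨u, hu, e1⟩
        · obtain ⟨_, ⟨u, hu, rfl⟩, rfl⟩ := h
          have e1 : t u = u := t.injective (t.injective e)
          exact Set.disjoint_left.1 d1 hu ⟨u, hu, e1⟩
    rw [hsub]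
    have hU1 : IsClopen (t '' U) := ⟨t.isClosedMap _ hU.1, t.isOpenMap _ hU.2⟩
    have hU2 : IsClopen (t '' (t '' U)) := ⟨t.isClosedMap _ hU1.1, t.isOpenMap _ hU1.2⟩
    exact (hU.union hU1).union hU2
  · rintro ⟨hf, h3, hc⟩
    obtain ⟨V, hV, h1, h2, h4⟩ := exists_fd h3 hc
    refine ⟨hf, h3, V, hV, ?_, ?_, ?_, ?_⟩
    · rw [Set.disjoint_left]
      rintro x hx ⟨v, hv, rfl⟩
      exact h1 v hv hx
    · rw [Set.disjoint_left]
      rintro x hx ⟨_, ⟨v, hv, rfl⟩, rfl⟩
      exact h2 v hv hx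
    · rw [Set.disjoint_left]
      rintro x ⟨v, hv, rfl⟩ ⟨_, ⟨w, hw, rfl⟩, e⟩
      have e1 : t w = v := t.injective e
      exact h1 w hw (by rw [e1]; exact hv)
    · intro x hx
      by_contra hne
      rcases (h4 x).1 hne with h | h | h
      · exact hx (Or.inl (Or.inl h))
      · exact hx (Or.inr ⟨t (t x), ⟨t x, h, rfl⟩, cube_app h3 x⟩)
      · exact hx (Or.inl (Or.inr ⟨t (t x), h, cube_app h3 x⟩))

theorem alt_eq [CompactSpace X] [T2Space X] [TotallyDisconnectedSpace X]
    (G : Subgroup (X ≃ₜ X)) : alt G = Subgroup.closure {t | Tri G t} := by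
  have h : {t : X ≃ₜ X | t ∈ full G ∧ IsThreeCycle t} = {t | Tri G t} := by
    ext t
    exact tri_iff G t
  rw [alt, h]

theorem tri_mem_alt [CompactSpace X] [T2Space X] [TotallyDisconnectedSpace X]
    {G : Subgroup (X ≃ₜ X)} {t : X ≃ₜ X} (h : Tri G t) : t ∈ alt G := by
  rw [alt_eq]
  exact Subgroup.subset_closure h

end Pool.Agent.NekF
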