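import Pool.Agent.NekF.Line

/-!
# NF-Fin: a finitely generated group of homeomorphisms with bounded displacement is finite

PLAN. Let `P = Subgroup.closure S`, `L = 2 * N + 1`. For `x : X` the orbit `{u x | u ∈ P}` is
contained in `{d k x | |k| ≤ N}`, so it has at most `L` points: choose an injection `j` of the orbit
into `Fin L`. `P` acts on the orbit, so we get a homomorphism `ρ x : P →* Equiv.Perm (Fin L)`
(`MulAction.toPermHom P (MulAction.orbit P x)` followed by `Equiv.Perm.viaEmbeddingHom j`, where
`j : orbit ↪ Fin L`; the action of `P` on `X` is the one of homeomorphisms: define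
`MulAction P X` with `smul u x = (u : X ≃ₜ X) x`, or use the map `P → Equiv.Perm X` and
`MulAction.compHom`), with: `ρ x u = 1` implies `u x = x` (`viaEmbeddingHom` is injective).
The set of homomorphisms `P →* Equiv.Perm (Fin L)` is finite: a homomorphism is determined by its
values on the finite generating set `S`
(the map `φ ↦ (fun s : S => φ ⟨s, _⟩)` into the finite type `S → Equiv.Perm (Fin L)` is injective,
`MonoidHom.eq_of_eqOn_dense` / `Subgroup.closure_induction`).
Then the map `P → ((P →* Equiv.Perm (Fin L)) → Equiv.Perm (Fin L))`, `u ↦ (φ ↦ φ u)` is injective: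
if `φ u = φ u'` for all `φ` then `ρ x (u⁻¹ * u') = 1`, so `u⁻¹ (u' x) = x` for all `x`. The target
is finite, so `P` is finite (`Finite.of_injective`).
-/

open Topology

namespace Pool.Agent.NekF

variable {X : Type} [TopologicalSpace X] {a b : X ≃ₜ X}

theorem finite_closure {S : Set (X ≃ₜ X)} (hS : S.Finite) {N : ℕ}
    (h : ∀ u ∈ Subgroup.closure S, Disp a b N u) : Finite (Subgroup.closure S) := by
  classical
  haveI : Finite S := hS.to_subtype
  let K : Type := ↥(Finset.Icc (-(N : ℤ)) N)
  haveI : Finite K := inferInstanceAs (Finite ↥(Finset.Icc (-(N : ℤ)) N))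
  let act : Subgroup.closure S →* Equiv.Perm X :=
    MonoidHom.mk' (fun u => (u : X ≃ₜ X).toEquiv) (fun u v => by ext x; rfl)
  haveI hfin : Finite (Subgroup.closure S →* Equiv.Perm K) := by
    refine Finite.of_injective (fun φ : Subgroup.closure S →* Equiv.Perm K => fun s : S =>
      φ ⟨s, Subgroup.subset_closure s.2⟩) ?_
    intro φ ψ hφ
    refine MonoidHom.eq_of_eqOn_dense (Subgroup.closure_closure_coe_preimage (k := S)) ?_
    intro u hu
    exact congrFun hφ ⟨u, hu⟩
  have key : ∀ x : X, ∃ φ : Subgroup.closure S →* Equiv.Perm K, ∀ u : Subgroup.closure S,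
      φ u = 1 → (u : X ≃ₜ X) x = x := by
    intro x
    letI : MulAction (Subgroup.closure S) X := MulAction.compHom X act
    have hex : ∀ y : MulAction.orbit (Subgroup.closure S) x,
        ∃ k : K, (y : X) = d a b (k : ℤ) x := by
      rintro ⟨y, u, rfl⟩
      obtain ⟨k, hk, hk'⟩ := h u u.2 x
      exact ⟨⟨k, Finset.mem_Icc.2 (abs_le.1 hk)⟩, hk'⟩
    choose k hk using hex
    let j : MulAction.orbit (Subgroup.closure S) x ↪ K :=
      ⟨k, fun y z hyz => Subtype.ext (by rw [hk y, hk z, hyz])⟩
    refine ⟨(Equiv.Perm.viaEmbeddingHom j).comp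
      (MulAction.toPermHom (Subgroup.closure S) (MulAction.orbit (Subgroup.closure S) x)),
      fun u hu => ?_⟩
    have h1 : MulAction.toPermHom (Subgroup.closure S)
        (MulAction.orbit (Subgroup.closure S) x) u = 1 :=
      Equiv.Perm.viaEmbeddingHom_injective j (by rw [map_one]; exact hu)
    have h2 := congrArg (fun σ : Equiv.Perm (MulAction.orbit (Subgroup.closure S) x) =>
      ((σ ⟨x, MulAction.mem_orbit_self x⟩ : MulAction.orbit (Subgroup.closure S) x) : X)) h1
    exact h2
  refine Finite.of_injective (fun u : Subgroup.closure S =>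
    fun φ : Subgroup.closure S →* Equiv.Perm K => φ u) ?_
  intro u v huv
  apply Subtype.ext
  ext x
  obtain ⟨φ, hφ⟩ := key x
  have h1 : φ (u⁻¹ * v) = 1 := by
    have h0 : φ u = φ v := congrFun huv φ
    rw [map_mul, map_inv, h0, inv_mul_cancel]
  have h2 : (u : X ≃ₜ X)⁻¹ ((v : X ≃ₜ X) x) = x := hφ _ h1
  have h3 : (u : X ≃ₜ X) ((u : X ≃ₜ X)⁻¹ ((v : X ≃ₜ X) x)) = (v : X ≃ₜ X) x :=
    (u : X ≃ₜ X).apply_symm_apply _
  rw [h2] at h3
  exact h3

end Pool.Agent.NekF
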