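import Pool.Agent.NekF.Local

/-!
# NF-Glob: a finite group generated by 3-cycles has 3-cycle width at most 20

PLAN. Let `P = Subgroup.closure S`. Call a set `s` good if there are a clopen set `Y ⊇ s`, invariant
under `P` (`u y ∈ Y ↔ y ∈ Y` for `u ∈ P`), and `T : Fin 20 → (X ≃ₜ X)`, all `Tri G`, with
`∀ i y, ∃ u ∈ P, T i y = u y` and `(List.ofFn T).prod y = g y` for `y ∈ Y`. `∅` is good (`Y = ∅`,
`T = 1`), subsets of good sets are good, every point has a good neighbourhood (`local_len`), and the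
union of two good sets is good: given `(Y, T)` and `(Y', T')`, each `T i` and `T' i` preserves `Y`
(because `T i y = u y` with `u ∈ P`); by `Tri.glue` let `T'' i` be equal to `T i` on `Y` and to
`T' i` off `Y`; then `T'' i` preserves `Y` and `Y'` (again `T'' i y ∈ P y`), and by induction on the
list the product of the `T'' i` is equal to the product of the `T i` on `Y` and to the one of the
`T' i` on `Y' \ Y` (prove by induction on `n` for functions `Fin n → (X ≃ₜ X)`, `List.ofFn_succ`, or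
for lists: if `Forall₂`-related homeomorphisms agree on an invariant set then so do their products).
So `Set.univ` is good (`IsCompact.induction_on isCompact_univ`), i.e. `g = (List.ofFn T).prod`; use
`len_iff_fn`.
-/

open Topology

namespace Pool.Agent.NekF

open Pool.Agent.VW (Len)

variable {X : Type} [TopologicalSpace X]

private theorem prod_agree {Z : Set X} : ∀ (n : ℕ) (T T' : Fin n → (X ≃ₜ X)),
    (∀ i, ∀ y ∈ Z, T i y = T' i y) → (∀ i, ∀ y ∈ Z, T' i y ∈ Z) →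
    ∀ y ∈ Z, (List.ofFn T).prod y = (List.ofFn T').prod y ∧ (List.ofFn T').prod y ∈ Z := by
  intro n
  induction n with
  | zero =>
    intro T T' _ _ y hy
    rw [List.ofFn_zero, List.ofFn_zero]
    exact ⟨rfl, hy⟩
  | succ n ih =>
    intro T T' h1 h2 y hy
    rw [List.ofFn_succ, List.ofFn_succ, List.prod_cons, List.prod_cons, mul_app, mul_app]
    obtain ⟨h3, h4⟩ := ih (fun i => T i.succ) (fun i => T' i.succ) (fun i => h1 i.succ)
      (fun i => h2 i.succ) y hy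
    rw [h3, h1 0 _ h4]
    exact ⟨rfl, h2 0 _ h4⟩

/-- good sets -/
private def GS (G : Subgroup (X ≃ₜ X)) (P : Subgroup (X ≃ₜ X)) (g : X ≃ₜ X) (s : Set X) : Prop :=
  ∃ Y : Set X, IsClopen Y ∧ s ⊆ Y ∧ (∀ u ∈ P, ∀ y, u y ∈ Y ↔ y ∈ Y) ∧
    ∃ T : Fin 20 → (X ≃ₜ X), (∀ i, Tri G (T i)) ∧ (∀ i y, ∃ u ∈ P, T i y = u y) ∧
      ∀ y ∈ Y, (List.ofFn T).prod y = g y

private theorem GS_union [CompactSpace X] [T2Space X] {G P : Subgroup (X ≃ₜ X)} {g : X ≃ₜ X}
    {s t : Set X} (hs : GS G P g s) (ht : GS G P g t) : GS G P g (s ∪ t) := by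
  obtain ⟨Y, hY, hsY, hPY, T, hT1, hT2, hT3⟩ := hs
  obtain ⟨Y', hY', hsY', hPY', T', hT1', hT2', hT3'⟩ := ht
  have inv1 : ∀ i x, T i x ∈ Y ↔ x ∈ Y := by
    intro i x
    obtain ⟨u, hu, h⟩ := hT2 i x
    rw [h]
    exact hPY u hu x
  have inv2 : ∀ i x, T' i x ∈ Y ↔ x ∈ Y := by
    intro i x
    obtain ⟨u, hu, h⟩ := hT2' i x
    rw [h]
    exact hPY u hu x
  have inv3 : ∀ i x, T' i x ∈ Y' ↔ x ∈ Y' := by
    intro i x
    obtain ⟨u, hu, h⟩ := hT2' i x
    rw [h]
    exact hPY' u hu x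
  have hgl : ∀ i, ∃ F, Tri G F ∧ (∀ x ∈ Y, F x = T i x) ∧ ∀ x, x ∉ Y → F x = T' i x :=
    fun i => Tri.glue (hT1 i) (hT1' i) hY (inv1 i) (inv2 i)
  choose F hF1 hF2 hF3 using hgl
  refine ⟨Y ∪ Y', hY.union hY', Set.union_subset_union hsY hsY', ?_, F, hF1, ?_, ?_⟩
  · intro u hu y
    rw [Set.mem_union, Set.mem_union, hPY u hu y, hPY' u hu y]
  · intro i y
    by_cases hy : y ∈ Y
    · rw [hF2 i y hy]
      exact hT2 i y
    · rw [hF3 i y hy]
      exact hT2' i y
  · intro y hy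
    by_cases hyY : y ∈ Y
    · have h := (prod_agree (Z := Y) 20 F T (fun i z hz => hF2 i z hz)
        (fun i z hz => (inv1 i z).mpr hz) y hyY).1
      rw [h]
      exact hT3 y hyY
    · have hyY' : y ∈ Y' := hy.resolve_left hyY
      have h := (prod_agree (Z := Y' ∩ Yᶜ) 20 F T' (fun i z hz => hF3 i z hz.2)
        (fun i z hz => ⟨(inv3 i z).mpr hz.1, fun h' => hz.2 ((inv2 i z).mp h')⟩) y
        ⟨hyY', hyY⟩).1
      rw [h]
      exact hT3' y hyY'

theorem tri_len [CompactSpace X] [T2Space X] [TotallyDisconnectedSpace X]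
    {G : Subgroup (X ≃ₜ X)} {S : Set (X ≃ₜ X)} (hS : ∀ t ∈ S, Tri G t)
    [Finite (Subgroup.closure S)]
    (hab : ∀ f ∈ Subgroup.closure S, ∀ g ∈ Subgroup.closure S, ∀ x, f x = x → g x = x →
      ∀ᶠ y in 𝓝 x, f (g y) = g (f y)) {g : X ≃ₜ X} (hg : g ∈ Subgroup.closure S) :
    Len {t | Tri G t} 20 g := by
  have h : GS G (Subgroup.closure S) g Set.univ := by
    refine isCompact_univ.induction_on (p := GS G (Subgroup.closure S) g) ?_ ?_ ?_ ?_
    · refine ⟨∅, isClopen_empty, subset_rfl, fun u _ y => Iff.rfl, fun _ => 1, fun _ => Tri.one,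
        fun _ y => ⟨1, Subgroup.one_mem _, rfl⟩, fun y hy => absurd hy (Set.notMem_empty y)⟩
    · rintro s t hst ⟨Y, hY, hsY, h⟩
      exact ⟨Y, hY, hst.trans hsY, h⟩
    · intro s t hs ht
      exact GS_union hs ht
    · intro x _
      obtain ⟨Y, hY, hxY, hPY, T, hT1, hT2, hT3⟩ := local_len hS hab hg x
      exact ⟨Y, mem_nhdsWithin_of_mem_nhds (hY.isOpen.mem_nhds hxY), Y, hY, subset_rfl, hPY,
        T, hT1, hT2, hT3⟩
  obtain ⟨Y, hY, hsY, hPY, T, hT1, hT2, hT3⟩ := h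
  refine (len_iff_fn (W := {t | Tri G t}) Tri.one).mpr ⟨T, hT1, ?_⟩
  ext y
  exact hT3 y (hsY (Set.mem_univ y))

end Pool.Agent.NekF
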