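import Pool.Agent.NekF.Basic

/-!
# NF-LSplit: splitting a 3-cycle along a finite-valued invariant function

PLAN for `len_split`. Let `t` be `Tri` and `q : X → J` with clopen fibres and `q (t x) = q x`. For a
finset `s` of `J` let `F s` be the `Tri` element equal to `t` on `{x | q x ∈ s}` (clopen,
`t`-invariant) and to the identity elsewhere (`Tri.res`). By `Finset.induction_on`: every `Tri`
element `F` equal to `t` on `{x | q x ∈ s}` and to the identity elsewhere has
`Len W (s.card * n) F`: `s = ∅`: `F = 1`. `insert j s`: `F = F' * F''` with `F'` for `{j}` and `F''` for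
`s` (pointwise), use `h`, `len_mul`. For `s = univ` take `F = t`.
-/

open Topology

namespace Pool.Agent.NekF

open Pool.Agent.VW (Len)

variable {X : Type} [TopologicalSpace X]

theorem len_split [CompactSpace X] [T2Space X] {G : Subgroup (X ≃ₜ X)} {t : X ≃ₜ X}
    (ht : Tri G t) {J : Type} [Finite J] (q : X → J) (hq : ∀ j, IsClopen {x | q x = j})
    (hqt : ∀ x, q (t x) = q x) {W : Set (X ≃ₜ X)} {n : ℕ}
    (h : ∀ j F, Tri G F → (∀ x, q x = j → F x = t x) → (∀ x, q x ≠ j → F x = x) → Len W n F) :
    Len W (Nat.card J * n) t := by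
  classical
  have : Fintype J := Fintype.ofFinite J
  have key : ∀ s : Finset J, ∀ F : X ≃ₜ X, (∀ x, q x ∈ s → F x = t x) →
      (∀ x, q x ∉ s → F x = x) → Len W (s.card * n) F := by
    intro s
    induction s using Finset.induction_on with
    | empty =>
      intro F _ h2
      have e : F = 1 := by
        ext x
        exact h2 x (Finset.notMem_empty _)
      rw [e]
      exact len_one _
    | insert j s hj ih =>
      intro F h1 h2
      obtain ⟨F', hF', hF'1, hF'2⟩ := ht.res (Y := {x | q x = j}) (hq j) (fun x => by
        change q (t x) = j ↔ q x = j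
        rw [hqt])
      have hs : IsClopen {x | q x ∈ s} := by
        have e : {x | q x ∈ s} = ⋃ i ∈ s, {x | q x = i} := by
          ext x
          simp
        rw [e]
        exact isClopen_biUnion_finset fun i _ => hq i
      obtain ⟨F'', hF'', hF''1, hF''2⟩ := ht.res (Y := {x | q x ∈ s}) hs (fun x => by
        change q (t x) ∈ s ↔ q x ∈ s
        rw [hqt])
      have e : F = F' * F'' := by
        ext x
        rw [mul_app]
        by_cases hxj : q x = j
        · have hxs : q x ∉ s := by rw [hxj]; exact hj
          rw [hF''2 x hxs, hF'1 x hxj, h1 x (by rw [hxj]; exact Finset.mem_insert_self j s)]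
        · by_cases hxs : q x ∈ s
          · have hne : ¬ q (t x) = j := by rw [hqt]; exact hxj
            rw [hF''1 x hxs, hF'2 (t x) hne, h1 x (Finset.mem_insert_of_mem hxs)]
          · rw [hF''2 x hxs, hF'2 x hxj, h2 x (fun hh => (Finset.mem_insert.1 hh).elim hxj hxs)]
      rw [e, Finset.card_insert_of_notMem hj, Nat.succ_mul, Nat.add_comm]
      exact len_mul (h j F' hF' (fun x hx => hF'1 x hx) fun x hx => hF'2 x hx)
        (ih F'' (fun x hx => hF''1 x hx) fun x hx => hF''2 x hx)
  have h3 := key Finset.univ t (fun _ _ => rfl) fun x hx => absurd (Finset.mem_univ _) hx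
  rwa [Finset.card_univ, ← Nat.card_eq_fintype_card] at h3

end Pool.Agent.NekF
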