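import Pool.Agent.NekF.Displ

/-!
# NF-Slots: translates of a small clopen set

PLAN. `exists_cover`: `S = {x | ∀ g ∈ A ⊔ B, g x ∉ O}` is closed (the complement is the union of
the open sets `g ⁻¹' O`) and `x ∈ S → a x ∈ S`: `a x = h x` for some `h ∈ A`, and for `g ∈ A ⊔ B`,
`g (a x) = (g * h) x ∉ O`. The same for `b`. If `S` were nonempty then `S = univ` by minimality,
but a point of `O` is not in `S` (`g = 1`). So `S = ∅`, the open sets `g ⁻¹' O` cover `X`, and by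
compactness finitely many suffice.
`exists_slots`: `U₀` is infinite: by `exists_cover` (applied to `U₀`) every point is in one of the
finitely many sets `g ⁻¹' U₀`; if `U₀` were finite so would be `X`. So there is an injective
`p : Fin 8 → X` with values in `U₀`, and there are pairwise disjoint open sets `D i ∋ p i`
(`Set.Finite.t2_separation`/`Finite` version), put `W i = D i ∩ U₀` (open, nonempty, disjoint).
Fix any point `x`. By `exists_cover` for `W i` there is `g i ∈ A ⊔ B` with `g i x ∈ W i`. The set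
`{y | ∀ i, g i y ∈ W i}` is open and contains `x`; take a clopen set `O` with `x ∈ O` contained in it
(`compact_exists_isClopen_in_isOpen`).
-/

open Topology

namespace Pool.Agent.NekF

variable {X : Type} [TopologicalSpace X] {a b : X ≃ₜ X}

theorem exists_cover [CompactSpace X] (hmin : Minimal a b)
    {A B : Subgroup (X ≃ₜ X)} (hA : Fragmentation A a) (hB : Fragmentation B b) {O : Set X}
    (hO : IsOpen O) (hne : O.Nonempty) :
    ∃ s : Finset (X ≃ₜ X), (∀ g ∈ s, g ∈ A ⊔ B) ∧ ∀ x, ∃ g ∈ s, g x ∈ O := by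
  classical
  let S : Set X := {x | ∀ g ∈ A ⊔ B, g x ∉ O}
  have hSc : IsClosed S := by
    have h1 : S = ⋂ g : (A ⊔ B : Subgroup (X ≃ₜ X)), ((fun x => (g : X ≃ₜ X) x) ⁻¹' O)ᶜ := by
      ext x
      constructor
      · intro hx
        refine Set.mem_iInter.2 fun g => ?_
        exact hx g.1 g.2
      · intro hx g hg
        exact Set.mem_iInter.1 hx ⟨g, hg⟩
    rw [h1]
    refine isClosed_iInter fun g => ?_
    exact (hO.preimage (g : X ≃ₜ X).continuous).isClosed_compl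
  have hSinv : ∀ x ∈ S, a x ∈ S ∧ b x ∈ S := by
    intro x hx
    refine ⟨?_, ?_⟩
    · obtain ⟨h, hh, e⟩ := hA.2 x
      intro g hg
      rw [← e]
      exact hx (g * h) (mul_mem hg ((le_sup_left : A ≤ A ⊔ B) hh))
    · obtain ⟨h, hh, e⟩ := hB.2 x
      intro g hg
      rw [← e]
      exact hx (g * h) (mul_mem hg ((le_sup_right : B ≤ A ⊔ B) hh))
  have hSe : ¬ S.Nonempty := by
    intro hS
    have h1 := hmin S hSc hS hSinv
    obtain ⟨x, hx⟩ := hne
    have h2 : x ∈ S := by rw [h1]; exact Set.mem_univ x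
    exact h2 1 (one_mem _) hx
  have hcov : ∀ x, ∃ g ∈ A ⊔ B, g x ∈ O := by
    intro x
    by_contra hx
    refine hSe ⟨x, fun g hg h => hx ⟨g, hg, h⟩⟩
  have hco : (Set.univ : Set X) ⊆ ⋃ g : (A ⊔ B : Subgroup (X ≃ₜ X)), (fun x => (g : X ≃ₜ X) x) ⁻¹' O := by
    intro x _
    obtain ⟨g, hg, h⟩ := hcov x
    exact Set.mem_iUnion.2 ⟨⟨g, hg⟩, h⟩
  obtain ⟨t, ht⟩ := isCompact_univ.elim_finite_subcover
    (fun g : (A ⊔ B : Subgroup (X ≃ₜ X)) => (fun x => (g : X ≃ₜ X) x) ⁻¹' O)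
    (fun g => hO.preimage (g : X ≃ₜ X).continuous) hco
  refine ⟨Finset.image (fun g : (A ⊔ B : Subgroup (X ≃ₜ X)) => g.1) t, ?_, ?_⟩
  · intro g hg
    obtain ⟨u, -, hu⟩ := Finset.mem_image.1 hg
    rw [← hu]
    exact u.2
  · intro x
    obtain ⟨g, hg, h⟩ := Set.mem_iUnion₂.1 (ht (Set.mem_univ x))
    exact ⟨g.1, Finset.mem_image_of_mem _ hg, h⟩

theorem exists_slots [CompactSpace X] [T2Space X] [TotallyDisconnectedSpace X] [Infinite X]
    (hmin : Minimal a b) {A B : Subgroup (X ≃ₜ X)} (hA : Fragmentation A a)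
    (hB : Fragmentation B b) {U₀ : Set X} (hU : IsOpen U₀) (hne : U₀.Nonempty) :
    ∃ (O : Set X) (e : Fin 8 → (X ≃ₜ X)), IsClopen O ∧ O.Nonempty ∧ (∀ i, e i ∈ A ⊔ B) ∧
      (∀ i, ∀ u ∈ O, e i u ∈ U₀) ∧ ∀ i j, i ≠ j → ∀ u ∈ O, ∀ u' ∈ O, e i u ≠ e j u' := by
  classical
  have hinf : U₀.Infinite := by
    intro hfin
    obtain ⟨s, -, hs⟩ := exists_cover hmin hA hB hU hne
    have h1 : (⋃ g ∈ s, (fun x => (g : X ≃ₜ X) x) ⁻¹' U₀).Finite := by
      refine Set.Finite.biUnion s.finite_toSet fun g _ => ?_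
      exact hfin.preimage g.injective.injOn
    have h2 : (Set.univ : Set X) ⊆ ⋃ g ∈ s, (fun x => (g : X ≃ₜ X) x) ⁻¹' U₀ := by
      intro x _
      obtain ⟨g, hg, h⟩ := hs x
      exact Set.mem_iUnion₂.2 ⟨g, hg, h⟩
    exact Set.infinite_univ (h1.subset h2)
  let p : ℕ ↪ U₀ := hinf.natEmbedding
  have hpf : (Set.range fun i : Fin 8 => (p i : X)).Finite := Set.finite_range _
  obtain ⟨D, hD1, hD2⟩ := hpf.t2_separation
  have hpi : ∀ i j : Fin 8, i ≠ j → (p i : X) ≠ (p j : X) := by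
    intro i j hij h
    have h1 : p i = p j := Subtype.ext h
    have h2 : (i : ℕ) = (j : ℕ) := p.injective h1
    exact hij (Fin.ext h2)
  have hdis : ∀ i j : Fin 8, i ≠ j → Disjoint (D (p i)) (D (p j)) := fun i j hij =>
    hD2 ⟨i, rfl⟩ ⟨j, rfl⟩ (hpi i j hij)
  have hWo : ∀ i : Fin 8, IsOpen (D (p i) ∩ U₀) := fun i => (hD1 _).2.inter hU
  have hWn : ∀ i : Fin 8, (D (p i) ∩ U₀).Nonempty := fun i => ⟨p i, (hD1 _).1, (p i).2⟩
  obtain ⟨x⟩ : Nonempty X := inferInstance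
  have hg : ∀ i : Fin 8, ∃ g ∈ A ⊔ B, g x ∈ D (p i) ∩ U₀ := by
    intro i
    obtain ⟨s, hs1, hs2⟩ := exists_cover hmin hA hB (hWo i) (hWn i)
    obtain ⟨g, hg, h⟩ := hs2 x
    exact ⟨g, hs1 g hg, h⟩
  choose e he1 he2 using hg
  have hop : IsOpen (⋂ i : Fin 8, (fun y => e i y) ⁻¹' (D (p i) ∩ U₀)) :=
    isOpen_iInter_of_finite fun i => (hWo i).preimage (e i).continuous
  obtain ⟨O, hO1, hO2, hO3⟩ := compact_exists_isClopen_in_isOpen hop
    (x := x) (Set.mem_iInter.2 fun i => he2 i)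
  have hO4 : ∀ i : Fin 8, ∀ u ∈ O, e i u ∈ D (p i) ∩ U₀ := fun i u hu =>
    Set.mem_iInter.1 (hO3 hu) i
  refine ⟨O, e, hO1, ⟨x, hO2⟩, he1, fun i u hu => (hO4 i u hu).2, ?_⟩
  intro i j hij u hu u' hu' h
  have h1 := (hO4 i u hu).1
  have h2 := (hO4 j u' hu').1
  rw [h] at h1
  exact Set.disjoint_left.1 (hdis i j hij) h1 h2

end Pool.Agent.NekF
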