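import Pool.Agent.NekF.Five
import Pool.Agent.NekF.LSplit
import Pool.Agent.NekF.Slots

/-!
# NF-TriW: the 3-cycles have bounded length in the conjugates of `h`

PLAN for `exists_tri_len`. `h ≠ 1`: there is `x` with `h x ≠ x`, hence (clopen basis, continuity) a
clopen (open suffices) nonempty `U₀` with `h y ∉ U₀` for `y ∈ U₀`. Let `O`, `e` be from `exists_slots`
for `U₀`, and `s` from `exists_cover` for `O`. The sets `e i '' O` (`i : Fin 8`), and
`{x | g x ∈ O}` (`g ∈ s`) are clopen. Let `code x : (Fin 8 → Prop) × (s → Prop)` be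
`(fun i => x ∈ e i '' O, fun g => g x ∈ O)` (use `Bool`/`decide` or `Prop` with classical; the type
`J₀` of codes is finite), locally constant. The constant is `C = (number of elements of J) * 4`, with
`J = Option (J₀ × J₀ × J₀)`. Let `t` be `Tri`; `exists_fd` gives `V` with `V`, `t V`, `t (t V)`
disjoint and union the support. For `x` let `rep x = x` if `x ∈ V`, `t x` if `t x ∈ V`,
`t (t x)` if `t (t x) ∈ V` (exactly one case for `x` in the support) and let
`q x = some (code (rep x), code (t (rep x)), code (t (t (rep x))))` on the support, `none` off the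
support. `rep (t x) = rep x`, so `q (t x) = q x`, and the fibres of `q` are clopen. Apply `len_split`
with `n = 4`. Let `F` be `Tri`, equal to `t` on `{x | q x = j}` and to the identity off. If `j = none`
then `F = 1`. Let `j = some (j₁, j₂, j₃)` and `W = {v ∈ V | q v = j}` (clopen). If `W = ∅` then `F = 1`.
Otherwise fix `v₀ ∈ W`, `g₀ ∈ s` with `g₀ v₀ ∈ O`; since all the elements of `W` have the code `j₁`,
`g₀ v ∈ O` for all `v ∈ W`. Put `V' = g₀ '' W` (clopen, contained in `O`), `g = g₀⁻¹`. The support of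
`F` is `W ∪ t W ∪ t (t W)`, whose points have the codes `j₁`, `j₂`, `j₃`. Since the `e i '' O` are
disjoint, for each of `j₁`, `j₂`, `j₃` (they are codes of points) there is at most one `i` with
`j_m.1 i` true. So at least 5 of the 8 indices `i` are free (`j_m.1 i` false for `m = 1, 2, 3`):
choose an injection `ι : Fin 5 → Fin 8` with free values (e.g. the finset of the bad indices has
`card ≤ 3`; `Finset.exists_subset_card_eq`, `Finset.orderEmbOfFin`, or
`Function.Embedding.nonempty_of_card_le`). Let `b i = e (ι i)`. `b i u ∈ e (ι i) '' O` for `u ∈ V'`, so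
it is not in the support of `F`: `F (b i u) = b i u`. Then `five_slots` (with `F` for `t`) applies.
-/

open Topology

namespace Pool.Agent.NekF

open Pool.Agent.VW (Len)

variable {X : Type} [TopologicalSpace X] {a b : X ≃ₜ X}

private lemma ev_mem {C : Set X} (hC : IsClopen C) (x : X) :
    ∀ᶠ y in 𝓝 x, (y ∈ C) = (x ∈ C) := by
  by_cases hx : x ∈ C
  · filter_upwards [hC.isOpen.mem_nhds hx] with y hy
    exact propext ⟨fun _ => hx, fun _ => hy⟩
  · filter_upwards [hC.compl.isOpen.mem_nhds hx] with y hy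
    exact propext ⟨fun h => absurd h hy, fun h => absurd h hx⟩

private def code (O : Set X) (e : Fin 8 → (X ≃ₜ X)) (s : Finset (X ≃ₜ X)) (x : X) :
    (Fin 8 → Prop) × ({g // g ∈ s} → Prop) :=
  (fun i => (e i)⁻¹ x ∈ O, fun g => g.1 x ∈ O)

private lemma code_ev {O : Set X} (hO : IsClopen O) (e : Fin 8 → (X ≃ₜ X))
    (s : Finset (X ≃ₜ X)) (x : X) : ∀ᶠ y in 𝓝 x, code O e s y = code O e s x := by
  have h1 : ∀ i, ∀ᶠ y in 𝓝 x, ((e i)⁻¹ y ∈ O) = ((e i)⁻¹ x ∈ O) := fun i =>
    ev_mem (hO.preimage ((e i)⁻¹ : X ≃ₜ X).continuous) x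
  have h2 : ∀ g : {g // g ∈ s}, ∀ᶠ y in 𝓝 x, (g.1 y ∈ O) = (g.1 x ∈ O) := fun g =>
    ev_mem (hO.preimage (g.1).continuous) x
  filter_upwards [Filter.eventually_all.2 h1, Filter.eventually_all.2 h2] with y h3 h4
  exact Prod.ext (funext h3) (funext h4)

open Classical in
private noncomputable def rep (t : X ≃ₜ X) (V : Set X) (x : X) : X :=
  if x ∈ V then x else if t x ∈ V then t x else t (t x)

private lemma rep_ev (t : X ≃ₜ X) {V : Set X} (hV : IsClopen V) (x : X) :
    ∃ f : X ≃ₜ X, rep t V x = f x ∧ ∀ᶠ y in 𝓝 x, rep t V y = f y := by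
  have h1 := ev_mem hV x
  have h2 : ∀ᶠ y in 𝓝 x, (t y ∈ V) = (t x ∈ V) := ev_mem (hV.preimage t.continuous) x
  by_cases hx : x ∈ V
  · refine ⟨1, by simp [rep, hx], ?_⟩
    filter_upwards [h1] with y hy
    have hy' : y ∈ V := by rw [hy]; exact hx
    simp [rep, hy']
  · by_cases hx' : t x ∈ V
    · refine ⟨t, by simp [rep, hx, hx'], ?_⟩
      filter_upwards [h1, h2] with y hy hy2
      have hy' : y ∉ V := by rw [hy]; exact hx
      have hy2' : t y ∈ V := by rw [hy2]; exact hx'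
      simp [rep, hy', hy2']
    · refine ⟨t * t, by simp [rep, hx, hx'], ?_⟩
      filter_upwards [h1, h2] with y hy hy2
      have hy' : y ∉ V := by rw [hy]; exact hx
      have hy2' : t y ∉ V := by rw [hy2]; exact hx'
      simp [rep, hy', hy2']

private lemma rep_of_mem {t : X ≃ₜ X} {V : Set X} {x : X} (hx : x ∈ V) : rep t V x = x := by
  simp [rep, hx]

private lemma rep_t {t : X ≃ₜ X} (h3 : t ^ 3 = 1) {V : Set X} (hV1 : ∀ x ∈ V, t x ∉ V)
    (hV2 : ∀ x ∈ V, t (t x) ∉ V)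
    (hV3 : ∀ x, t x ≠ x ↔ (x ∈ V ∨ t x ∈ V ∨ t (t x) ∈ V)) (x : X) :
    rep t V (t x) = rep t V x := by
  by_cases hx : x ∈ V
  · have h1 := hV1 x hx
    have h2 := hV2 x hx
    simp [rep, hx, h1, h2, cube_app h3]
  · by_cases hx' : t x ∈ V
    · simp [rep, hx, hx']
    · by_cases hx2 : t (t x) ∈ V
      · simp [rep, hx, hx', hx2]
      · have h4 : t x = x := by
          by_contra h
          rcases (hV3 x).1 h with h | h | h
          · exact hx h
          · exact hx' h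
          · exact hx2 h
        rw [h4]

private noncomputable def qq (O : Set X) (e : Fin 8 → (X ≃ₜ X)) (s : Finset (X ≃ₜ X))
    (t : X ≃ₜ X) (V : Set X) (x : X) :
    ((Fin 8 → Prop) × ({g // g ∈ s} → Prop)) × ((Fin 8 → Prop) × ({g // g ∈ s} → Prop)) ×
      ((Fin 8 → Prop) × ({g // g ∈ s} → Prop)) :=
  (code O e s (rep t V x), code O e s (t (rep t V x)), code O e s (t (t (rep t V x))))

private lemma qq_clopen {O : Set X} (hO : IsClopen O) (e : Fin 8 → (X ≃ₜ X))
    (s : Finset (X ≃ₜ X)) (t : X ≃ₜ X) {V : Set X} (hV : IsClopen V)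
    (j : ((Fin 8 → Prop) × ({g // g ∈ s} → Prop)) × ((Fin 8 → Prop) × ({g // g ∈ s} → Prop)) ×
      ((Fin 8 → Prop) × ({g // g ∈ s} → Prop))) :
    IsClopen {x | qq O e s t V x = j} := by
  have h : IsLocallyConstant (qq O e s t V) := by
    rw [IsLocallyConstant.iff_eventually_eq]
    intro x
    obtain ⟨f, h1, h2⟩ := rep_ev t hV x
    have k1 : ∀ᶠ y in 𝓝 x, code O e s (f y) = code O e s (f x) :=
      f.continuous.continuousAt.eventually (code_ev hO e s (f x))
    have k2 : ∀ᶠ y in 𝓝 x, code O e s (t (f y)) = code O e s (t (f x)) :=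
      (t * f).continuous.continuousAt.eventually (code_ev hO e s (t (f x)))
    have k3 : ∀ᶠ y in 𝓝 x, code O e s (t (t (f y))) = code O e s (t (t (f x))) :=
      (t * (t * f)).continuous.continuousAt.eventually (code_ev hO e s (t (t (f x))))
    filter_upwards [h2, k1, k2, k3] with y m1 m2 m3 m4
    simp only [qq]
    rw [m1, h1, m2, m3, m4]
  exact h.isClopen_fiber j

/-- one block of the partition -/
private lemma block [CompactSpace X] [T2Space X] [TotallyDisconnectedSpace X]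
    {G : Subgroup (X ≃ₜ X)} {h : X ≃ₜ X} {U₀ : Set X} (hU₀ : ∀ x ∈ U₀, h x ∉ U₀)
    {O : Set X} {e : Fin 8 → (X ≃ₜ X)} (he : ∀ i, e i ∈ full G)
    (heU : ∀ i, ∀ u ∈ O, e i u ∈ U₀)
    (hdis : ∀ i j, i ≠ j → ∀ u ∈ O, ∀ u' ∈ O, e i u ≠ e j u')
    {s : Finset (X ≃ₜ X)} (hs : ∀ g ∈ s, g ∈ full G) (hcov : ∀ x, ∃ g ∈ s, g x ∈ O)
    {t : X ≃ₜ X} (ht : Tri G t) {V : Set X} (hV : IsClopen V)
    (hV1 : ∀ x ∈ V, t x ∉ V) (hV2 : ∀ x ∈ V, t (t x) ∉ V)
    (hV3 : ∀ x, t x ≠ x ↔ (x ∈ V ∨ t x ∈ V ∨ t (t x) ∈ V))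
    (hO : IsClopen O)
    (j : ((Fin 8 → Prop) × ({g // g ∈ s} → Prop)) × ((Fin 8 → Prop) × ({g // g ∈ s} → Prop)) ×
      ((Fin 8 → Prop) × ({g // g ∈ s} → Prop))) (F : X ≃ₜ X) (hF : Tri G F)
    (hF1 : ∀ x, qq O e s t V x = j → F x = t x) (hF2 : ∀ x, qq O e s t V x ≠ j → F x = x) :
    Len (cj (alt G) h) 4 F := by
  classical
  have hq : ∀ x, qq O e s t V (t x) = qq O e s t V x := by
    intro x
    simp only [qq]
    rw [rep_t ht.2.1 hV1 hV2 hV3]
  have hsuppF : ∀ x, F x ≠ x → qq O e s t V x = j ∧ t x ≠ x := by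
    intro x hx
    have h1 : qq O e s t V x = j := by
      by_contra h1
      exact hx (hF2 x h1)
    exact ⟨h1, fun h2 => hx (by rw [hF1 x h1, h2])⟩
  by_cases hW : ∃ v₀, v₀ ∈ V ∧ qq O e s t V v₀ = j
  · obtain ⟨v₀, hv₀, hqv₀⟩ := hW
    obtain ⟨g₀, hg₀, hg₀v⟩ := hcov v₀
    -- the codes of the points of the block
    have hcode : ∀ v ∈ V, qq O e s t V v = j → code O e s v = code O e s v₀ ∧
        code O e s (t v) = code O e s (t v₀) ∧ code O e s (t (t v)) = code O e s (t (t v₀)) := by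
      intro v hv hqv
      have h1 : qq O e s t V v = qq O e s t V v₀ := by rw [hqv, hqv₀]
      simp only [qq, rep_of_mem hv, rep_of_mem hv₀, Prod.mk.injEq] at h1
      exact h1
    have hgO : ∀ v ∈ V, qq O e s t V v = j → g₀ v ∈ O := by
      intro v hv hqv
      have h1 := congrArg (fun c => c.2 ⟨g₀, hg₀⟩) (hcode v hv hqv).1
      simp only [code] at h1
      rw [h1]; exact hg₀v
    -- the free slots
    have huniq : ∀ x, ∀ i i', (e i)⁻¹ x ∈ O → (e i')⁻¹ x ∈ O → i = i' := by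
      intro x i i' h1 h2
      by_contra hne
      exact hdis i i' hne _ h1 _ h2 (by rw [app_inv_self, app_inv_self])
    have hcard1 : ∀ x, (Finset.univ.filter fun i : Fin 8 => (e i)⁻¹ x ∈ O).card ≤ 1 := by
      intro x
      rw [Finset.card_le_one]
      intro i hi i' hi'
      exact huniq x i i' (Finset.mem_filter.1 hi).2 (Finset.mem_filter.1 hi').2
    obtain ⟨ι, hι⟩ : ∃ ι : Fin 5 → Fin 8, Function.Injective ι ∧ ∀ i,
        (e (ι i))⁻¹ v₀ ∉ O ∧ (e (ι i))⁻¹ (t v₀) ∉ O ∧ (e (ι i))⁻¹ (t (t v₀)) ∉ O := by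
      set B : Finset (Fin 8) := (Finset.univ.filter fun i : Fin 8 => (e i)⁻¹ v₀ ∈ O) ∪
        ((Finset.univ.filter fun i : Fin 8 => (e i)⁻¹ (t v₀) ∈ O) ∪
          (Finset.univ.filter fun i : Fin 8 => (e i)⁻¹ (t (t v₀)) ∈ O)) with hB
      have hBc : B.card ≤ 3 := by
        refine (Finset.card_union_le _ _).trans ?_
        have h1 := Finset.card_union_le (Finset.univ.filter fun i : Fin 8 => (e i)⁻¹ (t v₀) ∈ O)
          (Finset.univ.filter fun i : Fin 8 => (e i)⁻¹ (t (t v₀)) ∈ O)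
        have h2 := hcard1 v₀
        have h3 := hcard1 (t v₀)
        have h4 := hcard1 (t (t v₀))
        omega
      have hBc' : 5 ≤ (Bᶜ).card := by
        rw [Finset.card_compl, Fintype.card_fin]; omega
      obtain ⟨S, hS, hS5⟩ := Finset.exists_subset_card_eq hBc'
      refine ⟨S.orderEmbOfFin hS5, (S.orderEmbOfFin hS5).injective, fun i => ?_⟩
      have h1 := hS (S.orderEmbOfFin_mem hS5 i)
      rw [Finset.mem_compl, hB, Finset.mem_union, Finset.mem_union, Finset.mem_filter,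
        Finset.mem_filter, Finset.mem_filter] at h1
      push Not at h1
      exact ⟨h1.1 (Finset.mem_univ _), h1.2.1 (Finset.mem_univ _), h1.2.2 (Finset.mem_univ _)⟩
    -- the base
    have hWc : IsClopen {v | v ∈ V ∧ qq O e s t V v = j} := hV.inter (qq_clopen hO e s t hV j)
    have hV'c : IsClopen {u | g₀⁻¹ u ∈ V ∧ qq O e s t V (g₀⁻¹ u) = j} :=
      hWc.preimage (g₀⁻¹ : X ≃ₜ X).continuous
    have hFt : ∀ v, qq O e s t V v = j → F v = t v ∧ F (F v) = t (t v) := by
      intro v hv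
      have h1 := hF1 v hv
      refine ⟨h1, ?_⟩
      rw [h1, hF1 _ (by rw [hq, hv])]
    have huO : ∀ u ∈ {u | g₀⁻¹ u ∈ V ∧ qq O e s t V (g₀⁻¹ u) = j}, u ∈ O := by
      intro u hu
      have h1 := hgO _ hu.1 hu.2
      rwa [app_inv_self] at h1
    have hsupp : ∀ x, F x ≠ x → ∃ u ∈ {u | g₀⁻¹ u ∈ V ∧ qq O e s t V (g₀⁻¹ u) = j},
        x = g₀⁻¹ u ∨ x = F (g₀⁻¹ u) ∨ x = F (F (g₀⁻¹ u)) := by
      intro x hx
      obtain ⟨h1, h2⟩ := hsuppF x hx
      have c3 := cube_app ht.2.1 x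
      rcases (hV3 x).1 h2 with h | h | h
      · refine ⟨g₀ x, ⟨?_, ?_⟩, Or.inl ?_⟩
        · rw [inv_app_self]; exact h
        · rw [inv_app_self]; exact h1
        · rw [inv_app_self]
      · refine ⟨g₀ (t x), ⟨?_, ?_⟩, Or.inr (Or.inr ?_)⟩
        · rw [inv_app_self]; exact h
        · rw [inv_app_self, hq]; exact h1
        · rw [inv_app_self, (hFt (t x) (by rw [hq, h1])).2, c3]
      · refine ⟨g₀ (t (t x)), ⟨?_, ?_⟩, Or.inr (Or.inl ?_)⟩
        · rw [inv_app_self]; exact h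
        · rw [inv_app_self, hq, hq]; exact h1
        · rw [inv_app_self, (hFt (t (t x)) (by rw [hq, hq, h1])).1, c3]
    refine five_slots (g := g₀⁻¹) (b := fun i => e (ι i)) hU₀ hF hV'c
      ((full G).inv_mem (hs g₀ hg₀)) ?_ ?_ hsupp (fun i => he _) ?_ ?_ ?_
    · intro u hu u' hu' h1
      rw [(hFt _ hu.2).1] at h1
      exact hV1 _ hu.1 (by rw [h1]; exact hu'.1)
    · intro u hu u' hu' h1
      rw [(hFt _ hu.2).2] at h1
      exact hV2 _ hu.1 (by rw [h1]; exact hu'.1)
    · intro i i' hne u hu u' hu'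
      exact hdis _ _ (fun h1 => hne (hι.1 h1)) u (huO u hu) u' (huO u' hu')
    · intro i u hu
      exact heU _ u (huO u hu)
    · intro i u hu
      by_contra hcon
      have huu : (e (ι i))⁻¹ (e (ι i) u) ∈ O := by rw [inv_app_self]; exact huO u hu
      obtain ⟨w, hw, h1⟩ := hsupp _ hcon
      have hc := hcode _ hw.1 hw.2
      obtain ⟨f1, f2, f3⟩ := hι.2 i
      rcases h1 with h1 | h1 | h1
      · have h2 := congrArg (fun c => c.1 (ι i)) hc.1
        simp only [code] at h2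
        rw [← h1] at h2
        rw [h2] at huu
        exact f1 huu
      · rw [(hFt _ hw.2).1] at h1
        have h2 := congrArg (fun c => c.1 (ι i)) hc.2.1
        simp only [code] at h2
        rw [← h1] at h2
        rw [h2] at huu
        exact f2 huu
      · rw [(hFt _ hw.2).2] at h1
        have h2 := congrArg (fun c => c.1 (ι i)) hc.2.2
        simp only [code] at h2
        rw [← h1] at h2
        rw [h2] at huu
        exact f3 huu
  · push Not at hW
    have hF' : F = 1 := by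
      ext x
      by_contra hx
      obtain ⟨h1, h2⟩ := hsuppF x hx
      rcases (hV3 x).1 h2 with h | h | h
      · exact hW _ h h1
      · exact hW _ h (by rw [hq, h1])
      · exact hW _ h (by rw [hq, hq, h1])
    rw [hF']
    exact len_one _

theorem exists_tri_len [CompactSpace X] [T2Space X] [TotallyDisconnectedSpace X] [Infinite X]
    (hmin : Minimal a b) {A B : Subgroup (X ≃ₜ X)} (hA : Fragmentation A a)
    (hB : Fragmentation B b) {h : X ≃ₜ X} (hh : h ≠ 1) :
    ∃ C : ℕ, ∀ t, Tri (A ⊔ B) t → Len (cj (alt (A ⊔ B)) h) C t := by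
  classical
  obtain ⟨x, hx⟩ : ∃ x, h x ≠ x := by
    by_contra hcon
    push Not at hcon
    exact hh (by ext x; exact hcon x)
  obtain ⟨P, Q, hP, hQ, hxP, hxQ, hPQ⟩ := t2_separation hx.symm
  have hU : IsOpen (P ∩ (fun y => h y) ⁻¹' Q) := hP.inter (hQ.preimage h.continuous)
  have hne : (P ∩ (fun y => h y) ⁻¹' Q).Nonempty := ⟨x, hxP, hxQ⟩
  have hU₀ : ∀ y ∈ P ∩ (fun y => h y) ⁻¹' Q, h y ∉ P ∩ (fun y => h y) ⁻¹' Q := by
    intro y hy hy'
    exact Set.disjoint_left.1 hPQ hy'.1 hy.2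
  obtain ⟨O, e, hO, hOne, he, heU, hdis⟩ := exists_slots hmin hA hB hU hne
  obtain ⟨s, hs, hcov⟩ := exists_cover hmin hA hB hO.isOpen hOne
  refine ⟨Nat.card (((Fin 8 → Prop) × ({g // g ∈ s} → Prop)) ×
    ((Fin 8 → Prop) × ({g // g ∈ s} → Prop)) ×
      ((Fin 8 → Prop) × ({g // g ∈ s} → Prop))) * 4, fun t ht => ?_⟩
  obtain ⟨V, hV, hV1, hV2, hV3⟩ := exists_fd ht.2.1 ht.2.2
  refine len_split ht (qq O e s t V) (qq_clopen hO e s t hV) (fun x => ?_) ?_
  · simp only [qq]
    rw [rep_t ht.2.1 hV1 hV2 hV3]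
  · intro j F hF hF1 hF2
    exact block hU₀ (fun i => le_full _ (he i)) heU hdis (fun g hg => le_full _ (hs g hg)) hcov ht
      hV hV1 hV2 hV3 hO j F hF hF1 hF2

end Pool.Agent.NekF
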