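import Pool.Agent.NekF.Split
import Pool.Agent.NekF.Ab
import Pool.Agent.NekF.FinG
import Pool.Agent.NekF.Glob
import Pool.Agent.NekF.TriW
import Pool.Agent.VW.Bounded

/-!
# NF-Final: assembly
-/

open Topology

namespace Pool.Agent.NekF

open Pool.Agent.VW (Len FiniteWidths VerballyElliptic)

variable {X : Type} [TopologicalSpace X] {a b : X ≃ₜ X}

theorem alt_tri_len [CompactSpace X] [T2Space X] [TotallyDisconnectedSpace X] [Infinite X]
    (ha : a * a = 1) (hb : b * b = 1) (hmin : Minimal a b)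
    {A B : Subgroup (X ≃ₜ X)} (hA : Fragmentation A a) (hB : Fragmentation B b) {g : X ≃ₜ X}
    (hg : g ∈ alt (A ⊔ B)) : Len {t | Tri (A ⊔ B) t} 40 g := by
  obtain ⟨S₀, S₁, N₀, N₁, hf0, hf1, ht0, ht1, hd0, hd1, g₀, hg0, g₁, hg1, rfl⟩ :=
    exists_split ha hb hmin hA hB hg
  have key : ∀ (S : Set (X ≃ₜ X)) (N : ℕ), S.Finite → (∀ t ∈ S, Tri (A ⊔ B) t) →
      (∀ u ∈ Subgroup.closure S, Disp a b N u) → ∀ u ∈ Subgroup.closure S,
      Len {t | Tri (A ⊔ B) t} 20 u := by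
    intro S N hfin htri hd u hu
    haveI := finite_closure hfin hd
    exact tri_len htri (fun f hf g hg x hfx hgx =>
      eventually_comm ha hb hmin (hd f hf) (hd g hg) hfx hgx) hu
  exact len_mul (key S₀ N₀ hf0 ht0 hd0 g₀ hg0) (key S₁ N₁ hf1 ht1 hd1 g₁ hg1)

theorem conj_width [CompactSpace X] [T2Space X] [TotallyDisconnectedSpace X] [Infinite X]
    (ha : a * a = 1) (hb : b * b = 1) (hmin : Minimal a b)
    {A B : Subgroup (X ≃ₜ X)} (hA : Fragmentation A a) (hB : Fragmentation B b) {h : X ≃ₜ X}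
    (hh : h ≠ 1) : ∃ C : ℕ, ∀ g ∈ alt (A ⊔ B), Len (cj (alt (A ⊔ B)) h) C g := by
  obtain ⟨C, hC⟩ := exists_tri_len hmin hA hB hh
  exact ⟨40 * C, fun g hg => len_len (fun t ht => hC t ht) (alt_tri_len ha hb hmin hA hB hg)⟩

theorem finiteWidths [CompactSpace X] [T2Space X] [TotallyDisconnectedSpace X] [Infinite X]
    (ha : a * a = 1) (hb : b * b = 1) (hmin : Minimal a b)
    {A B : Subgroup (X ≃ₜ X)} (hA : Fragmentation A a) (hB : Fragmentation B b)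
    (H : Subgroup (X ≃ₜ X)) (hH : alt (A ⊔ B) ≤ H) (hidx : (alt (A ⊔ B)).relIndex H ≠ 0) :
    FiniteWidths H := by
  intro W hs hc
  by_cases hW : ∀ x ∈ W, x = 1
  · refine ⟨0, fun g hg => ?_⟩
    have h1 : Subgroup.closure W = ⊥ := by
      rw [Subgroup.closure_eq_bot_iff]
      intro x hx
      exact hW x hx
    rw [h1, Subgroup.mem_bot] at hg
    rw [hg]
    exact len_one 0
  · push Not at hW
    obtain ⟨x, hx, hx1⟩ := hW
    obtain ⟨C, hC⟩ := conj_width ha hb hmin hA hB (h := (x : X ≃ₜ X))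
      (fun h => hx1 (Subtype.ext h))
    haveI : ((alt (A ⊔ B)).subgroupOf H).FiniteIndex := ⟨hidx⟩
    refine Pool.Agent.VW.len_of_finiteIndex hs ((alt (A ⊔ B)).subgroupOf H) C ?_
    intro g hg
    obtain ⟨l, h1, h2, h3⟩ := hC g (Subgroup.mem_subgroupOf.1 hg)
    have h4 : ∀ y ∈ l, y ∈ H := by
      intro y hy
      obtain ⟨u, hu, rfl | rfl⟩ := h2 y hy
      · exact H.mul_mem (H.mul_mem (hH hu) x.2) (H.inv_mem (hH hu))
      · exact H.mul_mem (H.mul_mem (hH hu) (H.inv_mem x.2)) (H.inv_mem (hH hu))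
    refine ⟨l.attach.map (fun y => (⟨y.1, h4 y.1 y.2⟩ : H)), by simpa using h1, ?_, ?_⟩
    · intro y hy
      obtain ⟨z, -, rfl⟩ := List.mem_map.1 hy
      obtain ⟨u, hu, h5 | h5⟩ := h2 z.1 z.2
      · have h6 := hc x hx ⟨u, hH hu⟩
        have h7 : (⟨z.1, h4 z.1 z.2⟩ : H) = ⟨u, hH hu⟩ * x * (⟨u, hH hu⟩ : H)⁻¹ :=
          Subtype.ext h5
        rw [h7]; exact h6
      · have h6 := hc x⁻¹ (hs x hx) ⟨u, hH hu⟩
        have h7 : (⟨z.1, h4 z.1 z.2⟩ : H) = ⟨u, hH hu⟩ * x⁻¹ * (⟨u, hH hu⟩ : H)⁻¹ :=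
          Subtype.ext h5
        rw [h7]; exact h6
    · apply Subtype.ext
      rw [← h3, ← H.subtype_apply, map_list_prod, List.map_map]
      congr 1
      have : (H.subtype ∘ fun y : {y // y ∈ l} => (⟨y.1, h4 y.1 y.2⟩ : H)) = Subtype.val := rfl
      rw [this, List.attach_map_subtype_val]

/-- the main theorem -/
theorem main :
    ∀ (X : Type) [TopologicalSpace X] [CompactSpace X] [T2Space X] [TotallyDisconnectedSpace X]
      [Infinite X] (a b : X ≃ₜ X) (A B : Subgroup (X ≃ₜ X)),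
      a * a = 1 → b * b = 1 → Minimal a b → Fragmentation A a → Fragmentation B b →
      (∀ h : X ≃ₜ X, h ≠ 1 → ∃ C : ℕ, ∀ g ∈ alt (A ⊔ B), Len (cj (alt (A ⊔ B)) h) C g) ∧
      ∀ H : Subgroup (X ≃ₜ X), alt (A ⊔ B) ≤ H → (alt (A ⊔ B)).relIndex H ≠ 0 →
        VerballyElliptic H ∧ FiniteWidths H := by
  intro X _ _ _ _ _ a b A B ha hb hmin hA hB
  refine ⟨fun h hh => conj_width ha hb hmin hA hB hh, fun H hH hidx => ?_⟩
  have h1 := finiteWidths ha hb hmin hA hB H hH hidx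
  exact ⟨Pool.Agent.VW.FiniteWidths.verballyElliptic h1, h1⟩

end Pool.Agent.NekF
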