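import Pool.Agent.NekF.Comm

/-!
# NF-Five: 3-cycles with five free slots

PLAN for `five_slots`. Let `e : Fin 8 → (X ≃ₜ X)` be `![g, t * g, t * t * g, b 0, b 1, b 2, b 3, b 4]`.
It is a level system with base `U' = V'`, `K = ⊥`: disjointness: `g '' V' = V`, and
`V`, `t '' V`, `t '' (t '' V)` are pairwise disjoint, the points of these sets are moved by `t`
(the hypotheses on `V` and `t ^ 3 = 1`) while `b i u` is fixed by `t`; the `b i '' V'` are pairwise
disjoint by `hb'`. Let `F` be as in `exists_levelHom`. With `K = ⊥` we have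
`F (inr σ) (e c u) = e (σ c) u`. `t = F (inr c₀)` where `c₀` is the 3-cycle `0 ↦ 1 ↦ 2 ↦ 0` of
`Fin 8`: check on the points `e c u`, and the other points are fixed by `t` (`hsupp`). Let
`κ = swap 0 3 * swap 1 4 * swap 2 5 * swap 6 7` (even) and find two even permutations `p₀`, `r₀` of
`Fin 8` fixing `0, 1, 2` with `c₀ = κ⁻¹ * (p₀⁻¹ * r₀ * p₀ * r₀⁻¹) * κ` (3-cycles with one common point
in `{3, .., 7}`: a commutator of two 3-cycles of `A₅` with exactly one common point is a 3-cycle;
`decide`). `p = F (inr p₀)`, `r = F (inr r₀)`, `k = F (inr κ)` are in `alt G`, `p` and `r` are supported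
in the union of the `b i '' V' ⊆ U₀`. By `comm_len` with `H = alt G`,
`p⁻¹ * r * p * r⁻¹` has length at most 4 in `cj (alt G) h`, and
`t = k⁻¹ * (p⁻¹ * r * p * r⁻¹) * k`; use `len_cj_conj`.
-/

open Topology

namespace Pool.Agent.NekF

open Pool.Agent.VW (Len)

variable {X : Type} [TopologicalSpace X]

private def cyc3 {I : Type} [DecidableEq I] (a b c : I) : Equiv.Perm I :=
  Equiv.swap a b * Equiv.swap b c

private abbrev I8 : Type := Fin 3 ⊕ Fin 5

private def cc0 : Equiv.Perm I8 := cyc3 (Sum.inl 0) (Sum.inl 1) (Sum.inl 2)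
private def pp0 : Equiv.Perm I8 := cyc3 (Sum.inr 3) (Sum.inr 1) (Sum.inr 0)
private def rr0 : Equiv.Perm I8 := cyc3 (Sum.inr 0) (Sum.inr 2) (Sum.inr 4)
private def kk0 : Equiv.Perm I8 :=
  Equiv.swap (Sum.inl 0) (Sum.inr 0) * Equiv.swap (Sum.inl 1) (Sum.inr 1) *
    Equiv.swap (Sum.inl 2) (Sum.inr 2) * Equiv.swap (Sum.inr 3) (Sum.inr 4)

private theorem sign_cc : Equiv.Perm.sign cc0 = 1 := by decide
private theorem sign_pp : Equiv.Perm.sign pp0 = 1 := by decide
private theorem sign_rr : Equiv.Perm.sign rr0 = 1 := by decide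
private theorem sign_kk : Equiv.Perm.sign kk0 = 1 := by decide

private theorem pp_fix : ∀ i : Fin 3, pp0 (Sum.inl i) = Sum.inl i := by decide
private theorem rr_fix : ∀ i : Fin 3, rr0 (Sum.inl i) = Sum.inl i := by decide
private theorem cc_fix : ∀ i : Fin 5, cc0 (Sum.inr i) = Sum.inr i := by decide
private theorem cc_0 : cc0 (Sum.inl 0) = Sum.inl 1 := by decide
private theorem cc_1 : cc0 (Sum.inl 1) = Sum.inl 2 := by decide
private theorem cc_2 : cc0 (Sum.inl 2) = Sum.inl 0 := by decide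

private theorem cc_eq : cc0 = kk0⁻¹ * (pp0⁻¹ * rr0 * pp0 * rr0⁻¹) * kk0 := by
  ext x
  revert x
  decide

private def tr (t g : X ≃ₜ X) (b : Fin 5 → (X ≃ₜ X)) : I8 → (X ≃ₜ X)
  | Sum.inl 0 => g
  | Sum.inl 1 => t * g
  | Sum.inl 2 => t * t * g
  | Sum.inr i => b i

theorem five_slots [CompactSpace X] [T2Space X] [TotallyDisconnectedSpace X]
    {G : Subgroup (X ≃ₜ X)} {h : X ≃ₜ X} {U₀ : Set X} (hU₀ : ∀ x ∈ U₀, h x ∉ U₀)
    {t : X ≃ₜ X} (ht : Tri G t) {V' : Set X} (hV' : IsClopen V') {g : X ≃ₜ X} (hg : g ∈ full G)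
    (h1 : ∀ u ∈ V', ∀ u' ∈ V', t (g u) ≠ g u') (h2 : ∀ u ∈ V', ∀ u' ∈ V', t (t (g u)) ≠ g u')
    (hsupp : ∀ x, t x ≠ x → ∃ u ∈ V', x = g u ∨ x = t (g u) ∨ x = t (t (g u)))
    {b : Fin 5 → (X ≃ₜ X)} (hb : ∀ i, b i ∈ full G)
    (hb' : ∀ i j, i ≠ j → ∀ u ∈ V', ∀ u' ∈ V', b i u ≠ b j u')
    (hbU : ∀ i, ∀ u ∈ V', b i u ∈ U₀) (hbt : ∀ i, ∀ u ∈ V', t (b i u) = b i u) :
    Len (cj (alt G) h) 4 t := by
  classical
  -- the sets `V`, `t V`, `t t V` and `b i V'` are disjoint
  have g0 : ∀ i, ∀ u ∈ V', ∀ u' ∈ V', g u ≠ b i u' := by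
    intro i u hu u' hu' he
    refine h1 u hu u hu ?_
    rw [he]
    exact hbt i u' hu'
  have g1 : ∀ i, ∀ u ∈ V', ∀ u' ∈ V', t (g u) ≠ b i u' := by
    intro i u hu u' hu' he
    have h3 : t (t (g u)) = t (g u) := by rw [he]; exact hbt i u' hu'
    exact h1 u hu u hu (t.injective h3)
  have g2 : ∀ i, ∀ u ∈ V', ∀ u' ∈ V', t (t (g u)) ≠ b i u' := by
    intro i u hu u' hu' he
    have h3 : t (t (t (g u))) = t (t (g u)) := by rw [he]; exact hbt i u' hu'
    exact h1 u hu u hu (t.injective (t.injective h3))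
  have hdisj : ∀ c c', c ≠ c' → ∀ u ∈ V', ∀ u' ∈ V', tr t g b c u ≠ tr t g b c' u' := by
    intro c c' hcc u hu u' hu' he
    rcases c with c | i <;> rcases c' with c' | j
    · fin_cases c <;> fin_cases c'
      · exact hcc rfl
      · exact h1 u' hu' u hu he.symm
      · exact h2 u' hu' u hu he.symm
      · exact h1 u hu u' hu' he
      · exact hcc rfl
      · exact h1 u' hu' u hu (t.injective he.symm)
      · exact h2 u hu u' hu' he
      · exact h1 u hu u' hu' (t.injective he)
      · exact hcc rfl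
    · fin_cases c
      · exact g0 j u hu u' hu' he
      · exact g1 j u hu u' hu' he
      · exact g2 j u hu u' hu' he
    · fin_cases c'
      · exact g0 i u' hu' u hu he.symm
      · exact g1 i u' hu' u hu he.symm
      · exact g2 i u' hu' u hu he.symm
    · exact hb' i j (fun hij => hcc (by rw [hij])) u hu u' hu' he
  let L : LevelSys G I8 :=
    { U := V'
      r := tr t g b
      K := ⊥
      clopen := hV'
      r_mem := by
        intro c
        rcases c with c | i
        · fin_cases c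
          · exact hg
          · exact (full G).mul_mem ht.1 hg
          · exact (full G).mul_mem ((full G).mul_mem ht.1 ht.1) hg
        · exact hb i
      disj := hdisj
      K_le := bot_le
      K_supp := by
        intro k hk x _
        rw [Subgroup.mem_bot] at hk
        rw [hk]
        rfl }
  obtain ⟨F, hF1, hF2, -, hF4⟩ := exists_levelHom L
  have hF : ∀ (σ : Equiv.Perm I8) (c : I8), ∀ u ∈ V',
      F (SemidirectProduct.inr σ) (tr t g b c u) = tr t g b (σ c) u := by
    intro σ c u hu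
    have h3 := hF1 (SemidirectProduct.inr σ) c u hu
    rw [SemidirectProduct.right_inr, SemidirectProduct.left_inr] at h3
    exact h3
  have hF' : ∀ (σ : Equiv.Perm I8) (x : X), (∀ c, ∀ u ∈ V', x ≠ tr t g b c u) →
      F (SemidirectProduct.inr σ) x = x := fun σ x hx => hF2 _ x hx
  -- `t` is in the image
  have htF : t = F (SemidirectProduct.inr cc0) := by
    ext x
    by_cases hx : ∃ c, ∃ u ∈ V', x = tr t g b c u
    · obtain ⟨c, u, hu, rfl⟩ := hx
      rw [hF _ c u hu]
      rcases c with c | i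
      · fin_cases c
        · change t (g u) = tr t g b (cc0 (Sum.inl 0)) u
          rw [cc_0]
          rfl
        · change t (t (g u)) = tr t g b (cc0 (Sum.inl 1)) u
          rw [cc_1]
          rfl
        · change t (t (t (g u))) = tr t g b (cc0 (Sum.inl 2)) u
          rw [cc_2]
          exact cube_app ht.2.1 _
      · rw [cc_fix]
        exact hbt i u hu
    · push Not at hx
      rw [hF' _ x hx]
      by_contra hcon
      obtain ⟨u, hu, h3⟩ := hsupp x hcon
      rcases h3 with h3 | h3 | h3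
      · exact hx (Sum.inl 0) u hu h3
      · exact hx (Sum.inl 1) u hu h3
      · exact hx (Sum.inl 2) u hu h3
  have hsup : ∀ σ : Equiv.Perm I8, (∀ i : Fin 3, σ (Sum.inl i) = Sum.inl i) →
      ∀ x, x ∉ U₀ → F (SemidirectProduct.inr σ) x = x := by
    intro σ hσ x hx
    by_cases hx' : ∃ c, ∃ u ∈ V', x = tr t g b c u
    · obtain ⟨c, u, hu, rfl⟩ := hx'
      rcases c with c | i
      · rw [hF _ _ u hu, hσ]
      · exact absurd (hbU i u hu) hx
    · push Not at hx'
      exact hF' _ x hx'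
  have hlen := comm_len (H := alt G) hU₀ (hF4 pp0 sign_pp) (hF4 rr0 sign_rr) (hsup _ pp_fix)
    (hsup _ rr_fix)
  have hk := (alt G).inv_mem (hF4 kk0 sign_kk)
  have hfin := len_cj_conj hk hlen
  rw [htF, cc_eq]
  simp only [map_mul, map_inv] at hfin ⊢
  rw [inv_inv] at hfin
  exact hfin

end Pool.Agent.NekF
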