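import Pool.Agent.NekF.Line

/-!
# NF-Free: fixed points of the elements `d k`, markers

PLAN. `even_free`: let `k = 2 m ≠ 0` and suppose `T ^ m x = x`, `T = b * a`. The set
`S = {d j x | j : ℤ}` satisfies `a S ⊆ S`, `b S ⊆ S` (`d_mul_even`, `d_mul_odd` with `j = ±1`,
`d_one`, `d_neg_one`), and it is finite: `d (j + k) x = d j x`-type periodicity
(`d j * d k = d (k + j)` as `k` is even, so `d (k + j) x = d j (d k x) = d j x`), hence
`S = {d j x | 0 ≤ j < |k|}`. A finite set is closed (T1), so `S = univ` by minimality; this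
contradicts `Infinite X`.
`fix_odd` is a restatement. `fix_unique`: both `k`, `l` are odd by `even_free`; then
`d k (d l x) = x` and `d k * d l = d (l - k)` (`d_mul_odd`) with `l - k` even, so `l = k`.
`exists_free`: take any point `y` (`X` is infinite, so nonempty). If no `k ≠ 0` has `d k y = y`, take
`x = y`. Otherwise let `k₀` be the unique such (odd) `k`, and put `x = d j y` with `j` even and so
large that `|k₀ - 2 j| > K` (e.g. `j = -(|k₀| + K + 1)` doubled: `j = 2 * (|k₀| + K + 1)`). If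
`d k x = x` with `0 < |k| ≤ K` then `k` is odd by `even_free`, `d k (d j y) = d (j + k) y = d j y`,
and applying `(d j)⁻¹ = d (-j)`: `d (-j) * d (j + k) = d (j + k + j)` (`j + k` is odd), so
`d (2 j + k) y = y`, and `2 j + k ≠ 0`, hence `2 j + k = k₀` by `fix_unique`: contradiction.
`exists_marker`: let `x` be as in `exists_free`. For each of the finitely many `k` with
`0 < |k| ≤ K` choose a clopen `P k ∋ x` with `d k x ∉ P k`, let `P` be the intersection and
`C = {y ∈ P | ∀ k, k ≠ 0 → |k| ≤ K → d k y ∉ P}`: finite intersections of clopen sets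
(`isClopen_biInter_finset` or `Set.Finite.isClopen_biInter`), index set `Finset.Icc (-K) K`.
-/

open Topology

namespace Pool.Agent.NekF

variable {X : Type} [TopologicalSpace X] {a b : X ≃ₜ X}

private theorem app_even (ha : a * a = 1) (hb : b * b = 1) {k : ℤ} (hk : Even k) (j : ℤ)
    (x : X) : d a b j (d a b k x) = d a b (k + j) x := by
  rw [← d_mul_even ha hb hk j]; rfl

private theorem app_odd (ha : a * a = 1) (hb : b * b = 1) {k : ℤ} (hk : ¬ Even k) (j : ℤ)
    (x : X) : d a b j (d a b k x) = d a b (k - j) x := by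
  rw [← d_mul_odd ha hb hk j]; rfl

private theorem d_mem_range (ha : a * a = 1) (hb : b * b = 1) (i j : ℤ) (x : X) :
    d a b i (d a b j x) ∈ Set.range (fun l : ℤ => d a b l x) := by
  by_cases hj : Even j
  · exact ⟨j + i, (app_even ha hb hj i x).symm⟩
  · exact ⟨j - i, (app_odd ha hb hj i x).symm⟩

theorem even_free [T2Space X] [Infinite X] (ha : a * a = 1) (hb : b * b = 1)
    (hmin : Minimal a b) {k : ℤ} (hk : Even k) (hk0 : k ≠ 0) (x : X) : d a b k x ≠ x := by
  intro hx
  have hper : Function.Periodic (fun l : ℤ => d a b l x) k := by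
    intro j
    change d a b (j + k) x = d a b j x
    rw [add_comm, ← app_even ha hb hk j x, hx]
  have hfin : (Set.range (fun l : ℤ => d a b l x)).Finite := by
    refine ((Set.finite_Ico (0 : ℤ) |k|).image (fun l : ℤ => d a b l x)).subset ?_
    rintro _ ⟨j, rfl⟩
    refine ⟨j % k, ⟨Int.emod_nonneg j hk0, Int.emod_lt_abs j hk0⟩, ?_⟩
    have h1 := hper.int_mul (j / k) (j % k)
    have h2 : j % k + (j / k) * k = j := by
      rw [Int.emod_def]; ring
    have h3 : (fun l : ℤ => d a b l x) (j % k + (j / k) * k) =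
        (fun l : ℤ => d a b l x) (j % k) := by
      simpa using h1
    rw [h2] at h3
    exact h3.symm
  have huniv : Set.range (fun l : ℤ => d a b l x) = Set.univ := by
    refine hmin _ hfin.isClosed (Set.range_nonempty _) ?_
    rintro _ ⟨j, rfl⟩
    refine ⟨?_, ?_⟩
    · have h := d_mem_range ha hb 1 j x
      rw [d_one] at h
      exact h
    · have h := d_mem_range ha hb (-1) j x
      rw [d_neg_one ha hb] at h
      exact h
  rw [huniv] at hfin
  exact Set.infinite_univ hfin

theorem fix_odd [T2Space X] [Infinite X] (ha : a * a = 1) (hb : b * b = 1)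
    (hmin : Minimal a b) {k : ℤ} (hk0 : k ≠ 0) {x : X} (h : d a b k x = x) : ¬ Even k :=
  fun hk => even_free ha hb hmin hk hk0 x h

theorem fix_unique [T2Space X] [Infinite X] (ha : a * a = 1) (hb : b * b = 1)
    (hmin : Minimal a b) {k l : ℤ} (hk0 : k ≠ 0) (hl0 : l ≠ 0) {x : X} (h : d a b k x = x)
    (h' : d a b l x = x) : k = l := by
  have hk := fix_odd ha hb hmin hk0 h
  have hl := fix_odd ha hb hmin hl0 h'
  have h1 : d a b (l - k) x = x := by
    rw [← app_odd ha hb hl k x, h', h]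
  by_contra hne
  refine even_free ha hb hmin ?_ (sub_ne_zero.2 (Ne.symm hne)) x h1
  rw [Int.not_even_iff_odd] at hk hl
  exact hl.sub_odd hk

theorem exists_free [T2Space X] [Infinite X] (ha : a * a = 1) (hb : b * b = 1)
    (hmin : Minimal a b) (K : ℕ) : ∃ x : X, ∀ k : ℤ, k ≠ 0 → |k| ≤ K → d a b k x ≠ x := by
  obtain ⟨y⟩ : Nonempty X := inferInstance
  by_cases hy : ∀ k : ℤ, k ≠ 0 → d a b k y ≠ y
  · exact ⟨y, fun k hk _ => hy k hk⟩
  · push Not at hy
    obtain ⟨m, hm0, hm⟩ := hy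
    obtain ⟨n, hn⟩ : ∃ n : ℤ, n = |m| + K + 1 := ⟨_, rfl⟩
    have hn1 : |m| < n := by
      have : (0 : ℤ) ≤ K := Int.natCast_nonneg K
      omega
    have hn2 : (K : ℤ) < n := by
      have := abs_nonneg m
      omega
    have hje : Even (2 * n) := even_two_mul n
    refine ⟨d a b (2 * n) y, fun k hk0 hkK hk => ?_⟩
    have hko := fix_odd ha hb hmin hk0 hk
    rw [app_even ha hb hje k y] at hk
    have hodd : ¬ Even (2 * n + k) := by
      intro h
      exact hko ((Int.even_add.1 h).1 hje)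
    have h1 : d a b (-(2 * n)) (d a b (2 * n + k) y) = y := by
      rw [hk, app_even ha hb hje, add_neg_cancel, d_zero]; rfl
    rw [app_odd ha hb hodd] at h1
    have h2 : 2 * n + k - -(2 * n) ≠ 0 := by
      intro h
      have := abs_le.1 hkK
      have hn3 : (0 : ℤ) ≤ n := le_trans (abs_nonneg m) hn1.le
      omega
    have h3 := fix_unique ha hb hmin h2 hm0 h1 hm
    have h4 := abs_le.1 hkK
    have h5 := le_abs_self m
    omega

theorem exists_marker [CompactSpace X] [T2Space X] [TotallyDisconnectedSpace X] [Infinite X]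
    (ha : a * a = 1) (hb : b * b = 1) (hmin : Minimal a b) (K : ℕ) :
    ∃ C : Set X, IsClopen C ∧ C.Nonempty ∧
      ∀ k : ℤ, k ≠ 0 → |k| ≤ K → ∀ x ∈ C, d a b k x ∉ C := by
  classical
  obtain ⟨x, hx⟩ := exists_free ha hb hmin K
  have hts : TotallySeparatedSpace X := inferInstance
  have hP : ∀ k : ℤ, ∃ P : Set X, IsClopen P ∧ x ∈ P ∧ (k ≠ 0 → |k| ≤ K → d a b k x ∉ P) := by
    intro k
    by_cases hk : k ≠ 0 ∧ |k| ≤ K
    · obtain ⟨U, hU, h1, h2⟩ := exists_isClopen_of_totally_separated (hx k hk.1 hk.2).symm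
      exact ⟨U, hU, h1, fun _ _ => h2⟩
    · exact ⟨Set.univ, isClopen_univ, Set.mem_univ x, fun h1 h2 => absurd ⟨h1, h2⟩ hk⟩
  choose P hPc hPx hPk using hP
  obtain ⟨Q, hQ⟩ : ∃ Q : Set X, Q = ⋂ k ∈ Set.Icc (-(K : ℤ)) K, P k := ⟨_, rfl⟩
  have hfin : (Set.Icc (-(K : ℤ)) K).Finite := Set.finite_Icc _ _
  have hQc : IsClopen Q := by
    rw [hQ]
    exact hfin.isClopen_biInter fun k _ => hPc k
  have hQx : x ∈ Q := by
    rw [hQ]
    exact Set.mem_iInter₂.2 fun k _ => hPx k
  have hQP : ∀ k : ℤ, |k| ≤ K → Q ⊆ P k := by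
    intro k hk
    rw [hQ]
    exact Set.biInter_subset_of_mem (abs_le.1 hk)
  obtain ⟨C, hC⟩ : ∃ C : Set X, C = Q ∩ ⋂ k ∈ Set.Icc (-(K : ℤ)) K,
      {y : X | k ≠ 0 → d a b k y ∉ Q} := ⟨_, rfl⟩
  refine ⟨C, ?_, ⟨x, ?_⟩, ?_⟩
  · rw [hC]
    refine hQc.inter (hfin.isClopen_biInter fun k _ => ?_)
    by_cases hk : k = 0
    · have : {y : X | k ≠ 0 → d a b k y ∉ Q} = Set.univ :=
        Set.eq_univ_of_forall fun y h => absurd hk h
      rw [this]
      exact isClopen_univ
    · have : {y : X | k ≠ 0 → d a b k y ∉ Q} = ((fun z : X => d a b k z) ⁻¹' Q)ᶜ := by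
        ext y
        simp [hk]
      rw [this]
      exact (hQc.preimage (d a b k).continuous).compl
  · rw [hC]
    refine ⟨hQx, Set.mem_iInter₂.2 fun k hk hk0 h => ?_⟩
    have hk' : |k| ≤ K := abs_le.2 hk
    exact hPk k hk0 hk' (hQP k hk' h)
  · intro k hk0 hkK y hy h
    rw [hC] at hy h
    exact Set.mem_iInter₂.1 hy.2 k (abs_le.1 hkK) hk0 h.1

end Pool.Agent.NekF
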