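import Pool.Agent.NekF.FD

/-!
# NF-Lev: the wreath product acting on a level

A level system: a clopen set `U`, finitely many elements `r c` of the full group with `r c '' U`
pairwise disjoint, and a group `K` of elements of the full group supported in `U`. The wreath product
`Wr I K` acts: `r c u ↦ r (σ c) (v (σ c) u)` for `u ∈ U`, and identity elsewhere.

PLAN for `exists_levelHom`. For `w : Wr I L.K` define `fw : X → X` by cases: if `x = r c u` for some
`c` and `u ∈ U` (such `c`, `u` are unique: by `disj`, and `r c` is injective; `u = (r c)⁻¹ x`) then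
`fw x = r (w.right c) (w.left (w.right c) u)`, otherwise `fw x = x`. Elements of `K` map `U` to `U`
(if `k u ∉ U` then `k (k u) = k u`, so `k u = u ∈ U`). Hence `f (w * w') = f w ∘ f w'`
(`(w * w').right = w.right * w'.right`,
`(w * w').left c = w.left c * w'.left (w.right⁻¹ c)`, so at `c' = w.right (w'.right c)` we get
`w.left c' * w'.left (w'.right c)`) and `f 1 = id`; so every `f w` is bijective. Locally `f w` is the
element `r (σ c) * w.left (σ c) * (r c)⁻¹` of the full group on the open set `r c '' U`, and `1` on the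
complement of the finite union of the clopen sets `r c '' U`. So `exists_homeo` gives `F w`, and
`F` is multiplicative because `f` is.
Good elements: `(F w) ^ 3 = F (w ^ 3) = 1`, the support of `F w` is the union of the `r c '' U` with
`w.right c ≠ c` (all its points are moved to another `r c' '' U`; if `w.right c = c` then
`w.left c = 1`, so `F w` is the identity on `r c '' U`): clopen.
Even permutations: `Equiv.Perm.closure_three_cycles_eq_alternating`: an even permutation is a product
of 3-cycles, for a 3-cycle `τ` (`τ ^ 3 = 1`) `inr τ` is good, so `F (inr τ)` is `Tri`, so it is in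
`alt G` (`tri_mem_alt`); use `Subgroup.closure_induction` or `Subgroup.closure_le` with the
preimage of `alt G` under `F.comp inr`.
-/

open Topology

namespace Pool.Agent.NekF

variable {X : Type} [TopologicalSpace X]

/-- a level system -/
structure LevelSys (G : Subgroup (X ≃ₜ X)) (I : Type) where
  /-- the base -/
  U : Set X
  /-- the translations -/
  r : I → (X ≃ₜ X)
  /-- the group acting on the base -/
  K : Subgroup (X ≃ₜ X)
  clopen : IsClopen U
  r_mem : ∀ c, r c ∈ full G
  disj : ∀ c c', c ≠ c' → ∀ u ∈ U, ∀ u' ∈ U, r c u ≠ r c' u'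
  K_le : K ≤ full G
  K_supp : ∀ k ∈ K, ∀ x, x ∉ U → k x = x

variable {G : Subgroup (X ≃ₜ X)} {I : Type}

private theorem lv_uniq (L : LevelSys G I) {x : X} {c c' : I} (h : (L.r c)⁻¹ x ∈ L.U)
    (h' : (L.r c')⁻¹ x ∈ L.U) : c = c' := by
  by_contra hne
  exact L.disj c c' hne _ h _ h' (by rw [app_inv_self, app_inv_self])

private theorem lv_K (L : LevelSys G I) {k : X ≃ₜ X} (hk : k ∈ L.K) {u : X} (hu : u ∈ L.U) :
    k u ∈ L.U := by
  by_contra h
  have h1 := L.K_supp k hk _ h
  exact h (by rw [k.injective h1]; exact hu)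

open Classical in
/-- the action of the wreath product as a function -/
private noncomputable def lv_act (L : LevelSys G I) (w : Wr I L.K) (x : X) : X :=
  if h : ∃ c : I, (L.r c)⁻¹ x ∈ L.U then
    L.r (w.right h.choose) ((w.left (w.right h.choose) : X ≃ₜ X) ((L.r h.choose)⁻¹ x))
  else x

private theorem lv_act_of (L : LevelSys G I) (w : Wr I L.K) {x : X} {c : I}
    (h : (L.r c)⁻¹ x ∈ L.U) :
    lv_act L w x = L.r (w.right c) ((w.left (w.right c) : X ≃ₜ X) ((L.r c)⁻¹ x)) := by
  have h0 : ∃ c : I, (L.r c)⁻¹ x ∈ L.U := ⟨c, h⟩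
  have hc : h0.choose = c := lv_uniq L h0.choose_spec h
  rw [lv_act, dif_pos h0, hc]

private theorem lv_act_r (L : LevelSys G I) (w : Wr I L.K) {u : X} (hu : u ∈ L.U) (c : I) :
    lv_act L w (L.r c u) = L.r (w.right c) ((w.left (w.right c) : X ≃ₜ X) u) := by
  have h : (L.r c)⁻¹ (L.r c u) ∈ L.U := by rwa [inv_app_self]
  rw [lv_act_of L w h, inv_app_self]

private theorem lv_act_out (L : LevelSys G I) (w : Wr I L.K) {x : X}
    (h : ∀ c, (L.r c)⁻¹ x ∉ L.U) : lv_act L w x = x := by
  have h0 : ¬ ∃ c : I, (L.r c)⁻¹ x ∈ L.U := fun ⟨c, hc⟩ => h c hc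
  rw [lv_act, dif_neg h0]

private theorem lv_act_one (L : LevelSys G I) (x : X) : lv_act L 1 x = x := by
  by_cases h : ∃ c : I, (L.r c)⁻¹ x ∈ L.U
  · obtain ⟨c, hc⟩ := h
    rw [lv_act_of L 1 hc]
    show L.r c ((L.r c)⁻¹ x) = x
    exact app_inv_self _ _
  · exact lv_act_out L 1 fun c hc => h ⟨c, hc⟩

private theorem lv_act_mul (L : LevelSys G I) (w w' : Wr I L.K) (x : X) :
    lv_act L (w * w') x = lv_act L w (lv_act L w' x) := by
  by_cases h : ∃ c : I, (L.r c)⁻¹ x ∈ L.U
  · obtain ⟨c, hc⟩ := h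
    have hk : (w'.left (w'.right c) : X ≃ₜ X) ((L.r c)⁻¹ x) ∈ L.U :=
      lv_K L (w'.left (w'.right c)).2 hc
    rw [lv_act_of L (w * w') hc, lv_act_of L w' hc, lv_act_r L w hk]
    have h1 : (w * w').right c = w.right (w'.right c) := rfl
    have h2 : (w * w').left (w.right (w'.right c)) =
        w.left (w.right (w'.right c)) * w'.left (w'.right c) := by
      show w.left (w.right (w'.right c)) * w'.left (w.right⁻¹ (w.right (w'.right c))) = _
      rw [show w.right⁻¹ (w.right (w'.right c)) = w'.right c from w.right.symm_apply_apply _]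
    rw [h1, h2]
    rfl
  · have h' : ∀ c, (L.r c)⁻¹ x ∉ L.U := fun c hc => h ⟨c, hc⟩
    rw [lv_act_out L w' h', lv_act_out L w h', lv_act_out L (w * w') h']

private theorem lv_bij (L : LevelSys G I) (w : Wr I L.K) : Function.Bijective (lv_act L w) := by
  constructor
  · intro x y hxy
    have h := congrArg (lv_act L w⁻¹) hxy
    rwa [← lv_act_mul, ← lv_act_mul, inv_mul_cancel, lv_act_one, lv_act_one] at h
  · intro y
    exact ⟨lv_act L w⁻¹ y, by rw [← lv_act_mul, mul_inv_cancel, lv_act_one]⟩

private theorem lv_clopen (L : LevelSys G I) (c : I) : IsClopen {x | (L.r c)⁻¹ x ∈ L.U} :=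
  L.clopen.preimage (L.r c)⁻¹.continuous

private theorem lv_local [Finite I] (L : LevelSys G I) (w : Wr I L.K) (x : X) :
    ∃ g ∈ full G, ∀ᶠ y in 𝓝 x, lv_act L w y = g y := by
  by_cases h : ∃ c : I, (L.r c)⁻¹ x ∈ L.U
  · obtain ⟨c, hc⟩ := h
    refine ⟨L.r (w.right c) * (w.left (w.right c) : X ≃ₜ X) * (L.r c)⁻¹,
      (full G).mul_mem ((full G).mul_mem (L.r_mem _) (L.K_le (w.left (w.right c)).2))
        ((full G).inv_mem (L.r_mem c)), ?_⟩
    filter_upwards [(lv_clopen L c).isOpen.mem_nhds hc] with y hy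
    rw [lv_act_of L w hy]
    rfl
  · refine ⟨1, (full G).one_mem, ?_⟩
    have hcl : IsClosed (⋃ c : I, {y | (L.r c)⁻¹ y ∈ L.U}) :=
      isClosed_iUnion_of_finite fun c => (lv_clopen L c).isClosed
    have hx : x ∈ (⋃ c : I, {y | (L.r c)⁻¹ y ∈ L.U})ᶜ := by
      intro hx
      obtain ⟨c, hc⟩ := Set.mem_iUnion.1 hx
      exact h ⟨c, hc⟩
    filter_upwards [hcl.isOpen_compl.mem_nhds hx] with y hy
    rw [lv_act_out L w fun c hc => hy (Set.mem_iUnion.2 ⟨c, hc⟩)]
    rfl

theorem exists_levelHom [CompactSpace X] [T2Space X] [TotallyDisconnectedSpace X]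
    {G : Subgroup (X ≃ₜ X)} {I : Type} [Fintype I] [DecidableEq I] (L : LevelSys G I) :
    ∃ F : Wr I L.K →* (X ≃ₜ X),
      (∀ w c, ∀ u ∈ L.U,
        F w (L.r c u) = L.r (w.right c) ((w.left (w.right c) : X ≃ₜ X) u)) ∧
      (∀ w x, (∀ c, ∀ u ∈ L.U, x ≠ L.r c u) → F w x = x) ∧
      (∀ w, Good w → Tri G (F w)) ∧
      ∀ σ : Equiv.Perm I, Equiv.Perm.sign σ = 1 → F (SemidirectProduct.inr σ) ∈ alt G := by
  have hex : ∀ w : Wr I L.K, ∃ F ∈ full G, ∀ x, F x = lv_act L w x := fun w =>
    exists_homeo G _ (lv_bij L w) (lv_local L w)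
  choose f hf hfx using hex
  let F : Wr I L.K →* (X ≃ₜ X) :=
    { toFun := f
      map_one' := by
        ext x
        rw [hfx, lv_act_one]
        rfl
      map_mul' := fun w w' => by
        ext x
        rw [mul_app, hfx, hfx, hfx, lv_act_mul] }
  have hF : ∀ w x, F w x = lv_act L w x := hfx
  have hgood : ∀ w, Good w → Tri G (F w) := by
    intro w hw
    refine ⟨hf w, by rw [← map_pow, hw.1, map_one], ?_⟩
    have hs : {x | F w x ≠ x} =
        ⋃ c ∈ {c : I | w.right c ≠ c}, {x | (L.r c)⁻¹ x ∈ L.U} := by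
      ext x
      simp only [Set.mem_iUnion, exists_prop]
      constructor
      · intro hx
        have hx' : F w x ≠ x := hx
        by_cases h : ∃ c : I, (L.r c)⁻¹ x ∈ L.U
        · obtain ⟨c, hc⟩ := h
          refine ⟨c, ?_, hc⟩
          intro hwc
          apply hx'
          rw [hF, lv_act_of L w hc, hwc, hw.2 c hwc]
          exact app_inv_self _ _
        · exact absurd ((hF w x).trans (lv_act_out L w fun c hc => h ⟨c, hc⟩)) hx'
      · rintro ⟨c, hwc, hc⟩
        show F w x ≠ x
        intro hx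
        rw [hF, lv_act_of L w hc] at hx
        refine L.disj (w.right c) c hwc _ (lv_K L (w.left (w.right c)).2 hc) _ hc ?_
        rw [hx, app_inv_self]
    rw [hs]
    exact (Set.toFinite _).isClopen_biUnion fun c _ => lv_clopen L c
  refine ⟨F, ?_, ?_, hgood, ?_⟩
  · intro w c u hu
    rw [hF, lv_act_r L w hu]
  · intro w x hx
    rw [hF]
    exact lv_act_out L w fun c hc => hx c _ hc (app_inv_self _ _).symm
  · intro σ hσ
    have h1 : σ ∈ alternatingGroup I := Equiv.Perm.mem_alternatingGroup.2 hσ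
    rw [← Equiv.Perm.closure_three_cycles_eq_alternating] at h1
    have h2 : Subgroup.closure {τ : Equiv.Perm I | τ.IsThreeCycle} ≤
        (alt G).comap (F.comp SemidirectProduct.inr) := by
      rw [Subgroup.closure_le]
      intro τ hτ
      have h3 : τ ^ 3 = 1 := by
        have h4 : orderOf τ = 3 := Equiv.Perm.IsThreeCycle.orderOf hτ
        rw [← h4]
        exact pow_orderOf_eq_one τ
      refine tri_mem_alt (hgood _ ⟨?_, ?_⟩)
      · rw [← map_pow, h3, map_one]
      · intro c _
        rfl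
    exact h2 h1

end Pool.Agent.NekF
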