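import Pool.Agent.NekF.Basic

/-!
# NF-Line: the elements `d k` of the dihedral group

With `T = b * a`: `d (2 m) = T ^ m`, `d (2 m + 1) = a * T ^ m` (for `m : ℤ`; note that
`(2 * m) / 2 = m` and `(2 * m + 1) / 2 = m` for the division of integers). `a * T * a = a * b = T⁻¹`
(from `a * a = 1`, `b * b = 1`), hence `a * T ^ m * a = T ^ (-m)`, i.e. `T ^ m * a = a * T ^ (-m)`.
Then for even `k = 2 m`: `d (2 n) * d (2 m) = T ^ (n + m)`, `d (2 n + 1) * d (2 m) = a T ^ (n + m)`;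
for odd `k = 2 m + 1`: `d (2 n) * d (2 m + 1) = T ^ n a T ^ m = a T ^ (m - n)`,
`d (2 n + 1) * d (2 m + 1) = a T ^ n a T ^ m = T ^ (m - n)`.
-/

namespace Pool.Agent.NekF

variable {Γ : Type} [Group Γ] {a b : Γ}

private theorem d_ev (a b : Γ) (m : ℤ) : d a b (2 * m) = (b * a) ^ m := by
  unfold d
  rw [if_pos (even_two_mul m), show (2 * m) / 2 = m by omega]

private theorem d_od (a b : Γ) (m : ℤ) : d a b (2 * m + 1) = a * (b * a) ^ m := by
  unfold d
  rw [if_neg (by rw [Int.not_even_iff_odd]; exact odd_two_mul_add_one m),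
    show (2 * m + 1) / 2 = m by omega]

private theorem T_conj (ha : a * a = 1) (hb : b * b = 1) (m : ℤ) :
    (b * a) ^ m * a = a * (b * a) ^ (-m) := by
  have ha' : a⁻¹ = a := inv_eq_of_mul_eq_one_left ha
  have hb' : b⁻¹ = b := inv_eq_of_mul_eq_one_left hb
  have h1 : a * (b * a) * a⁻¹ = (b * a)⁻¹ := by
    rw [mul_inv_rev, ha', hb']
    calc a * (b * a) * a = a * b * (a * a) := by group
      _ = a * b := by rw [ha, mul_one]
  have h2 : a * (b * a) ^ (-m) * a⁻¹ = (b * a) ^ m := by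
    rw [← conj_zpow, h1, zpow_neg, inv_zpow, inv_inv]
  rw [← h2]
  group

theorem d_zero : d a b 0 = 1 := by
  have := d_ev a b 0
  simpa using this

theorem d_one : d a b 1 = a := by
  have := d_od a b 0
  simpa using this

theorem d_neg_one (ha : a * a = 1) (hb : b * b = 1) : d a b (-1) = b := by
  have := d_od a b (-1)
  rw [show (2 : ℤ) * (-1) + 1 = -1 by norm_num] at this
  rw [this, zpow_neg_one, mul_inv_rev, inv_eq_of_mul_eq_one_left ha,
    inv_eq_of_mul_eq_one_left hb, ← mul_assoc, ha, one_mul]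

theorem d_mul_even (ha : a * a = 1) (hb : b * b = 1) {k : ℤ} (hk : Even k) (j : ℤ) :
    d a b j * d a b k = d a b (k + j) := by
  have _ := ha
  have _ := hb
  obtain ⟨m, rfl⟩ := hk.two_dvd
  rcases Int.even_or_odd' j with ⟨n, rfl | rfl⟩
  · rw [d_ev, d_ev, ← mul_add, d_ev, ← zpow_add, add_comm]
  · rw [d_od, d_ev, show 2 * m + (2 * n + 1) = 2 * (n + m) + 1 by ring, d_od, mul_assoc,
      ← zpow_add]

theorem d_mul_odd (ha : a * a = 1) (hb : b * b = 1) {k : ℤ} (hk : ¬ Even k) (j : ℤ) :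
    d a b j * d a b k = d a b (k - j) := by
  rw [Int.not_even_iff_odd] at hk
  obtain ⟨m, rfl⟩ := hk
  rcases Int.even_or_odd' j with ⟨n, rfl | rfl⟩
  · rw [d_ev, d_od, show 2 * m + 1 - 2 * n = 2 * (-n + m) + 1 by ring, d_od, ← mul_assoc,
      T_conj ha hb, mul_assoc, ← zpow_add]
  · rw [d_od, d_od, show 2 * m + 1 - (2 * n + 1) = 2 * (-n + m) by ring, d_ev, ← mul_assoc,
      mul_assoc a, T_conj ha hb, ← mul_assoc, ha, one_mul, ← zpow_add]

theorem d_inv_even (ha : a * a = 1) (hb : b * b = 1) {k : ℤ} (hk : Even k) :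
    (d a b k)⁻¹ = d a b (-k) := by
  apply inv_eq_of_mul_eq_one_left
  rw [d_mul_even ha hb hk, add_neg_cancel, d_zero]

theorem d_inv_odd (ha : a * a = 1) (hb : b * b = 1) {k : ℤ} (hk : ¬ Even k) :
    (d a b k)⁻¹ = d a b k := by
  apply inv_eq_of_mul_eq_one_left
  rw [d_mul_odd ha hb hk, sub_self, d_zero]

/-- the dihedral group acts on the positions by `k ↦ k + s j` -/
theorem d_mul (ha : a * a = 1) (hb : b * b = 1) (k : ℤ) :
    ∃ s : ℤ, (s = 1 ∨ s = -1) ∧ ∀ j : ℤ, d a b j * d a b k = d a b (k + s * j) := by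
  by_cases hk : Even k
  · exact ⟨1, Or.inl rfl, fun j => by rw [d_mul_even ha hb hk, one_mul]⟩
  · exact ⟨-1, Or.inr rfl, fun j => by
      rw [d_mul_odd ha hb hk, show k + -1 * j = k - j by ring]⟩

theorem d_inv (ha : a * a = 1) (hb : b * b = 1) (k : ℤ) :
    ∃ l : ℤ, |l| = |k| ∧ (d a b k)⁻¹ = d a b l := by
  by_cases hk : Even k
  · exact ⟨-k, abs_neg k, d_inv_even ha hb hk⟩
  · exact ⟨k, rfl, d_inv_odd ha hb hk⟩

/-- applied form of `d_mul`: the point at position `l` is `d (s (l - k))` applied to the point at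
position `k` -/
theorem d_move {X : Type} [TopologicalSpace X] {a b : X ≃ₜ X} (ha : a * a = 1) (hb : b * b = 1)
    (k : ℤ) : ∃ s : ℤ, (s = 1 ∨ s = -1) ∧ (∀ (j : ℤ) (x : X),
      d a b j (d a b k x) = d a b (k + s * j) x) ∧
      ∀ (l : ℤ) (x : X), d a b l x = d a b (s * (l - k)) (d a b k x) := by
  obtain ⟨s, hs, h⟩ := d_mul ha hb k
  have h1 : ∀ (j : ℤ) (x : X), d a b j (d a b k x) = d a b (k + s * j) x := fun j x => by
    rw [← h j]; rfl
  refine ⟨s, hs, h1, fun l x => ?_⟩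
  rw [h1]
  congr 2
  rcases hs with rfl | rfl <;> ring

end Pool.Agent.NekF
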