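import Pool.Agent.NekF.WDiag

/-!
# NF-WLen: the width of the group generated by the good elements of the wreath product

PLAN. Reduce to a `CommGroup` structure:
`obtain ⟨c, rfl⟩ : ∃ c : CommGroup K, c.toGroup = ‹Group K› := ⟨{ ‹Group K› with mul_comm := hK }, rfl⟩`.
Also fix `Fintype I`, `DecidableEq I` (classical). Let `w = (v, σ)` be good.
(a) `sign σ = 1`: `σ ^ 3 = 1` (the `right` component of `w ^ 3 = 1`), so `sign σ ^ 3 = 1` in
`ℤˣ`.
(b) `∏ c, v c = 1`: `w ^ 3 = 1` says `v c * v (σ⁻¹ c) * v (σ⁻¹ (σ⁻¹ c)) = 1` for all `c`. Use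
`Finset.prod_cancels_of_partition_cancels` with the setoid `Equiv.Perm.SameCycle.setoid σ`: the class
of `c` is `{c}` if `σ c = c` (and then `v c = 1`) and it is `{c, σ⁻¹ c, σ⁻¹ (σ⁻¹ c)}`, three distinct
points, if `σ c ≠ c` (as `σ ^ 3 = 1`).
(c) The map `w ↦ sign w.right` and the map `w ↦ ∏ c, w.left c` are homomorphisms to commutative
groups (`Fintype.prod_equiv` / `Equiv.prod_comp` for the second one), so (a) and (b) hold for all
elements of `Subgroup.closure {w | Good w}` (`Subgroup.closure_induction`).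
(d) If `Fintype.card I ≤ 2` then a good element is `1`: `σ ^ 3 = 1` and `σ ^ 2 = 1` (the order of
`Equiv.Perm I` divides 2: `Fintype.card_perm`, `pow_card_eq_one`), so `σ = 1` and all the points are
fixed, `v = 1`. So the closure is trivial and `w = 1`.
(e) If `3 ≤ Fintype.card I`: `w = inl w.left * inr w.right` (`SemidirectProduct.inl_left_mul_inr_right`),
`inl w.left` is a product of at most 14 good elements (`diag_len`), `inr w.right` of at most 6
(`perm_len` and `len_map` with `SemidirectProduct.inr`; `inr τ` is good if `τ ^ 3 = 1`).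
-/

namespace Pool.Agent.NekF

open Pool.Agent.VW (Len)

private theorem cube_left {I K : Type} [Group K] (w : Wr I K) (h : w ^ 3 = 1) (c : I) :
    w.left c * (w.left (w.right⁻¹ c) * w.left (w.right⁻¹ (w.right⁻¹ c))) = 1 := by
  have h1 : w * (w * w) = 1 := by rw [← h, pow_succ, pow_two, mul_assoc]
  exact congrArg (fun z : Wr I K => z.left c) h1

private theorem cube_right {I K : Type} [Group K] (w : Wr I K) (h : w ^ 3 = 1) :
    w.right ^ 3 = 1 := by
  have h1 := congrArg (SemidirectProduct.rightHom : Wr I K →* Equiv.Perm I) h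
  rw [map_pow, map_one] at h1
  exact h1

private theorem perm_cube_inv {I : Type} {σ : Equiv.Perm I} (h : σ ^ 3 = 1) (x : I) :
    σ⁻¹ (σ⁻¹ (σ⁻¹ x)) = x := by
  have h1 : (σ⁻¹) ^ 3 = 1 := by rw [inv_pow, h, inv_one]
  have h2 : ((σ⁻¹) ^ 3) x = x := by rw [h1]; rfl
  simpa [pow_succ] using h2

private theorem sameCycle_cube {I : Type} {σ : Equiv.Perm I} (h : σ ^ 3 = 1) {a c : I}
    (hs : σ.SameCycle a c) : a = c ∨ a = σ⁻¹ c ∨ a = σ⁻¹ (σ⁻¹ c) := by
  obtain ⟨i, hi⟩ := hs
  have h1 : a = (σ ^ (-i)) c := by
    rw [← hi, ← Equiv.Perm.mul_apply, ← zpow_add]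
    simp
  have h3 : (σ⁻¹) ^ 3 = 1 := by rw [inv_pow, h, inv_one]
  have h2 : (σ⁻¹) ^ i = (σ⁻¹) ^ (i % 3) := by
    conv_lhs => rw [← Int.emod_add_mul_ediv i 3]
    rw [zpow_add, zpow_mul]
    have : (σ⁻¹) ^ (3 : ℤ) = 1 := by exact_mod_cast h3
    rw [this, one_zpow, mul_one]
  rw [zpow_neg, ← inv_zpow, h2] at h1
  have h4 : i % 3 = 0 ∨ i % 3 = 1 ∨ i % 3 = 2 := by omega
  rcases h4 with h4 | h4 | h4
  · left; rw [h1, h4]; rfl
  · right; left; rw [h1, h4]; simp
  · right; right; rw [h1, h4]
    have : (σ⁻¹) ^ (2 : ℤ) = σ⁻¹ * σ⁻¹ := by rw [zpow_ofNat, pow_two]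
    rw [this]; rfl

private theorem prod_good {I K : Type} [Fintype I] [DecidableEq I] [CommGroup K] (w : Wr I K)
    (h : Good w) : ∏ c, w.left c = 1 := by
  classical
  have h3 := cube_right w h.1
  have hi : ∀ x, w.right⁻¹ (w.right⁻¹ (w.right⁻¹ x)) = x := perm_cube_inv h3
  apply Finset.prod_cancels_of_partition_cancels (Equiv.Perm.SameCycle.setoid w.right)
  intro c _
  by_cases hc : w.right c = c
  · have hc' : w.right⁻¹ c = c := by
      rw [Equiv.Perm.inv_eq_iff_eq]; exact hc.symm
    have h1 : (Finset.univ.filter fun a => (Equiv.Perm.SameCycle.setoid w.right) a c) = {c} := by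
      ext a
      simp only [Finset.mem_filter, Finset.mem_univ, true_and, Finset.mem_singleton]
      constructor
      · intro ha
        rcases sameCycle_cube h3 ha with h4 | h4 | h4
        · exact h4
        · rw [h4, hc']
        · rw [h4, hc', hc']
      · rintro rfl
        exact Equiv.Perm.SameCycle.refl _ _
    rw [h1, Finset.prod_singleton]
    exact h.2 c hc
  · have hc' : w.right⁻¹ c ≠ c := by
      intro h4
      apply hc
      rw [Equiv.Perm.inv_eq_iff_eq] at h4
      exact h4.symm
    have h12 : w.right⁻¹ (w.right⁻¹ c) ≠ w.right⁻¹ c := fun h4 =>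
      hc' ((w.right⁻¹).injective h4)
    have h02 : w.right⁻¹ (w.right⁻¹ c) ≠ c := by
      intro h4
      have h5 := hi c
      rw [h4] at h5
      exact hc' h5
    have h1 : (Finset.univ.filter fun a => (Equiv.Perm.SameCycle.setoid w.right) a c) =
        {c, w.right⁻¹ c, w.right⁻¹ (w.right⁻¹ c)} := by
      ext a
      simp only [Finset.mem_filter, Finset.mem_univ, true_and, Finset.mem_insert,
        Finset.mem_singleton]
      constructor
      · intro ha
        exact sameCycle_cube h3 ha
      · rintro (rfl | rfl | rfl)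
        · exact Equiv.Perm.SameCycle.refl _ _
        · exact ⟨1, by simp⟩
        · exact ⟨2, by
            have : w.right ^ (2 : ℤ) = w.right * w.right := by rw [zpow_ofNat, pow_two]
            rw [this]
            simp⟩
    rw [h1, Finset.prod_insert, Finset.prod_insert, Finset.prod_singleton]
    · exact cube_left w h.1 c
    · simp only [Finset.mem_singleton]
      exact fun h4 => h12 h4.symm
    · simp only [Finset.mem_insert, Finset.mem_singleton]
      rintro (h4 | h4)
      · exact hc' h4.symm
      · exact h02 h4.symm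

private theorem sign_cube {I : Type} [Fintype I] [DecidableEq I] {σ : Equiv.Perm I}
    (h : σ ^ 3 = 1) : Equiv.Perm.sign σ = 1 := by
  have h1 : Equiv.Perm.sign σ ^ 3 = 1 := by rw [← map_pow, h, map_one]
  rcases Int.units_eq_one_or (Equiv.Perm.sign σ) with h2 | h2
  · exact h2
  · rw [h2] at h1
    exact absurd h1 (by decide)

private theorem closure_prop {I K : Type} [Fintype I] [DecidableEq I] [CommGroup K] (w : Wr I K)
    (hw : w ∈ Subgroup.closure {w : Wr I K | Good w}) :
    Equiv.Perm.sign w.right = 1 ∧ ∏ c, w.left c = 1 := by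
  induction hw using Subgroup.closure_induction with
  | mem x hx => exact ⟨sign_cube (cube_right x hx.1), prod_good x hx⟩
  | one => exact ⟨by simp, by simp⟩
  | mul x y _ _ hx hy =>
      refine ⟨by rw [SemidirectProduct.mul_right, map_mul, hx.1, hy.1, mul_one], ?_⟩
      have h1 : ∀ c, (x * y).left c = x.left c * y.left (x.right⁻¹ c) := fun c => rfl
      rw [Finset.prod_congr rfl fun c _ => h1 c, Finset.prod_mul_distrib, hx.2, one_mul,
        Equiv.prod_comp (x.right⁻¹) (fun c => y.left c), hy.2]
  | inv x _ hx =>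
      refine ⟨by rw [SemidirectProduct.inv_right, map_inv, hx.1, inv_one], ?_⟩
      have h1 : ∀ c, (x⁻¹).left c = (x.left (x.right c))⁻¹ := by
        intro c
        have h2 := congrArg (fun z : Wr I K => z.left c) (inv_mul_cancel x)
        have h3 : (x⁻¹).left c * x.left ((x⁻¹).right⁻¹ c) = 1 := h2
        rw [SemidirectProduct.inv_right, inv_inv] at h3
        exact eq_inv_of_mul_eq_one_left h3
      rw [Finset.prod_congr rfl fun c _ => h1 c, Finset.prod_inv_distrib,
        Equiv.prod_comp (x.right) (fun c => x.left c), hx.2, inv_one]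

private theorem good_small {I K : Type} [Fintype I] [DecidableEq I] [Group K]
    (h : Fintype.card I ≤ 2) (w : Wr I K) (hw : Good w) : w = 1 := by
  have h3 := cube_right w hw.1
  have h2 : w.right ^ 2 = 1 := by
    have h4 : w.right ^ (Fintype.card I).factorial = 1 := by
      rw [← Fintype.card_perm]; exact pow_card_eq_one
    have h5 : (Fintype.card I).factorial ∣ 2 := by
      interval_cases (Fintype.card I) <;> decide
    obtain ⟨k, hk⟩ := h5
    rw [hk, pow_mul, h4, one_pow]
  have h1 : w.right = 1 := by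
    calc w.right = w.right ^ 3 * (w.right ^ 2)⁻¹ := by group
      _ = 1 := by rw [h3, h2]; simp
  refine SemidirectProduct.ext ?_ h1
  funext c
  exact hw.2 c (by rw [h1]; rfl)

private theorem good_inr {I K : Type} [Group K] (τ : Equiv.Perm I) (h : τ ^ 3 = 1) :
    Good (SemidirectProduct.inr τ : Wr I K) := by
  refine ⟨by rw [← map_pow, h, map_one], fun c _ => ?_⟩
  rw [SemidirectProduct.left_inr]; rfl

theorem wr_len {I K : Type} [Finite I] [Group K] (hK : ∀ x y : K, x * y = y * x) (w : Wr I K)
    (hw : w ∈ Subgroup.closure {w : Wr I K | Good w}) :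
    Len {w : Wr I K | Good w} 20 w := by
  obtain ⟨c, rfl⟩ : ∃ c : CommGroup K, c.toGroup = ‹Group K› :=
    ⟨{ ‹Group K› with mul_comm := hK }, rfl⟩
  classical
  have : Fintype I := Fintype.ofFinite I
  rcases le_or_gt (Fintype.card I) 2 with h | h
  · have h1 : w = 1 := by
      have h2 : Subgroup.closure {w : Wr I K | Good w} ≤ ⊥ := by
        rw [Subgroup.closure_le]
        intro x hx
        have h3 := good_small h x hx
        rw [h3]
        exact Subgroup.one_mem _
      exact (Subgroup.mem_bot.1 (h2 hw))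
    rw [h1]
    exact len_one 20
  · obtain ⟨h1, h2⟩ := closure_prop w hw
    rw [← SemidirectProduct.inl_left_mul_inr_right w]
    refine len_mul (m := 14) (n := 6) (diag_len h w.left h2) ?_
    exact len_map (SemidirectProduct.inr : Equiv.Perm I →* Wr I K)
      (W := {τ : Equiv.Perm I | τ ^ 3 = 1}) (fun τ hτ => good_inr τ hτ) (perm_len w.right h1)

end Pool.Agent.NekF
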