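import Pool.Agent.NekF.Chart
import Pool.Agent.NekF.WLen

/-!
# NF-Loc: locally every element of a finite group generated by 3-cycles is a product of 20 3-cycles

PLAN. Take the level system `L` of `exists_chart` at `x` (fix `Fintype I`, `DecidableEq I`
classically) and the homomorphism `F` of `exists_levelHom`. Let `Y = ⋃ c, L.r c '' L.U`, i.e.
`Y = {y | ∃ c, ∃ u ∈ L.U, y = L.r c u}`: clopen (finite union of images of a clopen set), `x ∈ Y`.
For `k ∈ L.K` and `u ∈ L.U` we have `k u ∈ L.U` (else `k (k u) = k u` by `K_supp`, so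
`k u = u`), hence `F w y ∈ Y ↔ y ∈ Y` for all `w` (`F w⁻¹` is the inverse of `F w`), and `p ∈ S` maps
`Y` into `Y`.
Claim A: for every `u ∈ closure S` there is `w ∈ Subgroup.closure {w | Good w}` with `F w y = u y` for
all `y ∈ Y` (so also `u y ∈ Y ↔ y ∈ Y`; for the `←` direction use `u⁻¹`).
`Subgroup.closure_induction`: for `p ∈ S` by `exists_chart`; for products and inverses because `F` is a
homomorphism and the `F w` preserve `Y` (for the inverse: `y ∈ Y`, `(F w)⁻¹ y ∈ Y` and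
`u ((F w)⁻¹ y) = F w ((F w)⁻¹ y) = y`).
Claim B: for every `w` and `y` there is `u ∈ closure S` with `F w y = u y`: if `y = r c z` with
`z ∈ U` then `F w y = r (w.right c) (k z)` with `k = w.left (w.right c) ∈ K`, `k z = v z` with
`v ∈ closure S`, so `u = r (w.right c) * v * (r c)⁻¹`; otherwise `F w y = y`, `u = 1`.
Now let `w` be as in claim A for `g`. By `wr_len` (with the commutativity of `L.K`) `w` is a product of
at most 20 good elements, by `len_map` `F w` is a product of at most 20 elements of the set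
`{T | Tri G T ∧ ∀ y, ∃ u ∈ closure S, T y = u y}`, which contains `1`; use `len_iff_fn` to get
`T : Fin 20 → (X ≃ₜ X)`.
-/

open Topology

namespace Pool.Agent.NekF

open Pool.Agent.VW (Len)

variable {X : Type} [TopologicalSpace X]

theorem local_len [CompactSpace X] [T2Space X] [TotallyDisconnectedSpace X]
    {G : Subgroup (X ≃ₜ X)} {S : Set (X ≃ₜ X)} (hS : ∀ t ∈ S, Tri G t)
    [Finite (Subgroup.closure S)]
    (hab : ∀ f ∈ Subgroup.closure S, ∀ g ∈ Subgroup.closure S, ∀ x, f x = x → g x = x →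
      ∀ᶠ y in 𝓝 x, f (g y) = g (f y)) {g : X ≃ₜ X} (hg : g ∈ Subgroup.closure S) (x : X) :
    ∃ Y : Set X, IsClopen Y ∧ x ∈ Y ∧ (∀ u ∈ Subgroup.closure S, ∀ y, u y ∈ Y ↔ y ∈ Y) ∧
      ∃ T : Fin 20 → (X ≃ₜ X), (∀ i, Tri G (T i)) ∧
        (∀ i y, ∃ u ∈ Subgroup.closure S, T i y = u y) ∧
        ∀ y ∈ Y, (List.ofFn T).prod y = g y := by
  obtain ⟨I, hI, L, ⟨c₀, u₀, hu₀, hx₀⟩, hr, hKv, hcomm, hchart⟩ := exists_chart hS hab x
  classical
  have : Fintype I := Fintype.ofFinite I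
  obtain ⟨F, hF1, hF2, hF3, -⟩ := exists_levelHom L
  set Y : Set X := {y | ∃ c, ∃ u ∈ L.U, y = L.r c u} with hYdef
  have hYclopen : IsClopen Y := by
    have h1 : Y = ⋃ c, (L.r c) '' L.U := by
      ext y
      simp only [hYdef, Set.mem_ofPred_eq, Set.mem_iUnion, Set.mem_image]
      constructor
      · rintro ⟨c, u, hu, h⟩
        exact ⟨c, u, hu, h.symm⟩
      · rintro ⟨c, u, hu, h⟩
        exact ⟨c, u, hu, h.symm⟩
    rw [h1]
    apply isClopen_iUnion_of_finite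
    intro c
    exact ⟨(L.r c).isClosed_image.mpr L.clopen.isClosed, (L.r c).isOpen_image.mpr L.clopen.isOpen⟩
  have hKU : ∀ k : L.K, ∀ u ∈ L.U, (k : X ≃ₜ X) u ∈ L.U := by
    intro k u hu
    by_contra h
    have h1 := L.K_supp k k.2 _ h
    have h2 := (k : X ≃ₜ X).injective h1
    rw [h2] at h
    exact h hu
  have hFY : ∀ (w : Wr I L.K) y, y ∈ Y → F w y ∈ Y := by
    rintro w y ⟨c, u, hu, rfl⟩
    rw [hF1 w c u hu]
    exact ⟨_, _, hKU _ u hu, rfl⟩
  -- claim A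
  have hA : ∀ u ∈ Subgroup.closure S, ∃ w ∈ Subgroup.closure {w : Wr I L.K | Good w},
      ∀ y ∈ Y, F w y = u y := by
    intro u hu
    induction hu using Subgroup.closure_induction with
    | mem p hp =>
      obtain ⟨w, hw, hpw⟩ := hchart p hp
      refine ⟨w, Subgroup.subset_closure hw, ?_⟩
      rintro y ⟨c, u, hu, rfl⟩
      rw [hF1 w c u hu, hpw c u hu]
    | one =>
      refine ⟨1, Subgroup.one_mem _, fun y _ => ?_⟩
      rw [map_one]
    | mul u₁ u₂ _ _ ih₁ ih₂ =>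
      obtain ⟨w₁, hw₁, h₁⟩ := ih₁
      obtain ⟨w₂, hw₂, h₂⟩ := ih₂
      refine ⟨w₁ * w₂, Subgroup.mul_mem _ hw₁ hw₂, fun y hy => ?_⟩
      rw [map_mul, mul_app, mul_app, h₁ _ (hFY w₂ y hy), h₂ y hy]
    | inv u _ ih =>
      obtain ⟨w, hw, h⟩ := ih
      refine ⟨w⁻¹, Subgroup.inv_mem _ hw, fun y hy => ?_⟩
      have h1 : F w⁻¹ y ∈ Y := hFY w⁻¹ y hy
      have h2 := h _ h1
      have h3 : F w (F w⁻¹ y) = y := by
        rw [map_inv, app_inv_self]
      rw [h3] at h2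
      rw [h2, inv_app_self]
      rw [← h2]
  have hY' : ∀ u ∈ Subgroup.closure S, ∀ y, y ∈ Y → u y ∈ Y := by
    intro u hu y hy
    obtain ⟨w, -, hw⟩ := hA u hu
    rw [← hw y hy]
    exact hFY w y hy
  have hYiff : ∀ u ∈ Subgroup.closure S, ∀ y, u y ∈ Y ↔ y ∈ Y := by
    intro u hu y
    refine ⟨fun h => ?_, hY' u hu y⟩
    have h1 := hY' u⁻¹ (Subgroup.inv_mem _ hu) _ h
    rwa [inv_app_self] at h1
  -- claim B
  have hB : ∀ (w : Wr I L.K) y, ∃ u ∈ Subgroup.closure S, F w y = u y := by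
    intro w y
    by_cases hy : y ∈ Y
    · obtain ⟨c, z, hz, rfl⟩ := hy
      obtain ⟨v, hv, hvz⟩ := hKv (w.left (w.right c) : X ≃ₜ X) (w.left (w.right c)).2
      refine ⟨L.r (w.right c) * v * (L.r c)⁻¹, Subgroup.mul_mem _
        (Subgroup.mul_mem _ (hr _) hv) (Subgroup.inv_mem _ (hr _)), ?_⟩
      rw [hF1 w c z hz, mul_app, mul_app, inv_app_self, hvz z hz]
    · refine ⟨1, Subgroup.one_mem _, ?_⟩
      rw [one_app]
      apply hF2
      intro c u hu h
      exact hy ⟨c, u, hu, h⟩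
  obtain ⟨w, hw, hwg⟩ := hA g hg
  have hlen := wr_len hcomm w hw
  set W' : Set (X ≃ₜ X) := {T | Tri G T ∧ ∀ y, ∃ u ∈ Subgroup.closure S, T y = u y} with hW'
  have hφ : ∀ v ∈ {w : Wr I L.K | Good w}, F v ∈ W' := fun v hv => ⟨hF3 v hv, hB v⟩
  have hlen2 : Len W' 20 (F w) := len_map F hφ hlen
  have h1W : (1 : X ≃ₜ X) ∈ W' := ⟨Tri.one, fun y => ⟨1, Subgroup.one_mem _, rfl⟩⟩
  obtain ⟨T, hT1, hT2⟩ := (len_iff_fn h1W).mp hlen2
  refine ⟨Y, hYclopen, ⟨c₀, u₀, hu₀, hx₀⟩, hYiff, T, fun i => (hT1 i).1, fun i y => (hT1 i).2 y, ?_⟩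
  intro y hy
  rw [hT2, hwg y hy]

end Pool.Agent.NekF
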