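import Pool.Agent.NekF.Displ

/-!
# NF-Orb: orbits between markers and orbits near markers

PLAN for `disp_tower`. Fix `x`. Claim: for every `u ∈ Subgroup.closure S` there is `k` with
`u x = d k x` and (`k = 0` or `d j x ∉ C` for all `j` between `0` and `k` (both included:
`min 0 k ≤ j ≤ max 0 k`)). Induct with `Subgroup.closure_induction_left` (or
`Subgroup.closure_toSubmonoid` and lists): step `u = s * u'`, `s ∈ S` or `s⁻¹ ∈ S`. Let
`u' x = d k x`. If `s` fixes this point nothing changes. Otherwise: `s` (or `s⁻¹`) moves the point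
`d k x` (a homeomorphism and its inverse move the same points), so by `hZ`, for all `|i| ≤ M`,
`d i (d k x) ∉ C`, i.e. (`d_move`) `d j x ∉ C` for all `j` with `|j - k| ≤ M`; and
`s (d k x) = d i (d k x) = d k' x` with `|k' - k| ≤ M` (`Disp`, `disp_inv`). All `j` between `0` and
`k'` are between `0` and `k` or satisfy `|j - k| ≤ M`; if `k = 0` they all satisfy `|j - 0| ≤ M`.
Conclusion: if `u x = d k x` as in the claim then `|k| ≤ N`: otherwise the return position given by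
`hN` lies between `0` and `k` (on the positive or negative side).

PLAN for `disp_cluster`. Fix `x`. Claim: for every `u ∈ closure S`: `u x = x` or there are `k₁`, `k`
with `|k₁| ≤ R₁`, `d k₁ x ∈ C`, `|k - k₁| ≤ R₁`, `u x = d k x`. Same induction. Observation (*): if
`d k₁ x ∈ C`, `d k₂ x ∈ C` and `|k₁ - k₂| ≤ K` then `k₁ = k₂` (by `d_move`,
`d k₂ x = d (s * (k₂ - k₁)) (d k₁ x)`, and `hC`). Step `u = s * u'`, `s ∈ S` or `s⁻¹ ∈ S`. Write
`u' x = d k x` where, in the first case, `k = 0`. If `s` moves `y = u' x` then (both `y` and `s y` are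
moved by `s`) there is `i`, `|i| ≤ R₁` with `d i y ∈ C`; in the case `u' x = x` this gives `k₁`.
`s y = d k' x` with `|k' - k| ≤ R₂`, and there is `i`, `|i| ≤ R₁`, `d i (s y) ∈ C`, which is
`d k'' x` with `|k'' - k'| ≤ R₁`. Now `|k'' - k₁| ≤ R₁ + R₂ + R₁ ≤ K`, so `k'' = k₁` by (*) and
`|k' - k₁| ≤ R₁`. Conclusion: `|k| ≤ 2 * R₁`.
-/

open Topology

namespace Pool.Agent.NekF

variable {X : Type} [TopologicalSpace X] {a b : X ≃ₜ X}

private theorem closure_ind {S : Set (X ≃ₜ X)} {Q : (X ≃ₜ X) → Prop} {p : (X ≃ₜ X) → Prop}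
    (hQ : ∀ t ∈ S, Q t) (hQi : ∀ t ∈ S, Q t⁻¹) (h1 : p 1) (hs : ∀ t u, Q t → p u → p (t * u))
    {u : X ≃ₜ X} (hu : u ∈ Subgroup.closure S) : p u := by
  induction hu using Subgroup.closure_induction_left with
  | one => exact h1
  | mul_left x hx y _ ih => exact hs x y (hQ x hx) ih
  | inv_mul_cancel x hx y _ ih => exact hs x⁻¹ y (hQi x hx) ih

private theorem inv_moves {t : X ≃ₜ X} {x : X} (h : t⁻¹ x ≠ x) : t x ≠ x := by
  intro h1
  apply h
  rw [inv_app_eq]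
  exact h1.symm

private theorem abs_sgn {s : ℤ} (hs : s = 1 ∨ s = -1) (k : ℤ) : |s * k| = |k| := by
  rcases hs with rfl | rfl
  · rw [one_mul]
  · rw [neg_one_mul, abs_neg]

theorem disp_tower (ha : a * a = 1) (hb : b * b = 1) {C : Set X} {M N : ℕ}
    (hN : ∀ x : X, (∃ k : ℤ, 0 < k ∧ k ≤ N ∧ d a b k x ∈ C) ∧
      ∃ k : ℤ, 0 < k ∧ k ≤ N ∧ d a b (-k) x ∈ C)
    {S : Set (X ≃ₜ X)} (hS : ∀ t ∈ S, Disp a b M t)
    (hZ : ∀ t ∈ S, ∀ x, t x ≠ x → ∀ k : ℤ, |k| ≤ M → d a b k x ∉ C) :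
    ∀ u ∈ Subgroup.closure S, Disp a b N u := by
  intro u hu x
  have key : ∃ k : ℤ, u x = d a b k x ∧
      (k = 0 ∨ ∀ j : ℤ, min 0 k ≤ j → j ≤ max 0 k → d a b j x ∉ C) := by
    refine closure_ind (S := S)
      (Q := fun t => Disp a b M t ∧ ∀ y, t y ≠ y → ∀ k : ℤ, |k| ≤ M → d a b k y ∉ C)
      (p := fun u => ∃ k : ℤ, u x = d a b k x ∧
        (k = 0 ∨ ∀ j : ℤ, min 0 k ≤ j → j ≤ max 0 k → d a b j x ∉ C))
      (fun t ht => ⟨hS t ht, hZ t ht⟩)
      (fun t ht => ⟨disp_inv ha hb (hS t ht), fun y hy => hZ t ht y (inv_moves hy)⟩)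
      ⟨0, by rw [d_zero], Or.inl rfl⟩ ?_ hu
    rintro t v ⟨ht1, ht2⟩ ⟨k, hk, hk2⟩
    by_cases hfix : t (v x) = v x
    · exact ⟨k, by rw [mul_app, hfix, hk], hk2⟩
    · obtain ⟨i, hi, hi2⟩ := ht1 (v x)
      obtain ⟨s, hs, hm1, hm2⟩ := d_move ha hb k (a := a) (b := b)
      have hfree : ∀ j : ℤ, |j - k| ≤ M → d a b j x ∉ C := by
        intro j hj
        rw [hm2 j x, ← hk]
        exact ht2 (v x) hfix _ (by rw [abs_sgn hs]; exact hj)
      refine ⟨k + s * i, by rw [mul_app, hi2, hk, hm1], Or.inr ?_⟩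
      intro j hj1 hj2
      by_cases hj : |j - k| ≤ M
      · exact hfree j hj
      · have hsi : |s * i| ≤ M := by rw [abs_sgn hs]; exact hi
        rw [abs_le] at hsi
        rw [not_le, lt_abs] at hj
        rcases hk2 with h0 | h0
        · exfalso
          subst h0
          omega
        · apply h0 j
          · omega
          · omega
  obtain ⟨k, hk, hk2⟩ := key
  refine ⟨k, ?_, hk⟩
  by_contra hcon
  rw [not_le, lt_abs] at hcon
  obtain ⟨⟨p, hp1, hp2, hp3⟩, q, hq1, hq2, hq3⟩ := hN x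
  rcases hk2 with h0 | h0
  · subst h0
    omega
  · rcases hcon with h | h
    · exact h0 p (by omega) (by omega) hp3
    · exact h0 (-q) (by omega) (by omega) hq3

theorem disp_cluster (ha : a * a = 1) (hb : b * b = 1) {C : Set X} {R₁ R₂ K : ℕ}
    (hC : ∀ k : ℤ, k ≠ 0 → |k| ≤ K → ∀ x ∈ C, d a b k x ∉ C) (hK : 2 * R₁ + R₂ ≤ K)
    {S : Set (X ≃ₜ X)} (hS : ∀ t ∈ S, Disp a b R₂ t)
    (hZ : ∀ t ∈ S, ∀ x, t x ≠ x → ∃ k : ℤ, |k| ≤ R₁ ∧ d a b k x ∈ C) :
    ∀ u ∈ Subgroup.closure S, Disp a b (2 * R₁) u := by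
  intro u hu x
  have hstar : ∀ k₁ k₂ : ℤ, d a b k₁ x ∈ C → d a b k₂ x ∈ C → |k₂ - k₁| ≤ K → k₂ = k₁ := by
    intro k₁ k₂ h1 h2 h3
    by_contra hne
    obtain ⟨s, hs, hm1, hm2⟩ := d_move ha hb k₁ (a := a) (b := b)
    rw [hm2 k₂ x] at h2
    refine hC (s * (k₂ - k₁)) ?_ (by rw [abs_sgn hs]; exact h3) _ h1 h2
    have : k₂ - k₁ ≠ 0 := sub_ne_zero.2 hne
    rcases hs with rfl | rfl
    · rwa [one_mul]
    · rwa [neg_one_mul, neg_ne_zero]
  have key : u x = x ∨ ∃ k₁ k : ℤ, |k₁| ≤ R₁ ∧ d a b k₁ x ∈ C ∧ |k - k₁| ≤ R₁ ∧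
      u x = d a b k x := by
    refine closure_ind (S := S)
      (Q := fun t => Disp a b R₂ t ∧ ∀ y, t y ≠ y → ∃ k : ℤ, |k| ≤ R₁ ∧ d a b k y ∈ C)
      (p := fun u => u x = x ∨ ∃ k₁ k : ℤ, |k₁| ≤ R₁ ∧ d a b k₁ x ∈ C ∧ |k - k₁| ≤ R₁ ∧
        u x = d a b k x)
      (fun t ht => ⟨hS t ht, hZ t ht⟩)
      (fun t ht => ⟨disp_inv ha hb (hS t ht), fun y hy => hZ t ht y (inv_moves hy)⟩)
      (Or.inl rfl) ?_ hu
    rintro t v ⟨ht1, ht2⟩ hv
    by_cases hfix : t (v x) = v x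
    · rw [mul_app, hfix]
      exact hv
    · right
      have hv' : ∃ k₁ k : ℤ, |k₁| ≤ R₁ ∧ d a b k₁ x ∈ C ∧ |k - k₁| ≤ R₁ ∧ v x = d a b k x := by
        rcases hv with h | h
        · rw [h] at hfix
          obtain ⟨i, hi, hi2⟩ := ht2 x hfix
          refine ⟨i, 0, hi, hi2, ?_, ?_⟩
          · rw [zero_sub, abs_neg]; exact hi
          · rw [h, d_zero]; rfl
        · exact h
      obtain ⟨k₁, k, h1, h2, h3, h4⟩ := hv'
      obtain ⟨i, hi, hi2⟩ := ht1 (v x)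
      obtain ⟨s, hs, hm1, -⟩ := d_move ha hb k (a := a) (b := b)
      have h5 : t (v x) = d a b (k + s * i) x := by rw [hi2, h4, hm1]
      have hfix2 : t (t (v x)) ≠ t (v x) := fun h => hfix (t.injective h)
      obtain ⟨l, hl, hl2⟩ := ht2 _ hfix2
      obtain ⟨s', hs', hm1', -⟩ := d_move ha hb (k + s * i) (a := a) (b := b)
      rw [h5, hm1'] at hl2
      have a1 : |s * i| ≤ R₂ := by rw [abs_sgn hs]; exact hi
      have a2 : |s' * l| ≤ R₁ := by rw [abs_sgn hs']; exact hl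
      rw [abs_le] at a1 a2
      have h3' := abs_le.1 h3
      have h6 : k + s * i + s' * l = k₁ := by
        apply hstar _ _ h2 hl2
        rw [abs_le]
        have hK' : (2 * R₁ + R₂ : ℤ) ≤ K := by exact_mod_cast hK
        constructor <;> linarith [a1.1, a1.2, a2.1, a2.2, h3'.1, h3'.2]
      refine ⟨k₁, k + s * i, h1, h2, ?_, by rw [mul_app, h5]⟩
      rw [abs_le]
      constructor <;> linarith [a2.1, a2.2]
  rcases key with h | ⟨k₁, k, h1, -, h3, h4⟩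
  · exact ⟨0, by positivity, by rw [h, d_zero]; rfl⟩
  · refine ⟨k, ?_, h4⟩
    have h5 : |k| ≤ |k - k₁| + |k₁| := by
      have := abs_add_le (k - k₁) k₁
      rwa [sub_add_cancel] at this
    push_cast
    linarith

end Pool.Agent.NekF
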