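import Pool.Agent.NekF.Line

/-!
# NF-Synd: return times are bounded
-/

open Topology

namespace Pool.Agent.NekF

variable {X : Type} [TopologicalSpace X] {a b : X ≃ₜ X}

/-- `a` and `b` move the position by one step. -/
private theorem step_a (ha : a * a = 1) (hb : b * b = 1) (k : ℤ) (x : X) :
    ∃ l : ℤ, (l = k + 1 ∨ l = k - 1) ∧ a (d a b k x) = d a b l x := by
  obtain ⟨s, hs, h, -⟩ := d_move ha hb k
  refine ⟨k + s * 1, ?_, ?_⟩
  · rcases hs with rfl | rfl
    · left; ring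
    · right; ring
  · rw [← h 1 x, d_one]

private theorem step_b (ha : a * a = 1) (hb : b * b = 1) (k : ℤ) (x : X) :
    ∃ l : ℤ, (l = k + 1 ∨ l = k - 1) ∧ b (d a b k x) = d a b l x := by
  obtain ⟨s, hs, h, -⟩ := d_move ha hb k
  refine ⟨k + s * (-1), ?_, ?_⟩
  · rcases hs with rfl | rfl
    · right; ring
    · left; ring
  · rw [← h (-1) x, d_neg_one ha hb]

/-- The half orbits (`e = 1` or `e = -1`) are dense, hence meet every open nonempty set. -/
private theorem half (ha : a * a = 1) (hb : b * b = 1) [CompactSpace X]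
    (hmin : Minimal a b) {C : Set X} (hC : IsOpen C) (hne : C.Nonempty) {e : ℤ}
    (he : e = 1 ∨ e = -1) (x : X) : ∃ k : ℤ, 0 < k ∧ d a b (e * k) x ∈ C := by
  have hee : e * e = 1 := by rcases he with rfl | rfl <;> norm_num
  let T : ℕ → Set X := fun n => closure {y | ∃ k : ℤ, (n : ℤ) ≤ k ∧ y = d a b (e * k) x}
  let S : Set X := ⋂ n, T n
  have hTc : ∀ n, IsClosed (T n) := fun n => isClosed_closure
  have hSc : IsClosed S := isClosed_iInter hTc
  have hSne : S.Nonempty := by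
    refine IsCompact.nonempty_iInter_of_sequence_nonempty_isCompact_isClosed T ?_ ?_ ?_ hTc
    · intro n
      refine closure_mono ?_
      rintro y ⟨k, hk, rfl⟩
      exact ⟨k, by push_cast at hk; omega, rfl⟩
    · intro n
      exact ⟨_, subset_closure ⟨(n : ℤ), le_rfl, rfl⟩⟩
    · exact (hTc 0).isCompact
  have hinv : ∀ (c : X ≃ₜ X), (∀ (k : ℤ) (x : X), ∃ l : ℤ, (l = k + 1 ∨ l = k - 1) ∧
      c (d a b k x) = d a b l x) → ∀ y ∈ S, c y ∈ S := by
    intro c hc y hy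
    refine Set.mem_iInter.2 fun n => ?_
    have hy1 : y ∈ T (n + 1) := Set.mem_iInter.1 hy (n + 1)
    refine map_mem_closure c.continuous hy1 ?_
    rintro z ⟨k, hk, rfl⟩
    obtain ⟨l, hl, h⟩ := hc (e * k) x
    refine ⟨e * l, ?_, ?_⟩
    · push_cast at hk
      rcases hl with rfl | rfl <;> rcases he with rfl | rfl
      · linarith
      · linarith
      · linarith
      · linarith
    · rw [h]
      congr 2
      rw [← mul_assoc, hee, one_mul]
  have hS : S = Set.univ := hmin S hSc hSne fun y hy =>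
    ⟨hinv a (fun k x => step_a ha hb k x) y hy, hinv b (fun k x => step_b ha hb k x) y hy⟩
  obtain ⟨z, hz⟩ := hne
  have hz1 : z ∈ T 1 := by
    have : z ∈ S := by rw [hS]; exact Set.mem_univ z
    exact Set.mem_iInter.1 this 1
  obtain ⟨y, hyC, k, hk, rfl⟩ := mem_closure_iff.1 hz1 C hC hz
  exact ⟨k, by push_cast at hk; omega, hyC⟩

private theorem unif (ha : a * a = 1) (hb : b * b = 1) [CompactSpace X]
    (hmin : Minimal a b) {C : Set X} (hC : IsOpen C) (hne : C.Nonempty) {e : ℤ}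
    (he : e = 1 ∨ e = -1) :
    ∃ N : ℕ, ∀ x : X, ∃ k : ℤ, 0 < k ∧ k ≤ N ∧ d a b (e * k) x ∈ C := by
  have key : ∃ N : ℕ, ∀ x ∈ (Set.univ : Set X), ∃ k : ℤ, 0 < k ∧ k ≤ N ∧ d a b (e * k) x ∈ C := by
    refine isCompact_univ.induction_on
      (p := fun s => ∃ N : ℕ, ∀ x ∈ s, ∃ k : ℤ, 0 < k ∧ k ≤ N ∧ d a b (e * k) x ∈ C)
      ?_ ?_ ?_ ?_
    · exact ⟨0, fun x hx => absurd hx (Set.notMem_empty x)⟩
    · rintro s t hst ⟨N, hN⟩
      exact ⟨N, fun x hx => hN x (hst hx)⟩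
    · rintro s t ⟨N, hN⟩ ⟨N', hN'⟩
      refine ⟨max N N', fun x hx => ?_⟩
      rcases hx with hx | hx
      · obtain ⟨k, h1, h2, h3⟩ := hN x hx
        exact ⟨k, h1, by push_cast; exact le_trans h2 (le_max_left _ _), h3⟩
      · obtain ⟨k, h1, h2, h3⟩ := hN' x hx
        exact ⟨k, h1, by push_cast; exact le_trans h2 (le_max_right _ _), h3⟩
    · intro x _
      obtain ⟨k, hk, hkC⟩ := half ha hb hmin hC hne he x
      have hopen : IsOpen ((fun y : X => d a b (e * k) y) ⁻¹' C) :=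
        hC.preimage (d a b (e * k)).continuous
      refine ⟨(fun y : X => d a b (e * k) y) ⁻¹' C,
        mem_nhdsWithin_of_mem_nhds (hopen.mem_nhds hkC), k.toNat, fun y hy => ⟨k, hk, ?_, hy⟩⟩
      exact (Int.toNat_of_nonneg hk.le).ge
  obtain ⟨N, hN⟩ := key
  exact ⟨N, fun x => hN x (Set.mem_univ x)⟩

theorem exists_return [CompactSpace X] (ha : a * a = 1) (hb : b * b = 1)
    (hmin : Minimal a b) {C : Set X} (hC : IsOpen C) (hne : C.Nonempty) :
    ∃ N : ℕ, ∀ x : X, (∃ k : ℤ, 0 < k ∧ k ≤ N ∧ d a b k x ∈ C) ∧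
      ∃ k : ℤ, 0 < k ∧ k ≤ N ∧ d a b (-k) x ∈ C := by
  obtain ⟨N, hN⟩ := unif ha hb hmin hC hne (e := 1) (Or.inl rfl)
  obtain ⟨N', hN'⟩ := unif ha hb hmin hC hne (e := -1) (Or.inr rfl)
  refine ⟨max N N', fun x => ⟨?_, ?_⟩⟩
  · obtain ⟨k, h1, h2, h3⟩ := hN x
    rw [one_mul] at h3
    exact ⟨k, h1, by push_cast; exact le_trans h2 (le_max_left _ _), h3⟩
  · obtain ⟨k, h1, h2, h3⟩ := hN' x
    rw [neg_one_mul] at h3
    exact ⟨k, h1, by push_cast; exact le_trans h2 (le_max_right _ _), h3⟩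

end Pool.Agent.NekF
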