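import Pool.Agent.NekF.Cjl
import Pool.Agent.NekF.FD
import Pool.Agent.NekF.Free
import Pool.Agent.NekF.Synd
import Pool.Agent.NekF.Orb

/-!
# NF-Split: every element of the alternating full group is a product of an element of a finite
group which does not cross the markers and of an element of a finite group acting near the markers

PLAN. `exists_split`: by `alt_eq` and `Subgroup.exists_list_of_mem_closure` (inverses of `Tri` elements
are `Tri`: `Tri.inv`) `g = l.prod` with `∀ t ∈ l, Tri (A ⊔ B) t`. `Tri` elements are in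
`full (A ⊔ B)`, so by `exists_disp` and finiteness there is one `M` with `Disp a b M t` for all
`t ∈ l`. Put `n = l.length`, `R₁ = (n + 3) * M`, `R₂ = (2 * n + 1) * M`, `K = 2 * R₁ + R₂`. Take the
marker `C` for `K` (`exists_marker`) and `N` from `exists_return` for `C`. Let
`Z = {x | ∀ k : ℤ, |k| ≤ M → d a b k x ∉ C}`: clopen (finite intersection of clopen sets; the index
set is `Finset.Icc (-M) M`). For `t ∈ l` let `Zt = {x | x ∈ Z ∧ t x ∈ Z ∧ t (t x) ∈ Z}`: clopen,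
`t x ∈ Zt ↔ x ∈ Zt` by `cube_app`. By `Tri.res` there are `t'` (equal to `t` on `Zt`, to the identity
off `Zt`) and `s` (equal to `t` off `Zt`, to the identity on `Zt`), both `Tri`, and `t = t' * s`
(pointwise). Choose such a pair `φ t = (t', s)` for every `t ∈ l` and let `L = l.map φ`. Then
`g = l.prod = (L.map fun p => p.1 * p.2).prod = (L.map Prod.fst).prod * (cjl L).prod`.
`S₀ =` the set of the first components of the elements of `L`, `S₁ = {y | y ∈ cjl L}`; both are finite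
sets. `S₀`: `Disp a b M t'` (`t' x = t x` or `t' x = x`), and `t' x ≠ x` implies `x ∈ Zt ⊆ Z`, so
`disp_tower` gives `Disp a b N` on `closure S₀`. `S₁`: an element is `y = c⁻¹ * s * c` with
`c = (L'.map Prod.fst).prod`, `L'` a sublist of `L`, so `Disp a b (n * M) c` (`disp_list`,
`disp_mono`), `Disp a b R₂ y`; `y` is `Tri` by `Tri.conj` (with `g = c⁻¹ ∈ full`). If `y x ≠ x` then
`s (c x) ≠ c x`, so `c x ∉ Zt`: one of `c x`, `t (c x)`, `t (t (c x))` is not in `Z`, i.e. for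
`z = f x` with `f ∈ {c, t * c, t * t * c}` (displacement at most `(n + 2) * M`) there is `|k| ≤ M`
with `d k z ∈ C`; `z = d j x` with `|j| ≤ (n + 2) M`, `d k (d j x) = d (j ± k) x` and
`|j ± k| ≤ (n + 3) M = R₁`. So `disp_cluster` applies.
-/

open Topology

namespace Pool.Agent.NekF

variable {X : Type} [TopologicalSpace X] {a b : X ≃ₜ X}

private theorem exists_M [CompactSpace X] (ha : a * a = 1) (hb : b * b = 1)
    {A B : Subgroup (X ≃ₜ X)} (hA : Fragmentation A a) (hB : Fragmentation B b)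
    (l : List (X ≃ₜ X)) (hl : ∀ t ∈ l, Tri (A ⊔ B) t) : ∃ M : ℕ, ∀ t ∈ l, Disp a b M t := by
  induction l with
  | nil => exact ⟨0, fun t ht => absurd ht (by simp)⟩
  | cons t l ih =>
    obtain ⟨M1, h1⟩ := ih fun s hs => hl s (List.mem_cons_of_mem _ hs)
    obtain ⟨M2, h2⟩ := exists_disp ha hb hA hB (hl t List.mem_cons_self).1
    refine ⟨max M1 M2, fun s hs => ?_⟩
    rcases List.mem_cons.1 hs with rfl | hs
    · exact disp_mono (le_max_right _ _) h2
    · exact disp_mono (le_max_left _ _) (h1 s hs)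

private theorem exists_pair [CompactSpace X] [T2Space X] {G : Subgroup (X ≃ₜ X)} {Z : Set X}
    (hZ : IsClopen Z) {t : X ≃ₜ X} (ht : Tri G t) :
    ∃ p : (X ≃ₜ X) × (X ≃ₜ X), Tri G p.1 ∧ Tri G p.2 ∧
      (∀ x, (x ∈ Z ∧ t x ∈ Z ∧ t (t x) ∈ Z) → p.1 x = t x) ∧
      (∀ x, ¬ (x ∈ Z ∧ t x ∈ Z ∧ t (t x) ∈ Z) → p.1 x = x) ∧
      (∀ x, (x ∈ Z ∧ t x ∈ Z ∧ t (t x) ∈ Z) → p.2 x = x) ∧
      (∀ x, ¬ (x ∈ Z ∧ t x ∈ Z ∧ t (t x) ∈ Z) → p.2 x = t x) ∧ t = p.1 * p.2 := by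
  let Y : Set X := {x | x ∈ Z ∧ t x ∈ Z ∧ t (t x) ∈ Z}
  have hY : IsClopen Y := by
    have h1 : Y = Z ∩ ((fun x => t x) ⁻¹' Z ∩ (fun x => t (t x)) ⁻¹' Z) := by
      ext x
      rfl
    rw [h1]
    exact hZ.inter ((hZ.preimage t.continuous).inter
      (hZ.preimage (t.continuous.comp t.continuous)))
  have hinv : ∀ x, t x ∈ Y ↔ x ∈ Y := by
    intro x
    change (t x ∈ Z ∧ t (t x) ∈ Z ∧ t (t (t x)) ∈ Z) ↔ (x ∈ Z ∧ t x ∈ Z ∧ t (t x) ∈ Z)
    rw [cube_app ht.2.1]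
    tauto
  obtain ⟨p, hp, hp1, hp2⟩ := ht.res hY hinv
  obtain ⟨q, hq, hq1, hq2⟩ := ht.res hY.compl (fun x => not_congr (hinv x))
  refine ⟨(p, q), hp, hq, fun x hx => hp1 x hx, fun x hx => hp2 x hx,
    fun x hx => hq2 x (fun h => h hx), fun x hx => hq1 x hx, ?_⟩
  refine Homeomorph.ext fun x => ?_
  rw [mul_app]
  by_cases hx : x ∈ Y
  · rw [hq2 x (fun h => h hx), hp1 x hx]
  · rw [hq1 x hx, hp2 (t x) (fun h => hx ((hinv x).1 h))]

theorem exists_split [CompactSpace X] [T2Space X] [TotallyDisconnectedSpace X] [Infinite X]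
    (ha : a * a = 1) (hb : b * b = 1) (hmin : Minimal a b)
    {A B : Subgroup (X ≃ₜ X)} (hA : Fragmentation A a) (hB : Fragmentation B b) {g : X ≃ₜ X}
    (hg : g ∈ alt (A ⊔ B)) :
    ∃ (S₀ S₁ : Set (X ≃ₜ X)) (N₀ N₁ : ℕ), S₀.Finite ∧ S₁.Finite ∧
      (∀ t ∈ S₀, Tri (A ⊔ B) t) ∧ (∀ t ∈ S₁, Tri (A ⊔ B) t) ∧
      (∀ u ∈ Subgroup.closure S₀, Disp a b N₀ u) ∧ (∀ u ∈ Subgroup.closure S₁, Disp a b N₁ u) ∧
      ∃ g₀ ∈ Subgroup.closure S₀, ∃ g₁ ∈ Subgroup.closure S₁, g = g₀ * g₁ := by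
  rw [alt_eq] at hg
  have hg' : g ∈ (Subgroup.closure {t : X ≃ₜ X | Tri (A ⊔ B) t}).toSubmonoid := hg
  rw [Subgroup.closure_toSubmonoid] at hg'
  obtain ⟨l, hl, hprod⟩ := Submonoid.exists_list_of_mem_closure hg'
  have hT : ∀ t ∈ l, Tri (A ⊔ B) t := by
    intro t ht
    rcases hl t ht with h | h
    · exact h
    · have h1 : Tri (A ⊔ B) (t⁻¹)⁻¹ := Tri.inv h
      rwa [inv_inv] at h1
  obtain ⟨M, hM⟩ := exists_M ha hb hA hB l hT
  obtain ⟨C, hCc, hCne, hC⟩ := exists_marker ha hb hmin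
    (2 * ((l.length + 3) * M) + (2 * l.length + 1) * M)
  obtain ⟨N, hN⟩ := exists_return ha hb hmin hCc.isOpen hCne
  let Z : Set X := {x | ∀ k : ℤ, |k| ≤ M → d a b k x ∉ C}
  have hZ : IsClopen Z := by
    have h1 : Z = ⋂ k ∈ Finset.Icc (-(M : ℤ)) M, (fun x => d a b k x) ⁻¹' Cᶜ := by
      ext x
      simp only [Set.mem_iInter, Finset.mem_Icc, Set.mem_preimage, Set.mem_compl_iff]
      constructor
      · intro h k hk
        exact h k (abs_le.2 hk)
      · intro h k hk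
        exact h k (abs_le.1 hk)
    rw [h1]
    exact isClopen_biInter_finset fun k _ => hCc.compl.preimage (d a b k).continuous
  have hpair : ∀ t ∈ l, ∃ p : (X ≃ₜ X) × (X ≃ₜ X), Tri (A ⊔ B) p.1 ∧ Tri (A ⊔ B) p.2 ∧
      (∀ x, (x ∈ Z ∧ t x ∈ Z ∧ t (t x) ∈ Z) → p.1 x = t x) ∧
      (∀ x, ¬ (x ∈ Z ∧ t x ∈ Z ∧ t (t x) ∈ Z) → p.1 x = x) ∧
      (∀ x, (x ∈ Z ∧ t x ∈ Z ∧ t (t x) ∈ Z) → p.2 x = x) ∧
      (∀ x, ¬ (x ∈ Z ∧ t x ∈ Z ∧ t (t x) ∈ Z) → p.2 x = t x) ∧ t = p.1 * p.2 :=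
    fun t ht => exists_pair hZ (hT t ht)
  choose! φ hφ using hpair
  have hmap : (l.map φ).map (fun p => p.1 * p.2) = l := by
    rw [List.map_map]
    conv_rhs => rw [← List.map_id l]
    exact List.map_congr_left fun t ht => ((hφ t ht).2.2.2.2.2.2).symm
  have hg2 : g = ((l.map φ).map Prod.fst).prod * (cjl (l.map φ)).prod := by
    rw [← prod_cjl, hmap, hprod]
  -- the displacement of the first components
  have hD1 : ∀ t ∈ l, Disp a b M (φ t).1 := by
    intro t ht x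
    by_cases hx : x ∈ Z ∧ t x ∈ Z ∧ t (t x) ∈ Z
    · rw [(hφ t ht).2.2.1 x hx]
      exact hM t ht x
    · refine ⟨0, by simp, ?_⟩
      rw [(hφ t ht).2.2.2.1 x hx, d_zero, one_app]
  have hD2 : ∀ t ∈ l, Disp a b M (φ t).2 := by
    intro t ht x
    by_cases hx : x ∈ Z ∧ t x ∈ Z ∧ t (t x) ∈ Z
    · refine ⟨0, by simp, ?_⟩
      rw [(hφ t ht).2.2.2.2.1 x hx, d_zero, one_app]
    · rw [(hφ t ht).2.2.2.2.2.1 x hx]
      exact hM t ht x
  -- description of the elements of `cjl`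
  have hcj : ∀ y ∈ cjl (l.map φ), ∃ t ∈ l, ∃ c ∈ full (A ⊔ B), Disp a b (l.length * M) c ∧
      y = c⁻¹ * (φ t).2 * c := by
    intro y hy
    obtain ⟨p, hp, L', hL1, hL2, rfl⟩ := mem_cjl hy
    obtain ⟨t, ht, rfl⟩ := List.mem_map.1 hp
    have h1 : ∀ f ∈ L'.map Prod.fst, ∃ t ∈ l, f = (φ t).1 := by
      intro f hf
      obtain ⟨q, hq, rfl⟩ := List.mem_map.1 hf
      obtain ⟨t', ht', rfl⟩ := List.mem_map.1 (hL2 q hq)
      exact ⟨t', ht', rfl⟩
    refine ⟨t, ht, (L'.map Prod.fst).prod, ?_, ?_, rfl⟩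
    · refine Subgroup.list_prod_mem _ fun f hf => ?_
      obtain ⟨t', ht', rfl⟩ := h1 f hf
      exact (hφ t' ht').1.1
    · have h2 := disp_list ha hb (L'.map Prod.fst) (M := M) (fun f hf => by
        obtain ⟨t', ht', rfl⟩ := h1 f hf
        exact hD1 t' ht')
      refine disp_mono ?_ h2
      rw [List.length_map] at hL1 ⊢
      exact Nat.mul_le_mul_right M hL1
  refine ⟨{y | y ∈ (l.map φ).map Prod.fst}, {y | y ∈ cjl (l.map φ)}, N,
    2 * ((l.length + 3) * M), List.finite_toSet _, List.finite_toSet _, ?_, ?_, ?_, ?_, ?_⟩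
  · intro t ht
    obtain ⟨p, hp, rfl⟩ := List.mem_map.1 ht
    obtain ⟨t', ht', rfl⟩ := List.mem_map.1 hp
    exact (hφ t' ht').1
  · intro y hy
    obtain ⟨t, ht, c, hc, -, rfl⟩ := hcj y hy
    have h1 := Tri.conj (hφ t ht).2.1 ((full (A ⊔ B)).inv_mem hc)
    rwa [inv_inv] at h1
  · refine disp_tower ha hb hN (M := M) ?_ ?_
    · intro t ht
      obtain ⟨p, hp, rfl⟩ := List.mem_map.1 ht
      obtain ⟨t', ht', rfl⟩ := List.mem_map.1 hp
      exact hD1 t' ht'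
    · intro t ht x hx
      obtain ⟨p, hp, rfl⟩ := List.mem_map.1 ht
      obtain ⟨t', ht', rfl⟩ := List.mem_map.1 hp
      have h1 : x ∈ Z ∧ t' x ∈ Z ∧ t' (t' x) ∈ Z := by
        by_contra h2
        exact hx ((hφ t' ht').2.2.2.1 x h2)
      exact h1.1
  · refine disp_cluster ha hb hC (R₁ := (l.length + 3) * M) (R₂ := (2 * l.length + 1) * M)
      le_rfl ?_ ?_
    · intro y hy
      obtain ⟨t, ht, c, hc, hcd, rfl⟩ := hcj y hy
      have h1 := disp_mul ha hb (disp_mul ha hb (disp_inv ha hb hcd) (hD2 t ht)) hcd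
      refine disp_mono (le_of_eq ?_) h1
      ring
    · intro y hy x hx
      obtain ⟨t, ht, c, hc, hcd, rfl⟩ := hcj y hy
      have h1 : ¬ (c x ∈ Z ∧ t (c x) ∈ Z ∧ t (t (c x)) ∈ Z) := by
        intro h2
        apply hx
        rw [mul_app, mul_app, (hφ t ht).2.2.2.2.1 (c x) h2, inv_app_self]
      have h3 : ∃ f : X ≃ₜ X, Disp a b ((l.length + 2) * M) f ∧ f x ∉ Z := by
        have e1 : l.length * M ≤ (l.length + 2) * M := Nat.mul_le_mul_right M (by omega)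
        have e2 : M + l.length * M ≤ (l.length + 2) * M := by nlinarith
        have e3 : M + (M + l.length * M) ≤ (l.length + 2) * M := by nlinarith
        by_cases c1 : c x ∈ Z
        · by_cases c2 : t (c x) ∈ Z
          · exact ⟨t * (t * c), disp_mono e3 (disp_mul ha hb (hM t ht)
              (disp_mul ha hb (hM t ht) hcd)), fun c3 => h1 ⟨c1, c2, c3⟩⟩
          · exact ⟨t * c, disp_mono e2 (disp_mul ha hb (hM t ht) hcd), c2⟩
        · exact ⟨c, disp_mono e1 hcd, c1⟩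
      obtain ⟨f, hf, hfZ⟩ := h3
      obtain ⟨j, hj, hfj⟩ := hf x
      have h4 : ∃ k : ℤ, |k| ≤ M ∧ d a b k (f x) ∈ C := by
        by_contra h5
        apply hfZ
        intro k hk hkC
        exact h5 ⟨k, hk, hkC⟩
      obtain ⟨k, hk, hkC⟩ := h4
      obtain ⟨s, hs, hmv, -⟩ := d_move ha hb j
      rw [hfj, hmv] at hkC
      refine ⟨j + s * k, ?_, hkC⟩
      have h6 : |s * k| ≤ M := by
        rcases hs with rfl | rfl
        · rwa [one_mul]
        · rwa [neg_one_mul, abs_neg]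
      have h7 := abs_add_le j (s * k)
      push_cast at hj ⊢
      nlinarith
  · refine ⟨((l.map φ).map Prod.fst).prod, ?_, (cjl (l.map φ)).prod, ?_, hg2⟩
    · exact Subgroup.list_prod_mem _ fun f hf => Subgroup.subset_closure hf
    · exact Subgroup.list_prod_mem _ fun f hf => Subgroup.subset_closure hf

end Pool.Agent.NekF
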