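import Pool.Agent.NekF.WPerm

/-!
# NF-WDiag: diagonal elements of the wreath product

Notation: `inl v = SemidirectProduct.inl v`, `inr σ = SemidirectProduct.inr σ` in
`Wr I K = (I → K) ⋊[mulAutArrow] Equiv.Perm I`;
`inr σ * inl v * (inr σ)⁻¹ = inl (fun i => v (σ⁻¹ i))` (`SemidirectProduct.inl_aut`).

PLAN. (0) If `τ ^ 3 = 1` then `inr τ` is `Good` and so is `inl s * inr τ * (inl s)⁻¹` for every
`s : I → K`: its `right` is `τ`, its `left` at `c` is `s c * (s (τ⁻¹ c))⁻¹`, which is `1` if
`τ c = c`.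
(1) Let `c` be a cycle (`Equiv.Perm.IsCycle`) of `I` with `sign c = 1` and suppose `v i = 1` outside
of the support of `c` and `∏ i, v i = 1`. Then there is `s : I → K` with
`v i = s (c⁻¹ i) * (s i)⁻¹` for all `i`. Proof: fix `x₀` in the support, `n = orderOf c =` the size of
the support (`Equiv.Perm.IsCycle.orderOf`), every `i` in the support is `(c ^ j) x₀` for a unique
`j < n`; put `s i = (∏ l ∈ Finset.Ioc 0 j, v ((c ^ l) x₀))⁻¹` for `i = (c ^ j) x₀`, `j < n`, and
`s i = 1` outside of the support. At `i = (c ^ j) x₀`, `1 ≤ j < n` this is clear, at `i = x₀ = c ^ n x₀`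
it says `v x₀ = (∏ l ∈ Ioc 0 (n - 1), v ((c ^ l) x₀))⁻¹`, i.e. the product of all `v` is `1`.
Hence `inl v = inr c * (inl s * (inr c)⁻¹ * (inl s)⁻¹)`, and by `perm_len` (for `c` and for `c⁻¹`) and
(0) this is a product of at most `6 + 6 = 12` good elements.
(2) Let `n = Fintype.card I`. By `Finset.exists_cycleOn` there is, for every finset `s` of size at
least 2, a cycle with support `s` (`Equiv.Perm.isCycle_iff_exists_isCycleOn`-type lemmas), its sign
is `-(-1) ^ s.card` (`Equiv.Perm.IsCycle.sign`). If `n` is odd use (1) with a cycle with support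
`univ`. If `n` is even (so `n ≥ 4`) fix a point `x` and two more points `y`, `z`, and let `c` be a cycle
with support `univ \ {x}` (odd size). Write `v = v' * δ` with `δ x = v x`, `δ y = (v x)⁻¹`, `δ = 1`
elsewhere: `v' x = 1`, `∏ v' = 1`, so `inl v'` is a product of at most 12 good elements by (1).
`inl δ` is a product of 2 good elements: with `e = Pi.mulSingle y (v x)` and `τ` the 3-cycle
`y ↦ x ↦ z ↦ y`: `inr τ * inl e * (inr τ)⁻¹ * (inl e)⁻¹ = inl (Pi.mulSingle x (v x) *
(Pi.mulSingle y (v x))⁻¹) = inl δ`, and this is `inr τ * (inl e * (inr τ)⁻¹ * (inl e)⁻¹)`: two good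
elements by (0). Total 14.
-/

namespace Pool.Agent.NekF

open Pool.Agent.VW (Len)

private theorem act_apply {I K : Type} [Group K] (σ : Equiv.Perm I) (v : I → K) (i : I) :
    (mulAutArrow (M := K) σ v) i = v (σ⁻¹ i) := rfl

private theorem good_conj {I K : Type} [Group K] (s : I → K) (τ : Equiv.Perm I) (h : τ ^ 3 = 1) :
    Good ((SemidirectProduct.inl s : Wr I K) * SemidirectProduct.inr τ *
      (SemidirectProduct.inl s)⁻¹) := by
  constructor
  · rw [conj_pow, ← map_pow, h, map_one, mul_one, mul_inv_cancel]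
  · intro c hc
    have hc' : τ c = c := by
      simpa using hc
    have h1 : τ⁻¹ c = c := by
      rw [Equiv.Perm.inv_eq_iff_eq]
      exact hc'.symm
    rw [SemidirectProduct.mul_left, SemidirectProduct.mul_left, SemidirectProduct.left_inl,
      SemidirectProduct.left_inr, SemidirectProduct.mul_right, SemidirectProduct.right_inl,
      SemidirectProduct.right_inr, ← map_inv, SemidirectProduct.left_inl, map_one, mul_one,
      one_mul, Pi.mul_apply, act_apply, h1, Pi.inv_apply, mul_inv_cancel]

private theorem good_inr {I K : Type} [Group K] (τ : Equiv.Perm I) (h : τ ^ 3 = 1) :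
    Good (SemidirectProduct.inr τ : Wr I K) := by
  constructor
  · rw [← map_pow, h, map_one]
  · intro c _
    rfl

private theorem comm_inl {I K : Type} [CommGroup K] (s : I → K) (c : Equiv.Perm I) (v : I → K)
    (h : ∀ i, v i = s (c⁻¹ i) * (s i)⁻¹) :
    (SemidirectProduct.inl v : Wr I K) = SemidirectProduct.inr c *
      (SemidirectProduct.inl s * SemidirectProduct.inr c⁻¹ * (SemidirectProduct.inl s)⁻¹) := by
  have e1 : (SemidirectProduct.inl (mulAutArrow (M := K) c s) : Wr I K) =
      SemidirectProduct.inr c * SemidirectProduct.inl s * SemidirectProduct.inr c⁻¹ :=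
    SemidirectProduct.inl_aut c s
  rw [← mul_assoc, ← mul_assoc, ← e1, ← map_inv, ← map_mul]
  congr 1
  funext i
  rw [h i]
  rfl

private theorem cyc_fin {K : Type} [CommGroup K] (n : ℕ) (i : Fin n) (v : Fin n → K)
    (hv : ∀ j, i < j → v j = 1) (hp : ∏ j, v j = 1) :
    ∃ s : Fin n → K, ∀ j, v (Fin.cycleRange i j) = s j * (s (Fin.cycleRange i j))⁻¹ := by
  haveI : NeZero n := ⟨by have := i.2; omega⟩
  refine ⟨fun j => (∏ l ∈ Finset.Iic j, v l)⁻¹, fun j => ?_⟩
  rcases lt_trichotomy j i with h | h | h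
  · have e1 : ((Fin.cycleRange i j : Fin n) : ℕ) = j + 1 := Fin.coe_cycleRange_of_lt h
    generalize Fin.cycleRange i j = j' at e1 ⊢
    have e2 : Finset.Iic j' = insert j' (Finset.Iic j) := by
      ext l
      simp only [Finset.mem_Iic, Finset.mem_insert, Fin.le_def, Fin.ext_iff]
      omega
    have e3 : j' ∉ Finset.Iic j := by
      simp only [Finset.mem_Iic, Fin.le_def]
      omega
    simp only [e2, Finset.prod_insert e3]
    rw [inv_inv, mul_comm, mul_inv_cancel_right]
  · subst h
    rw [Fin.cycleRange_self]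
    have e1 : Finset.Iic (0 : Fin n) = {0} := by
      ext l
      simp
    have e2 : ∏ l ∈ Finset.Iic j, v l = 1 := by
      rw [← hp]
      refine Finset.prod_subset (Finset.subset_univ _) fun l _ hl => ?_
      refine hv l ?_
      simpa using hl
    simp only [e1, e2, Finset.prod_singleton]
    group
  · rw [Fin.cycleRange_of_gt h, hv j h]
    group

private theorem diag_cyc {I K : Type} [Fintype I] [DecidableEq I] [CommGroup K] (n : ℕ)
    (e : I ≃ Fin n) (i : Fin n) (hi : Even (i : ℕ)) (v : I → K) (hv : ∀ j, i < e j → v j = 1)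
    (hp : ∏ j, v j = 1) :
    Len {w : Wr I K | Good w} 12 (SemidirectProduct.inl v) := by
  obtain ⟨s, hs⟩ := cyc_fin n i (fun j => v (e.symm j)) (fun j hj => hv _ (by simpa using hj))
    (by rw [← hp]; exact Equiv.prod_comp e.symm v)
  let c : Equiv.Perm I := e.symm.permCongr (Fin.cycleRange i)
  have hc : ∀ j, c j = e.symm (Fin.cycleRange i (e j)) := fun j => rfl
  have sc : Equiv.Perm.sign c = 1 := by
    rw [Equiv.Perm.sign_permCongr, Fin.sign_cycleRange, hi.neg_one_pow]
  have sc' : Equiv.Perm.sign c⁻¹ = 1 := by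
    rw [Equiv.Perm.sign_inv, sc]
  have key : ∀ j, v j = (fun j => s (e j)) (c⁻¹ j) * ((fun j => s (e j)) j)⁻¹ := by
    intro j
    have h1 := hs (e (c⁻¹ j))
    have h2 : Fin.cycleRange i (e (c⁻¹ j)) = e j := by
      have h3 := hc (c⁻¹ j)
      rw [show c (c⁻¹ j) = j from c.apply_symm_apply j] at h3
      conv_rhs => rw [h3, Equiv.apply_symm_apply]
    rw [h2] at h1
    simpa using h1
  rw [comm_inl (fun j => s (e j)) c v key]
  refine len_mul (m := 6) (n := 6) ?_ ?_
  · exact len_map (SemidirectProduct.inr : Equiv.Perm I →* Wr I K)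
      (fun τ hτ => good_inr τ hτ) (perm_len c sc)
  · have h1 := len_map (((MulAut.conj (SemidirectProduct.inl (fun j => s (e j)) : Wr I K)
      ).toMonoidHom).comp (SemidirectProduct.inr : Equiv.Perm I →* Wr I K))
      (W' := {w : Wr I K | Good w}) (fun τ hτ => good_conj _ τ hτ) (perm_len c⁻¹ sc')
    exact h1

private theorem delta_len {I K : Type} [Fintype I] [DecidableEq I] [CommGroup K] (x y z : I)
    (hxy : x ≠ y) (hxz : x ≠ z) (hyz : y ≠ z) (a : K) :
    Len {w : Wr I K | Good w} 2
      (SemidirectProduct.inl (Pi.mulSingle x a * (Pi.mulSingle y a)⁻¹)) := by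
  have h3 : (Equiv.swap y z * Equiv.swap y x) ^ 3 = 1 := by
    have := (Equiv.Perm.isThreeCycle_swap_mul_swap_same hyz hxy.symm hxz.symm).orderOf
    rw [← this]
    exact pow_orderOf_eq_one _
  generalize hτ : Equiv.swap y z * Equiv.swap y x = τ at h3
  have h1 : τ y = x := by
    rw [← hτ, Equiv.Perm.mul_apply, Equiv.swap_apply_left, Equiv.swap_apply_of_ne_of_ne hxy hxz]
  have h3' : (τ⁻¹) ^ 3 = 1 := by
    rw [inv_pow, h3, inv_one]
  rw [comm_inl (Pi.mulSingle y a) τ]
  · refine len_mul (m := 1) (n := 1) (len_of_mem (good_inr τ h3)) (len_of_mem (good_conj _ _ h3'))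
  · intro i
    rw [Pi.mul_apply, Pi.inv_apply]
    congr 1
    by_cases hi : i = x
    · subst hi
      have h2 : τ⁻¹ i = y := by
        rw [Equiv.Perm.inv_eq_iff_eq]
        exact h1.symm
      rw [h2, Pi.mulSingle_eq_same, Pi.mulSingle_eq_same]
    · have h2 : τ⁻¹ i ≠ y := by
        intro h
        rw [Equiv.Perm.inv_eq_iff_eq, h1] at h
        exact hi h
      rw [Pi.mulSingle_eq_of_ne hi, Pi.mulSingle_eq_of_ne h2]

theorem diag_len {I K : Type} [Fintype I] [DecidableEq I] [CommGroup K]
    (h3 : 3 ≤ Fintype.card I) (v : I → K) (hv : ∏ i, v i = 1) :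
    Len {w : Wr I K | Good w} 14 (SemidirectProduct.inl v) := by
  obtain ⟨n, hn⟩ : ∃ n, n = Fintype.card I := ⟨_, rfl⟩
  have e : I ≃ Fin n := hn ▸ Fintype.equivFin I
  rw [← hn] at h3
  rcases Nat.even_or_odd n with hev | hodd
  · have h4 : 4 ≤ n := by
      rcases hev with ⟨k, hk⟩
      omega
    obtain ⟨x, hx⟩ : ∃ x, x = e.symm ⟨n - 1, by omega⟩ := ⟨_, rfl⟩
    obtain ⟨y, hy⟩ : ∃ y, y = e.symm ⟨0, by omega⟩ := ⟨_, rfl⟩
    obtain ⟨z, hz⟩ : ∃ z, z = e.symm ⟨1, by omega⟩ := ⟨_, rfl⟩
    have hxy : x ≠ y := by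
      rw [hx, hy]
      intro h
      have := Fin.ext_iff.1 (e.symm.injective h)
      simp only at this
      omega
    have hxz : x ≠ z := by
      rw [hx, hz]
      intro h
      have := Fin.ext_iff.1 (e.symm.injective h)
      simp only at this
      omega
    have hyz : y ≠ z := by
      rw [hy, hz]
      intro h
      have := Fin.ext_iff.1 (e.symm.injective h)
      simp only at this
      omega
    have e1 : v = (v * (Pi.mulSingle x (v x) * (Pi.mulSingle y (v x))⁻¹)⁻¹) *
        (Pi.mulSingle x (v x) * (Pi.mulSingle y (v x))⁻¹) := by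
      rw [inv_mul_cancel_right]
    have ex : e x = ⟨n - 1, by omega⟩ := by
      rw [hx, Equiv.apply_symm_apply]
    rw [e1, map_mul]
    refine len_mul (m := 12) (n := 2) ?_ (delta_len x y z hxy hxz hyz (v x))
    refine diag_cyc n e ⟨n - 2, by omega⟩ (by
      rcases hev with ⟨k, hk⟩
      exact ⟨k - 1, by simp only; omega⟩) _ ?_ ?_
    · intro j hj
      have hjx : j = x := by
        apply e.injective
        rw [ex]
        apply Fin.ext
        have h1 := (e j).2
        have h2 := Fin.lt_def.1 hj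
        simp only at h2 ⊢
        omega
      subst hjx
      rw [Pi.mul_apply, Pi.inv_apply, Pi.mul_apply, Pi.inv_apply, Pi.mulSingle_eq_same,
        Pi.mulSingle_eq_of_ne hxy, inv_one, mul_one, mul_inv_cancel]
    · simp only [Pi.mul_apply, Pi.inv_apply, Finset.prod_mul_distrib, Finset.prod_inv_distrib, hv,
        Finset.univ_prod_mulSingle, Fintype.prod_pi_mulSingle, mul_inv_cancel, one_mul]
      simp
  · refine len_mono (by norm_num : 12 ≤ 14) (diag_cyc n e ⟨n - 1, by omega⟩ (by
      rcases hodd with ⟨k, hk⟩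
      exact ⟨k, by simp only; omega⟩) v ?_ hv)
    intro j hj
    exfalso
    have h1 := (e j).2
    have h2 := Fin.lt_def.1 hj
    simp only at h2
    omega

end Pool.Agent.NekF
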