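import Pool.Agent.NekF.Basic

/-!
# NF-WPerm: an even permutation of a finite set is a product of at most 6 permutations of cube 1

PLAN. (1) Every permutation `σ` of a finite set is a product of two involutions. For every `x` let
`base x` be a representative of the cycle of `x` (`Quotient.out` for the setoid
`Equiv.Perm.SameCycle.setoid σ`) and choose `i : ℤ` with `(σ ^ i) (base x) = x`; put
`ρ x = (σ ^ (-i)) (base x)`. It does not depend on the choice of `i`
(if `σ ^ i z = σ ^ j z` then `σ ^ (-i) z = σ ^ (-j) z`: apply `σ ^ (-i-j)`), so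
`ρ ((σ ^ i) z) = (σ ^ (-i)) z` for every `i` when `z` is a base point. Then `ρ (ρ x) = x` and
`ρ (σ x) = σ⁻¹ (ρ x)`, so `ρ` (`Function.Involutive.toPerm`) and `ρ * σ` are involutions and
`σ = ρ * (ρ * σ)`.
(2) An even involution is a product of two permutations of cube 1 with support in the support of
the involution. Strong induction on the size of the support. If `ρ ≠ 1`: there is `x` with
`ρ x ≠ x`, put `y = ρ x`; `ρ` differs from `swap x y` as `sign (swap x y) = -1`, hence there is
`z ∉ {x, y}` with `ρ z ≠ z`, put `w = ρ z`. `ρ' = swap x y * swap z w * ρ` is an involution fixing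
`x, y, z, w`, with support contained in the one of `ρ`, even, so `ρ' = u * v` with `u ^ 3 = 1`,
`v ^ 3 = 1` and `u`, `v` fix all the points fixed by `ρ'`. `swap x y * swap z w = p * q` with
`p`, `q` two 3-cycles with support in `{x, y, z, w}`
(e.g. `(1 2)(3 4) = (1 2 3)(2 3 4)` : `1 ↦ 2 ↦ 3`-notation, product applied from the right; write the
3-cycles as products of two swaps and verify by `Equiv.Perm.ext` with case analysis, or with
`swap`-algebra). Then `ρ = p * q * u * v = (p * u) * (q * v)` since `q` and `u` have disjoint supports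
(`Equiv.Perm.Disjoint.commute`), and `(p * u) ^ 3 = p ^ 3 * u ^ 3 = 1`.
(3) Let `σ = ρ₁ * ρ₂` be even, `ρ₁`, `ρ₂` involutions. If both are even then 4 factors suffice. If both
are odd, there is `x` with `ρ₁ x ≠ x` and `y` with `ρ₂ y ≠ y` (an odd permutation is not `1`); put
`s₁ = swap x (ρ₁ x)`, `s₂ = swap y (ρ₂ y)`. Then `ρ₁ * s₁` and `s₂ * ρ₂` are even involutions
(`s₁` commutes with `ρ₁`), `σ = (ρ₁ * s₁) * (s₁ * s₂) * (s₂ * ρ₂)`, and `s₁ * s₂` is `1`, or a 3-cycle
(if they have one point in common: `Equiv.Perm.isThreeCycle_swap_mul_swap_same`,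
`IsThreeCycle.orderOf`), or an even involution (if disjoint): at most 2 factors. Total at most 6.
Mathlib also has `Equiv.Perm.swap_mul_swap_mem_closure_three_cycles` as a model for the case
analysis.
-/

namespace Pool.Agent.NekF

open Pool.Agent.VW (Len)

private theorem cube_swaps {I : Type} [Fintype I] [DecidableEq I] {a b c : I} (hab : a ≠ b)
    (hbc : b ≠ c) : (Equiv.swap a b * Equiv.swap b c) ^ 3 = 1 := by
  by_cases hac : a = c
  · subst hac
    rw [Equiv.swap_comm b a, Equiv.swap_mul_self, one_pow]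
  · rw [Equiv.swap_comm a b]
    have h := (Equiv.Perm.isThreeCycle_swap_mul_swap_same (Ne.symm hab) hbc hac).orderOf
    rw [← h]
    exact pow_orderOf_eq_one _

/-- every permutation is a product of two involutions -/
private theorem two_invol {I : Type} [Fintype I] [DecidableEq I] (σ : Equiv.Perm I) :
    ∃ ρ τ : Equiv.Perm I, ρ * ρ = 1 ∧ τ * τ = 1 ∧ σ = ρ * τ := by
  classical
  have hwell : ∀ (z : I) (i j : ℤ), (σ ^ i) z = (σ ^ j) z → (σ ^ (-i)) z = (σ ^ (-j)) z := by
    intro z i j h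
    have h1 : (σ ^ (-i - j)) ((σ ^ i) z) = (σ ^ (-i - j)) ((σ ^ j) z) := by rw [h]
    rw [← Equiv.Perm.mul_apply, ← Equiv.Perm.mul_apply, ← zpow_add, ← zpow_add] at h1
    have e1 : -i - j + i = -j := by ring
    have e2 : -i - j + j = -i := by ring
    rw [e1, e2] at h1
    exact h1.symm
  let base : I → I := fun x => Quotient.out (Quotient.mk (Equiv.Perm.SameCycle.setoid σ) x)
  have hbase : ∀ x, Equiv.Perm.SameCycle σ (base x) x := fun x =>
    Quotient.exact (s := Equiv.Perm.SameCycle.setoid σ) (Quotient.out_eq _)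
  have hbeq : ∀ x y, Equiv.Perm.SameCycle σ x y → base x = base y := by
    intro x y h
    have : Quotient.mk (Equiv.Perm.SameCycle.setoid σ) x
        = Quotient.mk (Equiv.Perm.SameCycle.setoid σ) y := Quotient.sound h
    change Quotient.out _ = Quotient.out _
    rw [this]
  choose ix hix using hbase
  let r : I → I := fun x => (σ ^ (-(ix x))) (base x)
  have hr : ∀ (x : I) (i : ℤ), r ((σ ^ i) (base x)) = (σ ^ (-i)) (base x) := by
    intro x i
    have hb : base ((σ ^ i) (base x)) = base x := by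
      apply hbeq
      have h1 : Equiv.Perm.SameCycle σ ((σ ^ i) (base x)) (base x) := ⟨-i, by
        rw [← Equiv.Perm.mul_apply, ← zpow_add]; simp⟩
      exact h1.trans ⟨ix x, hix x⟩
    change (σ ^ (-(ix ((σ ^ i) (base x))))) (base ((σ ^ i) (base x))) = _
    rw [hb]
    apply hwell
    have h2 := hix ((σ ^ i) (base x))
    rw [hb] at h2
    exact h2
  have hrr : Function.Involutive r := by
    intro x
    change r ((σ ^ (-(ix x))) (base x)) = x
    rw [hr x (-(ix x)), neg_neg, hix]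
  have hrs : ∀ x, r (σ x) = σ⁻¹ (r x) := by
    intro x
    have h1 : σ x = (σ ^ (ix x + 1)) (base x) := by
      rw [add_comm, zpow_add, Equiv.Perm.mul_apply, hix x, zpow_one]
    rw [h1, hr x]
    change (σ ^ (-(ix x + 1))) (base x) = σ⁻¹ ((σ ^ (-(ix x))) (base x))
    rw [neg_add_rev, zpow_add, Equiv.Perm.mul_apply, zpow_neg_one]
  refine ⟨hrr.toPerm, hrr.toPerm * σ, ?_, ?_, ?_⟩
  · ext x
    exact hrr x
  · ext x
    change r (σ (r (σ x))) = x
    have h2 : σ (σ⁻¹ (r x)) = r x := by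
      rw [← Equiv.Perm.mul_apply, mul_inv_cancel, Equiv.Perm.one_apply]
    rw [hrs x, h2, hrr]
  · ext x
    change σ x = r (r (σ x))
    rw [hrr]

private theorem even_invol {I : Type} [Fintype I] [DecidableEq I] (n : ℕ) :
    ∀ ρ : Equiv.Perm I, ρ.support.card ≤ n → ρ * ρ = 1 → Equiv.Perm.sign ρ = 1 →
      ∃ u v : Equiv.Perm I, u ^ 3 = 1 ∧ v ^ 3 = 1 ∧ u * v = ρ ∧ (∀ t, ρ t = t → u t = t) ∧
        ∀ t, ρ t = t → v t = t := by
  induction n with
  | zero =>
    intro ρ hn hρ hs
    have h1 : ρ = 1 := by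
      rw [← Equiv.Perm.support_eq_empty_iff]
      exact Finset.card_eq_zero.mp (Nat.le_zero.mp hn)
    subst h1
    exact ⟨1, 1, one_pow _, one_pow _, one_mul _, fun t _ => rfl, fun t _ => rfl⟩
  | succ n ih =>
    intro ρ hn hρ hs
    by_cases h1 : ρ = 1
    · subst h1
      exact ⟨1, 1, one_pow _, one_pow _, one_mul _, fun t _ => rfl, fun t _ => rfl⟩
    have hinv : ∀ t, ρ (ρ t) = t := fun t => by
      rw [← Equiv.Perm.mul_apply, hρ, Equiv.Perm.one_apply]
    obtain ⟨x, hx⟩ : ∃ x, ρ x ≠ x := by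
      by_contra hcon
      push Not at hcon
      exact h1 (Equiv.Perm.ext hcon)
    obtain ⟨z, hzx, hzy, hz⟩ : ∃ z, z ≠ x ∧ z ≠ ρ x ∧ ρ z ≠ z := by
      by_contra hcon
      push Not at hcon
      have h2 : ρ = Equiv.swap x (ρ x) := by
        ext t
        by_cases htx : t = x
        · rw [htx, Equiv.swap_apply_left]
        · by_cases hty : t = ρ x
          · rw [hty, Equiv.swap_apply_right, hinv]
          · rw [Equiv.swap_apply_of_ne_of_ne htx hty, hcon t htx hty]
      have h3 := Equiv.Perm.sign_swap (Ne.symm hx)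
      rw [← h2, hs] at h3
      exact absurd h3 (by decide)
    obtain ⟨y, hy⟩ : ∃ y, y = ρ x := ⟨_, rfl⟩
    obtain ⟨w, hw⟩ : ∃ w, w = ρ z := ⟨_, rfl⟩
    have hρx : ρ x = y := hy.symm
    have hρz : ρ z = w := hw.symm
    have hρy : ρ y = x := by rw [hy, hinv]
    have hρw : ρ w = z := by rw [hw, hinv]
    rw [hρx] at hx hzy
    rw [hρz] at hz
    have hwx : w ≠ x := by
      intro h
      rw [h, hρx] at hρw
      exact hzy hρw.symm
    have hwy : w ≠ y := by
      intro h
      rw [h, hρy] at hρw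
      exact hzx hρw.symm
    obtain ⟨ρ', hρ'⟩ : ∃ ρ' : Equiv.Perm I, ρ' = Equiv.swap x y * Equiv.swap z w * ρ :=
      ⟨_, rfl⟩
    have hx' : ρ' x = x := by
      rw [hρ', Equiv.Perm.mul_apply, Equiv.Perm.mul_apply, hρx,
        Equiv.swap_apply_of_ne_of_ne (Ne.symm hzy) (Ne.symm hwy), Equiv.swap_apply_right]
    have hy' : ρ' y = y := by
      rw [hρ', Equiv.Perm.mul_apply, Equiv.Perm.mul_apply, hρy,
        Equiv.swap_apply_of_ne_of_ne (Ne.symm hzx) (Ne.symm hwx), Equiv.swap_apply_left]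
    have hz' : ρ' z = z := by
      rw [hρ', Equiv.Perm.mul_apply, Equiv.Perm.mul_apply, hρz, Equiv.swap_apply_right,
        Equiv.swap_apply_of_ne_of_ne hzx hzy]
    have hw' : ρ' w = w := by
      rw [hρ', Equiv.Perm.mul_apply, Equiv.Perm.mul_apply, hρw, Equiv.swap_apply_left,
        Equiv.swap_apply_of_ne_of_ne hwx hwy]
    have ht' : ∀ t, t ≠ x → t ≠ y → t ≠ z → t ≠ w → ρ' t = ρ t := by
      intro t h1 h2 h3 h4
      have e1 : ρ t ≠ x := fun h => h2 (by rw [← hinv t, h, hρx])
      have e2 : ρ t ≠ y := fun h => h1 (by rw [← hinv t, h, hρy])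
      have e3 : ρ t ≠ z := fun h => h4 (by rw [← hinv t, h, hρz])
      have e4 : ρ t ≠ w := fun h => h3 (by rw [← hinv t, h, hρw])
      rw [hρ', Equiv.Perm.mul_apply, Equiv.Perm.mul_apply, Equiv.swap_apply_of_ne_of_ne e3 e4,
        Equiv.swap_apply_of_ne_of_ne e1 e2]
    have hinv' : ρ' * ρ' = 1 := by
      ext t
      rw [Equiv.Perm.mul_apply, Equiv.Perm.one_apply]
      by_cases h1 : t = x
      · rw [h1, hx', hx']
      by_cases h2 : t = y
      · rw [h2, hy', hy']
      by_cases h3 : t = z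
      · rw [h3, hz', hz']
      by_cases h4 : t = w
      · rw [h4, hw', hw']
      have e1 : ρ t ≠ x := fun h => h2 (by rw [← hinv t, h, hρx])
      have e2 : ρ t ≠ y := fun h => h1 (by rw [← hinv t, h, hρy])
      have e3 : ρ t ≠ z := fun h => h4 (by rw [← hinv t, h, hρz])
      have e4 : ρ t ≠ w := fun h => h3 (by rw [← hinv t, h, hρw])
      rw [ht' t h1 h2 h3 h4, ht' _ e1 e2 e3 e4, hinv]
    have hfix : ∀ t, ρ t = t → t ≠ x ∧ t ≠ y ∧ t ≠ z ∧ t ≠ w := by
      intro t ht
      refine ⟨?_, ?_, ?_, ?_⟩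
      · rintro rfl
        exact hx (by rw [← hρx]; exact ht)
      · rintro rfl
        exact hx (by rw [← hρy]; exact ht.symm)
      · rintro rfl
        exact hz (by rw [← hρz]; exact ht)
      · rintro rfl
        exact hz (by rw [← hρw]; exact ht.symm)
    have hfix' : ∀ t, ρ t = t → ρ' t = t := by
      intro t ht
      obtain ⟨h1, h2, h3, h4⟩ := hfix t ht
      rw [ht' t h1 h2 h3 h4, ht]
    have hsub : ρ'.support ⊂ ρ.support := by
      rw [Finset.ssubset_iff_of_subset]
      · refine ⟨x, ?_, ?_⟩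
        · rw [Equiv.Perm.mem_support, hρx]
          exact hx
        · rw [Equiv.Perm.mem_support]
          exact fun h => h hx'
      · intro t ht
        rw [Equiv.Perm.mem_support] at ht ⊢
        exact fun h => ht (hfix' t h)
    have hcard : ρ'.support.card ≤ n := by
      have := Finset.card_lt_card hsub
      omega
    have hsign : Equiv.Perm.sign ρ' = 1 := by
      rw [hρ', Equiv.Perm.sign_mul, Equiv.Perm.sign_mul, Equiv.Perm.sign_swap (Ne.symm hx),
        Equiv.Perm.sign_swap (Ne.symm hz), hs]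
      decide
    obtain ⟨u, v, hu3, hv3, huv, hu, hv⟩ := ih ρ' hcard hinv' hsign
    obtain ⟨p, hp⟩ : ∃ p : Equiv.Perm I, p = Equiv.swap z w * Equiv.swap w x := ⟨_, rfl⟩
    obtain ⟨q, hq⟩ : ∃ q : Equiv.Perm I, q = Equiv.swap w x * Equiv.swap x y := ⟨_, rfl⟩
    have hp3 : p ^ 3 = 1 := by rw [hp]; exact cube_swaps (Ne.symm hz) hwx
    have hq3 : q ^ 3 = 1 := by rw [hq]; exact cube_swaps hwx (Ne.symm hx)
    have hpt : ∀ t, t ≠ x → t ≠ y → t ≠ z → t ≠ w → p t = t := by
      intro t h1 h2 h3 h4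
      rw [hp, Equiv.Perm.mul_apply, Equiv.swap_apply_of_ne_of_ne h4 h1,
        Equiv.swap_apply_of_ne_of_ne h3 h4]
    have hqt : ∀ t, t ≠ x → t ≠ y → t ≠ z → t ≠ w → q t = t := by
      intro t h1 h2 h3 h4
      rw [hq, Equiv.Perm.mul_apply, Equiv.swap_apply_of_ne_of_ne h1 h2,
        Equiv.swap_apply_of_ne_of_ne h4 h1]
    have hdisj : ∀ a b : Equiv.Perm I, (∀ t, t ≠ x → t ≠ y → t ≠ z → t ≠ w → a t = t) →
        (∀ t, ρ' t = t → b t = t) → Commute a b := by
      intro a b ha hb
      apply Equiv.Perm.Disjoint.commute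
      intro t
      by_cases h1 : t = x
      · right; rw [h1]; exact hb x hx'
      by_cases h2 : t = y
      · right; rw [h2]; exact hb y hy'
      by_cases h3 : t = z
      · right; rw [h3]; exact hb z hz'
      by_cases h4 : t = w
      · right; rw [h4]; exact hb w hw'
      left
      exact ha t h1 h2 h3 h4
    have hcpu := hdisj p u hpt hu
    have hcqu := hdisj q u hqt hu
    have hcqv := hdisj q v hqt hv
    refine ⟨p * u, q * v, ?_, ?_, ?_, ?_, ?_⟩
    · rw [hcpu.mul_pow, hp3, hu3, one_mul]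
    · rw [hcqv.mul_pow, hq3, hv3, one_mul]
    · have e1 : p * u * (q * v) = p * q * (u * v) := by
        rw [mul_assoc, ← mul_assoc u q v, ← hcqu.eq, mul_assoc q u v, mul_assoc p q]
      rw [e1, huv, hρ', hp, hq]
      have e2 : Equiv.swap z w * Equiv.swap w x * (Equiv.swap w x * Equiv.swap x y)
          = Equiv.swap z w * Equiv.swap x y := by
        rw [mul_assoc, ← mul_assoc (Equiv.swap w x), Equiv.swap_mul_self, one_mul]
      rw [e2, mul_assoc, mul_assoc (Equiv.swap x y), ← mul_assoc (Equiv.swap x y),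
        Equiv.swap_mul_self, one_mul, ← mul_assoc, Equiv.swap_mul_self, one_mul]
    · intro t ht
      obtain ⟨h1, h2, h3, h4⟩ := hfix t ht
      rw [Equiv.Perm.mul_apply, hu t (hfix' t ht), hpt t h1 h2 h3 h4]
    · intro t ht
      obtain ⟨h1, h2, h3, h4⟩ := hfix t ht
      rw [Equiv.Perm.mul_apply, hv t (hfix' t ht), hqt t h1 h2 h3 h4]

private theorem even_invol_len {I : Type} [Fintype I] [DecidableEq I] (ρ : Equiv.Perm I)
    (hρ : ρ * ρ = 1) (hs : Equiv.Perm.sign ρ = 1) : Len {τ : Equiv.Perm I | τ ^ 3 = 1} 2 ρ := by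
  obtain ⟨u, v, hu, hv, huv, -, -⟩ := even_invol _ ρ le_rfl hρ hs
  refine ⟨[u, v], le_rfl, ?_, ?_⟩
  · intro t ht
    rcases List.mem_cons.mp ht with rfl | ht
    · exact hu
    · rcases List.mem_cons.mp ht with rfl | ht
      · exact hv
      · exact absurd ht List.not_mem_nil
  · simpa using huv

private theorem swap_swap_len {I : Type} [Fintype I] [DecidableEq I] {a b c e : I} (hab : a ≠ b)
    (hce : c ≠ e) :
    Len {τ : Equiv.Perm I | τ ^ 3 = 1} 2 (Equiv.swap a b * Equiv.swap c e) := by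
  by_cases hbc : b = c
  · subst hbc
    exact len_mono (m := 1) (by norm_num) (len_of_mem (cube_swaps hab hce))
  · have e1 : Equiv.swap a b * Equiv.swap c e
        = (Equiv.swap a b * Equiv.swap b c) * (Equiv.swap b c * Equiv.swap c e) := by
      rw [mul_assoc, ← mul_assoc (Equiv.swap b c), Equiv.swap_mul_self, one_mul]
    rw [e1]
    exact len_mul (m := 1) (n := 1) (len_of_mem (cube_swaps hab hbc))
      (len_of_mem (cube_swaps hbc hce))

private theorem exists_moved {I : Type} [Fintype I] [DecidableEq I] (ρ : Equiv.Perm I)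
    (hs : Equiv.Perm.sign ρ = -1) : ∃ x, ρ x ≠ x := by
  by_contra hcon
  push Not at hcon
  have h1 : ρ = 1 := Equiv.Perm.ext hcon
  rw [h1, Equiv.Perm.sign_one] at hs
  exact absurd hs (by decide)

theorem perm_len {I : Type} [Fintype I] [DecidableEq I] (σ : Equiv.Perm I)
    (h : Equiv.Perm.sign σ = 1) : Len {τ : Equiv.Perm I | τ ^ 3 = 1} 6 σ := by
  obtain ⟨ρ, τ, hρ, hτ, hσ⟩ := two_invol σ
  have hs : Equiv.Perm.sign ρ * Equiv.Perm.sign τ = 1 := by
    rw [← Equiv.Perm.sign_mul, ← hσ, h]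
  rcases Int.units_eq_one_or (Equiv.Perm.sign ρ) with h1 | h1
  · rw [h1, one_mul] at hs
    rw [hσ]
    exact len_mono (by norm_num) (len_mul (even_invol_len ρ hρ h1) (even_invol_len τ hτ hs))
  · have h2 : Equiv.Perm.sign τ = -1 := by
      rcases Int.units_eq_one_or (Equiv.Perm.sign τ) with h2 | h2
      · rw [h1, h2] at hs
        exact absurd hs (by decide)
      · exact h2
    obtain ⟨x, hx⟩ := exists_moved ρ h1
    obtain ⟨y, hy⟩ := exists_moved τ h2
    have hρx : ρ (ρ x) = x := by rw [← Equiv.Perm.mul_apply, hρ, Equiv.Perm.one_apply]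
    have hτy : τ (τ y) = y := by rw [← Equiv.Perm.mul_apply, hτ, Equiv.Perm.one_apply]
    have hc1 : ρ * Equiv.swap x (ρ x) = Equiv.swap x (ρ x) * ρ := by
      rw [Equiv.mul_swap_eq_swap_mul, hρx, Equiv.swap_comm]
    have hc2 : τ * Equiv.swap y (τ y) = Equiv.swap y (τ y) * τ := by
      rw [Equiv.mul_swap_eq_swap_mul, hτy, Equiv.swap_comm]
    have e : σ = (ρ * Equiv.swap x (ρ x)) * (Equiv.swap x (ρ x) * Equiv.swap y (τ y))
        * (Equiv.swap y (τ y) * τ) := by
      rw [hσ]
      have a1 : (ρ * Equiv.swap x (ρ x)) * (Equiv.swap x (ρ x) * Equiv.swap y (τ y))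
          = ρ * Equiv.swap y (τ y) := by
        rw [mul_assoc, ← mul_assoc (Equiv.swap x (ρ x)), Equiv.swap_mul_self, one_mul]
      rw [a1, mul_assoc, ← mul_assoc (Equiv.swap y (τ y)), Equiv.swap_mul_self, one_mul]
    have i1 : (ρ * Equiv.swap x (ρ x)) * (ρ * Equiv.swap x (ρ x)) = 1 := by
      rw [hc1, mul_assoc, ← mul_assoc ρ, hc1, mul_assoc, hρ, mul_one, Equiv.swap_mul_self]
    have i2 : (Equiv.swap y (τ y) * τ) * (Equiv.swap y (τ y) * τ) = 1 := by
      rw [mul_assoc, ← mul_assoc τ, hc2, mul_assoc, hτ, mul_one, Equiv.swap_mul_self]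
    have s1 : Equiv.Perm.sign (ρ * Equiv.swap x (ρ x)) = 1 := by
      rw [Equiv.Perm.sign_mul, h1, Equiv.Perm.sign_swap (Ne.symm hx)]
      decide
    have s2 : Equiv.Perm.sign (Equiv.swap y (τ y) * τ) = 1 := by
      rw [Equiv.Perm.sign_mul, h2, Equiv.Perm.sign_swap (Ne.symm hy)]
      decide
    rw [e]
    exact len_mul (m := 4) (n := 2) (len_mul (m := 2) (n := 2) (even_invol_len _ i1 s1)
      (swap_swap_len (Ne.symm hx) (Ne.symm hy))) (even_invol_len _ i2 s2)

end Pool.Agent.NekF
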